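import Pool.Agent.Helper294.HallG.Defs
import Pool.Agent.Helper294.HallC.Defs

set_option autoImplicit false

namespace Pool.Agent.Helper294.HallG

open Module Pool.Agent.Helper946.HC Pool.Agent.Helper946.S4 Pool.Agent.Helper294.HallM
open Pool.Agent.Helper294.HallC (del FGM Stb Noe NoeOn ConjAct')

/-- the elements of `C` killed by a power of `y - 1` form a finitely generated group. -/
def OmFG {Γ A : Type} [Group Γ] [AddCommGroup A] [DistribMulAction Γ A] (y : Γ)
    (C : AddSubgroup A) : Prop :=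
  (AddSubgroup.closure {a : A | a ∈ C ∧ ∃ n : ℕ, (del y)^[n] a = 0}).FG

/-- `OmFG y C` for all `y` in a subgroup of finite index outside finitely many bad sets. -/
def EF (Γ : Type) {A : Type} [Group Γ] [AddCommGroup A] [DistribMulAction Γ A]
    (C : AddSubgroup A) : Prop :=
  ∃ (F : Set (Set Γ)) (Γ₀ : Subgroup Γ), F.Finite ∧ (∀ S ∈ F, WBadSet Γ S) ∧ Γ₀.index ≠ 0 ∧
    ∀ y ∈ Γ₀, (∀ S ∈ F, y ∉ S) → OmFG y C

end Pool.Agent.Helper294.HallG
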