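import Pool.Agent.Helper294.HallG.Defs
import Pool.Agent.Helper294.HallG.EDefs
import Pool.Agent.Helper294.HallC.NoeOfFg

set_option autoImplicit false

namespace Pool.Agent.Helper294.HallG

open Module Pool.Agent.Helper946.HC Pool.Agent.Helper946.S4 Pool.Agent.Helper294.HallM
open Pool.Agent.Helper294.HallC (del FGM Stb Noe NoeOn ConjAct')


/-- the stable subgroup generated by a finite set -/
def ab_fg_cl (Γ : Type) {V : Type} [Group Γ] [AddCommGroup V] [DistribMulAction Γ V]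
    (T : Finset V) : AddSubgroup V :=
  AddSubgroup.closure {a : V | ∃ g : Γ, ∃ s ∈ T, a = g • s}

theorem ab_fg_stb {Γ V : Type} [Group Γ] [AddCommGroup V] [DistribMulAction Γ V]
    (T : Finset V) (g : Γ) (x : V) (hx : x ∈ ab_fg_cl Γ T) : g • x ∈ ab_fg_cl Γ T := by
  have h1 : ab_fg_cl Γ T ≤ (ab_fg_cl Γ T).comap (DistribSMul.toAddMonoidHom V g) := by
    unfold ab_fg_cl
    rw [AddSubgroup.closure_le]
    rintro _ ⟨h, s, hs, rfl⟩
    apply AddSubgroup.subset_closure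
    exact ⟨g * h, s, hs, (mul_smul g h s).symm⟩
  exact h1 hx

theorem ab_fg_le {Γ V : Type} [Group Γ] [AddCommGroup V] [DistribMulAction Γ V]
    (B : AddSubgroup V) (hB : Stb Γ B) (T : Finset V) (hT : ∀ t ∈ T, t ∈ B) :
    ab_fg_cl Γ T ≤ B := by
  unfold ab_fg_cl
  rw [AddSubgroup.closure_le]
  rintro _ ⟨h, s, hs, rfl⟩
  exact hB h s (hT s hs)

theorem ab_fg_mem {Γ V : Type} [Group Γ] [AddCommGroup V] [DistribMulAction Γ V]
    (T : Finset V) (t : V) (ht : t ∈ T) : t ∈ ab_fg_cl Γ T :=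
  AddSubgroup.subset_closure ⟨1, t, ht, (one_smul Γ t).symm⟩

theorem ab_fg_mono {Γ V : Type} [Group Γ] [AddCommGroup V] [DistribMulAction Γ V]
    (T T' : Finset V) (h : T ⊆ T') : ab_fg_cl Γ T ≤ ab_fg_cl Γ T' := by
  apply AddSubgroup.closure_mono
  rintro _ ⟨g, s, hs, rfl⟩
  exact ⟨g, s, h hs, rfl⟩

/-- the action on a stable subgroup -/
abbrev ab_fg_act {Γ V : Type} [Group Γ] [AddCommGroup V] [DistribMulAction Γ V]
    (C : AddSubgroup V) (hC : ∀ (g : Γ) (x : V), x ∈ C → g • x ∈ C) :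
    DistribMulAction Γ C where
  smul g x := ⟨g • x.1, hC g x.1 x.2⟩
  one_smul x := Subtype.ext (one_smul Γ x.1)
  mul_smul g h x := Subtype.ext (mul_smul g h x.1)
  smul_zero g := Subtype.ext (smul_zero g)
  smul_add g x y := Subtype.ext (smul_add g x.1 y.1)

theorem ab_fg_acc {Γ V : Type} [Group Γ] [AddCommGroup V] [DistribMulAction Γ V] (hΓ : PC Γ)
    (S : Finset V) (f : ℕ → AddSubgroup V) (hf : Monotone f) (hs : ∀ n, Stb Γ (f n))
    (hle : ∀ n, f n ≤ ab_fg_cl Γ S) : ∃ n, f (n + 1) = f n := by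
  classical
  letI : DistribMulAction Γ (ab_fg_cl Γ S) := ab_fg_act (ab_fg_cl Γ S) (ab_fg_stb S)
  have hfg : FGM Γ (ab_fg_cl Γ S) := by
    refine ⟨S.attach.image (fun s => (⟨s.1, ab_fg_mem S s.1 s.2⟩ : ab_fg_cl Γ S)), ?_⟩
    have h1 : (AddSubgroup.closure {a : ab_fg_cl Γ S | ∃ g : Γ,
        ∃ s ∈ S.attach.image (fun s => (⟨s.1, ab_fg_mem S s.1 s.2⟩ : ab_fg_cl Γ S)),
          a = g • s}).map (ab_fg_cl Γ S).subtype = ab_fg_cl Γ S := by
      rw [AddMonoidHom.map_closure]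
      conv_rhs => unfold ab_fg_cl
      congr 1
      ext x
      constructor
      · rintro ⟨_, ⟨g, s, hs', rfl⟩, rfl⟩
        obtain ⟨t, -, rfl⟩ := Finset.mem_image.mp hs'
        exact ⟨g, t.1, t.2, rfl⟩
      · rintro ⟨g, s, hs', rfl⟩
        exact ⟨g • (⟨s, ab_fg_mem S s hs'⟩ : ab_fg_cl Γ S), ⟨g, _,
          Finset.mem_image.mpr ⟨⟨s, hs'⟩, Finset.mem_attach _ _, rfl⟩, rfl⟩, rfl⟩
    rw [eq_top_iff]
    intro x _
    have h2 : x.1 ∈ (AddSubgroup.closure {a : ab_fg_cl Γ S | ∃ g : Γ,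
        ∃ s ∈ S.attach.image (fun s => (⟨s.1, ab_fg_mem S s.1 s.2⟩ : ab_fg_cl Γ S)),
          a = g • s}).map (ab_fg_cl Γ S).subtype := by
      rw [h1]
      exact x.2
    obtain ⟨y, hy, hyx⟩ := h2
    have h3 : y = x := Subtype.ext hyx
    rw [← h3]
    exact hy
  have hnoe := Pool.Agent.Helper294.HallC.noe_of_fg hΓ hfg
  obtain ⟨n, hn⟩ := hnoe (fun n => (f n).comap (ab_fg_cl Γ S).subtype)
    (fun m n hmn => AddSubgroup.comap_mono (hf hmn)) (fun n g x hx => hs n g x.1 hx)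
  refine ⟨n, le_antisymm ?_ (hf (Nat.le_succ n))⟩
  intro x hx
  have h4 := hn (n + 1) (Nat.le_succ n)
  have h5 : (⟨x, hle _ hx⟩ : ab_fg_cl Γ S) ∈ (f (n + 1)).comap (ab_fg_cl Γ S).subtype := hx
  have h6 : (⟨x, hle _ hx⟩ : ab_fg_cl Γ S) ∈ (f n).comap (ab_fg_cl Γ S).subtype := by
    have h7 : (f (n + 1)).comap (ab_fg_cl Γ S).subtype = (f n).comap (ab_fg_cl Γ S).subtype := h4
    rw [← h7]
    exact h5
  exact h6

theorem ab_fg {Γ V : Type} [Group Γ] [AddCommGroup V] [DistribMulAction Γ V] (hΓ : PC Γ)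
    (B : AddSubgroup V) (hB : Stb Γ B) (S : Finset V)
    (hBC : B ≤ AddSubgroup.closure {a : V | ∃ g : Γ, ∃ s ∈ S, a = g • s}) :
    ∃ S' : Finset V, B = AddSubgroup.closure {a : V | ∃ g : Γ, ∃ s ∈ S', a = g • s} := by
  classical
  by_contra hcon
  have hne : ∀ S' : Finset V, B ≠ ab_fg_cl Γ S' := fun S' h => hcon ⟨S', h⟩
  have hstep : ∀ T : {T : Finset V // ∀ t ∈ T, t ∈ B}, ∃ b ∈ B, b ∉ ab_fg_cl Γ T.1 := by
    intro T
    by_contra hc
    apply hne T.1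
    refine le_antisymm (fun b hb => ?_) (ab_fg_le B hB T.1 T.2)
    by_contra hb'
    exact hc ⟨b, hb, hb'⟩
  choose b hbB hbn using hstep
  let F : ℕ → {T : Finset V // ∀ t ∈ T, t ∈ B} := fun n => Nat.rec
    ⟨∅, fun t ht => absurd ht (Finset.notMem_empty t)⟩
    (fun _ T => ⟨insert (b T) T.1, fun t ht => by
      rcases Finset.mem_insert.mp ht with rfl | h
      · exact hbB T
      · exact T.2 t h⟩) n
  have hF : ∀ n, (F (n + 1)).1 = insert (b (F n)) (F n).1 := fun n => rfl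
  obtain ⟨n, hn⟩ := ab_fg_acc hΓ S (fun n => ab_fg_cl Γ (F n).1)
    (monotone_nat_of_le_succ (fun n => ab_fg_mono _ _ (by
      rw [hF n]
      exact Finset.subset_insert _ _)))
    (fun n g x hx => ab_fg_stb _ g x hx)
    (fun n => (ab_fg_le B hB (F n).1 (F n).2).trans hBC)
  apply hbn (F n)
  have h1 : b (F n) ∈ ab_fg_cl Γ (F (n + 1)).1 := by
    apply ab_fg_mem
    rw [hF n]
    exact Finset.mem_insert_self _ _
  have h2 : ab_fg_cl Γ (F (n + 1)).1 = ab_fg_cl Γ (F n).1 := hn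
  rw [← h2]
  exact h1

end Pool.Agent.Helper294.HallG
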