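import Pool.Agent.Helper294.HallG.Defs
import Pool.Agent.Helper294.HallG.EDefs

set_option autoImplicit false

namespace Pool.Agent.Helper294.HallG

open Module Pool.Agent.Helper946.HC Pool.Agent.Helper946.S4 Pool.Agent.Helper294.HallM
open Pool.Agent.Helper294.HallC (del FGM Stb Noe NoeOn ConjAct')


theorem ab_fi {Γ V : Type} [Group Γ] [AddCommGroup V] [DistribMulAction Γ V]
    (Γ₀ : Subgroup Γ) (h0 : Γ₀.index ≠ 0) (S : Finset V) :
    ∃ S' : Finset V, AddSubgroup.closure {a : V | ∃ g : Γ, ∃ s ∈ S, a = g • s} =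
      AddSubgroup.closure {a : V | ∃ g : ↥Γ₀, ∃ s ∈ S', a = g • s} := by
  classical
  haveI : Finite (Γ ⧸ Γ₀) := (Subgroup.finiteIndex_iff_finite_quotient).mp ⟨h0⟩
  haveI : Fintype (Γ ⧸ Γ₀) := Fintype.ofFinite _
  let T : Finset Γ := (Finset.univ : Finset (Γ ⧸ Γ₀)).image (fun q => (Quotient.out q)⁻¹)
  have hT : ∀ g : Γ, ∃ c ∈ T, ∃ h : ↥Γ₀, g = (h : Γ) * c := by
    intro g
    refine ⟨(Quotient.out (QuotientGroup.mk g⁻¹ : Γ ⧸ Γ₀))⁻¹,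
      Finset.mem_image.mpr ⟨_, Finset.mem_univ _, rfl⟩, ?_⟩
    have h1 : (QuotientGroup.mk (Quotient.out (QuotientGroup.mk g⁻¹ : Γ ⧸ Γ₀)) : Γ ⧸ Γ₀) =
        QuotientGroup.mk g⁻¹ := Quotient.out_eq' _
    have h2 := QuotientGroup.eq.mp h1
    refine ⟨⟨g * Quotient.out (QuotientGroup.mk g⁻¹ : Γ ⧸ Γ₀), ?_⟩, ?_⟩
    · have h3 := Γ₀.inv_mem h2
      simpa [mul_inv_rev] using h3
    · simp
  refine ⟨Finset.image₂ (fun c s => c • s) T S, le_antisymm ?_ ?_⟩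
  · rw [AddSubgroup.closure_le]
    rintro a ⟨g, s, hs, rfl⟩
    obtain ⟨c, hc, h, hg⟩ := hT g
    refine AddSubgroup.subset_closure ⟨h, c • s, Finset.mem_image₂.mpr ⟨c, hc, s, hs, rfl⟩, ?_⟩
    rw [hg, mul_smul]
    rfl
  · rw [AddSubgroup.closure_le]
    rintro a ⟨h, t, ht, rfl⟩
    obtain ⟨c, hc, s, hs, rfl⟩ := Finset.mem_image₂.mp ht
    refine AddSubgroup.subset_closure ⟨(h : Γ) * c, s, hs, ?_⟩
    rw [mul_smul]
    rfl

end Pool.Agent.Helper294.HallG
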