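import Pool.Agent.Helper294.HallG.Defs
import Pool.Agent.Helper294.HX.HCNoeth

set_option autoImplicit false

namespace Pool.Agent.Helper294.HallG

open Module Pool.Agent.Helper946.HC Pool.Agent.Helper946.S4 Pool.Agent.Helper294.HallM


theorem bad_conj_mem {K G A : Type} [DivisionRing K] [Group G] [AddCommGroup A] [Module K A]
    [DistribMulAction G A] (hs : ∀ g : G, Semi K (ac g : A ≃+ A)) (h : G) (W : Submodule K A)
    (y : A) : y ∈ (gm h W : Submodule K A) ↔ h⁻¹ • y ∈ W := by
  rw [mem_gm hs]
  constructor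
  · rintro ⟨x, hx, rfl⟩
    rwa [inv_smul_smul]
  · intro hy
    exact ⟨h⁻¹ • y, hy, (smul_inv_smul h y).symm⟩

theorem bad_conj_fg {K G A : Type} [DivisionRing K] [Group G] [AddCommGroup A] [Module K A]
    [DistribMulAction G A] (hs : ∀ g : G, Semi K (ac g : A ≃+ A)) (h : G) (W : Submodule K A)
    (hW : W.FG) : (gm h W : Submodule K A).FG := by
  classical
  obtain ⟨s, hs'⟩ := hW
  refine ⟨s.image (fun x => h • x), ?_⟩
  apply le_antisymm
  · rw [Submodule.span_le]
    intro y hy
    simp only [Finset.coe_image, Set.mem_image] at hy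
    obtain ⟨x, hx, rfl⟩ := hy
    show h • x ∈ (gm h W : Submodule K A)
    rw [bad_conj_mem hs, inv_smul_smul, ← hs']
    exact Submodule.subset_span hx
  · intro y hy
    rw [mem_gm hs] at hy
    obtain ⟨x, hx, rfl⟩ := hy
    rw [← hs'] at hx
    obtain ⟨σ, hσ⟩ := hs h
    induction hx using Submodule.span_induction with
    | mem x hx =>
      apply Submodule.subset_span
      simp only [Finset.coe_image, Set.mem_image]
      exact ⟨x, hx, rfl⟩
    | zero =>
      rw [smul_zero]
      exact Submodule.zero_mem _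
    | add x y _ _ hx hy =>
      rw [smul_add]
      exact Submodule.add_mem _ hx hy
    | smul k x _ hx =>
      have h1 : h • (k • x) = σ k • (h • x) := hσ k x
      rw [h1]
      exact Submodule.smul_mem _ _ hx

theorem bad_conj {K G A : Type} [DivisionRing K] [Group G] [AddCommGroup A] [Module K A]
    [DistribMulAction G A] (hs : ∀ g : G, Semi K (ac g : A ≃+ A)) (g h : G)
    (hg : BadEl K A g) : BadEl K A (h * g * h⁻¹) := by
  obtain ⟨W, hW, hfd, hst⟩ := hg
  refine ⟨gm h W, ?_, ?_, ?_⟩
  · intro hbot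
    obtain ⟨x, hx, hx0⟩ := Submodule.exists_mem_ne_zero_of_ne_bot hW
    have h1 : h • x ∈ (gm h W : Submodule K A) := by
      rw [bad_conj_mem hs, inv_smul_smul]
      exact hx
    rw [hbot, Submodule.mem_bot] at h1
    apply hx0
    rw [← inv_smul_smul h x, h1, smul_zero]
  · have h1 : W.FG := (Module.Finite.iff_fg).1 hfd
    exact (Module.Finite.iff_fg).2 (bad_conj_fg hs h W h1)
  · intro x
    have h1 : (ac (h * g * h⁻¹) : A ≃+ A) x = (h * g * h⁻¹) • x := rfl
    rw [h1, bad_conj_mem hs, bad_conj_mem hs]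
    have h2 : h⁻¹ • ((h * g * h⁻¹) • x) = g • (h⁻¹ • x) := by
      rw [smul_smul, smul_smul]
      congr 1
      group
    rw [h2]
    exact hst (h⁻¹ • x)

end Pool.Agent.Helper294.HallG
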