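import Pool.Agent.Helper294.HallG.Defs
import Pool.Agent.Helper294.HX.HCNoeth

set_option autoImplicit false

namespace Pool.Agent.Helper294.HallG

open Module Pool.Agent.Helper946.HC Pool.Agent.Helper946.S4 Pool.Agent.Helper294.HallM


/-- preimage of a subspace under a group element -/
def bad_pow_pre {K G A : Type} [DivisionRing K] [Group G] [AddCommGroup A] [Module K A]
    [DistribMulAction G A] (hs : ∀ g : G, Semi K (ac g : A ≃+ A)) (g : G) (V : Submodule K A) :
    Submodule K A where
  carrier := {x | g • x ∈ V}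
  add_mem' := by
    intro a b ha hb
    show g • (a + b) ∈ V
    rw [smul_add]
    exact V.add_mem ha hb
  zero_mem' := by
    show g • (0 : A) ∈ V
    rw [smul_zero]
    exact V.zero_mem
  smul_mem' := by
    intro c x hx
    obtain ⟨σ, hσ⟩ := hs g
    have h1 : g • (c • x) = σ c • (g • x) := hσ c x
    show g • (c • x) ∈ V
    rw [h1]
    exact V.smul_mem _ hx

theorem bad_pow {K G A : Type} [DivisionRing K] [Group G] [AddCommGroup A] [Module K A]
    [DistribMulAction G A] (hs : ∀ g : G, Semi K (ac g : A ≃+ A)) (g : G) (n : ℕ) (hn : 0 < n)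
    (h : BadEl K A (g ^ n)) : BadEl K A g := by
  classical
  obtain ⟨W, hW0, hWfd, hWs⟩ := h
  have hst : ∀ x : A, g ^ n • x ∈ W ↔ x ∈ W := hWs
  let W' : Submodule K A := Submodule.span K {y | ∃ i < n, ∃ x ∈ W, y = g ^ i • x}
  have hgen : ∀ i < n, ∀ x ∈ W, g ^ i • x ∈ W' := fun i hi x hx =>
    Submodule.subset_span ⟨i, hi, x, hx, rfl⟩
  have hle : W ≤ W' := by
    intro x hx
    have := hgen 0 hn x hx
    rwa [pow_zero, one_smul] at this
  have h1 : W' ≤ bad_pow_pre hs g W' := by
    apply Submodule.span_le.mpr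
    rintro y ⟨i, hi, x, hx, rfl⟩
    show g • (g ^ i • x) ∈ W'
    rw [← mul_smul, ← pow_succ']
    rcases Nat.lt_or_ge (i + 1) n with hi' | hi'
    · exact hgen _ hi' x hx
    · have : i + 1 = n := by omega
      rw [this]
      exact hle ((hst x).mpr hx)
  have h2 : W' ≤ bad_pow_pre hs g⁻¹ W' := by
    apply Submodule.span_le.mpr
    rintro y ⟨i, hi, x, hx, rfl⟩
    show g⁻¹ • (g ^ i • x) ∈ W'
    cases i with
    | zero =>
      have hx' : (g ^ n)⁻¹ • x ∈ W := by
        rw [← hst, smul_inv_smul]
        exact hx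
      have e : g⁻¹ • (g ^ 0 • x) = g ^ (n - 1) • ((g ^ n)⁻¹ • x) := by
        rw [← mul_smul, ← mul_smul]
        congr 1
        obtain ⟨k, rfl⟩ : ∃ k, n = k + 1 := ⟨n - 1, by omega⟩
        rw [Nat.add_sub_cancel, pow_succ, mul_inv_rev, pow_zero, mul_one]
        group
      rw [e]
      exact hgen _ (by omega) _ hx'
    | succ i =>
      rw [pow_succ', mul_smul, inv_smul_smul]
      exact hgen _ (by omega) _ hx
  refine ⟨W', ?_, ?_, ?_⟩
  · intro hbot
    apply hW0
    rw [eq_bot_iff]
    rw [hbot] at hle
    exact hle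
  · obtain ⟨s, hs'⟩ := (Submodule.fg_iff_finiteDimensional W).mpr hWfd
    let T : Set A := ⋃ i ∈ Finset.range n, (fun z : A => g ^ i • z) '' (s : Set A)
    have hT : T.Finite := by
      apply Set.Finite.biUnion (Finset.range n).finite_toSet
      intro i _
      exact s.finite_toSet.image _
    have hWT : W' ≤ Submodule.span K T := by
      apply Submodule.span_le.mpr
      rintro y ⟨i, hi, x, hx, rfl⟩
      have h3 : W ≤ bad_pow_pre hs (g ^ i) (Submodule.span K T) := by
        rw [← hs']
        apply Submodule.span_le.mpr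
        intro z hz
        show g ^ i • z ∈ Submodule.span K T
        apply Submodule.subset_span
        exact Set.mem_biUnion (Finset.mem_coe.mpr (Finset.mem_range.mpr hi)) ⟨z, hz, rfl⟩
      exact h3 hx
    have : FiniteDimensional K (Submodule.span K T) := FiniteDimensional.span_of_finite K hT
    exact Submodule.finiteDimensional_of_le hWT
  · intro x
    constructor
    · intro hx
      have h3 : g⁻¹ • (g • x) ∈ W' := h2 hx
      rwa [inv_smul_smul] at h3
    · intro hx
      exact h1 hx

end Pool.Agent.Helper294.HallG
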