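import Pool.Agent.Helper294.HallG.Defs

set_option autoImplicit false

namespace Pool.Agent.Helper294.HallG

open Module Pool.Agent.Helper946.HC Pool.Agent.Helper946.S4 Pool.Agent.Helper294.HallM


theorem bad_scal {K G A Q : Type} [DivisionRing K] [Group G] [AddCommGroup A] [Module K A]
    [DistribMulAction G A] [Group Q] {ρ : G →* Q}
    (hsc : ∀ g : G, ρ g = 1 → ∃ c : K, ∀ a : A, g • a = c • a) (g g' : G) (hgg : ρ g = ρ g')
    (h : BadEl K A g) : BadEl K A g' := by
  obtain ⟨W, hW, hfd, hst⟩ := h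
  obtain ⟨c, hc⟩ := hsc (g⁻¹ * g') (by rw [map_mul, map_inv, hgg, inv_mul_cancel])
  have hc0 : c ≠ 0 := by
    rintro rfl
    apply hW
    rw [eq_bot_iff]
    intro x _
    rw [Submodule.mem_bot]
    have h1 := hc ((g⁻¹ * g')⁻¹ • x)
    rw [smul_inv_smul, zero_smul] at h1
    exact h1
  refine ⟨W, hW, hfd, ?_⟩
  intro x
  have h2 : (ac g' : A ≃+ A) x = (ac g : A ≃+ A) (c • x) := by
    show g' • x = g • (c • x)
    rw [← hc x, smul_smul, mul_inv_cancel_left]
  rw [h2, hst (c • x)]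
  exact W.smul_mem_iff hc0

end Pool.Agent.Helper294.HallG

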