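import Pool.Agent.Helper294.HallG.Defs

set_option autoImplicit false

namespace Pool.Agent.Helper294.HallG

open Module Pool.Agent.Helper946.HC Pool.Agent.Helper946.S4 Pool.Agent.Helper294.HallM


theorem bad_split {K G A : Type} [DivisionRing K] [Group G] [AddCommGroup A] [Module K A]
    [DistribMulAction G A] {A₂ : Type} [AddCommGroup A₂] [Module K A₂] [DistribMulAction G A₂]
    (B : Submodule K A) [DistribMulAction G ↥B]
    (hc : ∀ (g : G) (x : ↥B), ((g • x : ↥B) : A) = g • (x : A))
    (hs₂ : ∀ g : G, Semi K (ac g : A₂ ≃+ A₂))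
    (π : A →ₗ[K] A₂) (hπ : LinearMap.ker π = B) (heq : ∀ (g : G) (a : A), π (g • a) = g • π a)
    (g : G) (h : BadEl K A g) : BadEl K ↥B g ∨ BadEl K A₂ g := by
  obtain ⟨W, hW0, hWf, hWs⟩ := h
  by_cases h0 : W ⊓ B = ⊥
  · right
    refine ⟨W.map π, ?_, inferInstance, ?_⟩
    · intro hm
      apply hW0
      have hle : W ≤ B := by
        intro x hx
        rw [← hπ, LinearMap.mem_ker]
        have : π x ∈ W.map π := Submodule.mem_map_of_mem hx
        rw [hm, Submodule.mem_bot] at this
        exact this
      rw [← h0, inf_eq_left.mpr hle]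
    · intro y
      constructor
      · rintro ⟨w, hw, hwy⟩
        refine ⟨g⁻¹ • w, ?_, ?_⟩
        · have := (hWs (g⁻¹ • w))
          apply this.mp
          show g • g⁻¹ • w ∈ W
          rw [smul_inv_smul]
          exact hw
        · rw [heq, hwy]
          show g⁻¹ • g • y = y
          rw [inv_smul_smul]
      · rintro ⟨w, hw, rfl⟩
        refine ⟨g • w, (hWs w).mpr hw, ?_⟩
        rw [heq]
        rfl
  · left
    refine ⟨W.comap B.subtype, ?_, ?_, ?_⟩
    · intro hm
      apply h0
      rw [eq_bot_iff]
      rintro x ⟨hxW, hxB⟩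
      have h1 : (⟨x, hxB⟩ : ↥B) ∈ W.comap B.subtype := hxW
      rw [hm, Submodule.mem_bot] at h1
      have := congrArg (fun z : ↥B => (z : A)) h1
      simpa using this
    · let f : ↥(W.comap B.subtype) →ₗ[K] ↥W :=
        LinearMap.codRestrict W (B.subtype.comp (W.comap B.subtype).subtype) (fun x => x.2)
      have hf : Function.Injective f := by
        intro x y hxy
        have := congrArg (fun z : ↥W => (z : A)) hxy
        exact Subtype.ext (Subtype.ext this)
      exact Module.Finite.of_injective f hf
    · intro x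
      show ((g • x : ↥B) : A) ∈ W ↔ (x : A) ∈ W
      rw [hc]
      exact hWs (x : A)

end Pool.Agent.Helper294.HallG
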