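import Pool.Agent.Helper294.HallG.Defs
import Pool.Agent.Helper294.HallM.ClField
import Pool.Agent.Helper294.HallM.ClMem
import Pool.Agent.Helper294.HallM.ClSurj
import Pool.Agent.Helper294.HallM.ClDim
import Pool.Agent.Helper294.HallM.ClFd
import Pool.Agent.Helper294.HallM.ClGroup
import Pool.Agent.Helper294.HallM.ClAct
import Pool.Agent.Helper294.HallM.ClSys

set_option autoImplicit false

namespace Pool.Agent.Helper294.HallG

open Module Pool.Agent.Helper946.HC Pool.Agent.Helper946.S4 Pool.Agent.Helper294.HallM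


theorem cliff2_range_le {R A : Type} [Ring R] [AddCommGroup A] [Module R A] (U : Submodule R A)
    (hU : IsSimpleModule R ↥U) (h : ↥U →ₗ[R] A) : LinearMap.range h ≤ isotypicComponent R A ↥U := by
  rcases LinearMap.injective_or_eq_zero h with hi | h0
  · apply le_sSup
    exact ⟨(LinearEquiv.ofInjective h hi).symm⟩
  · rw [h0, LinearMap.range_zero]
    exact bot_le

/-- an `R`-submodule as a `K`-subspace -/
def cliff2_res {K R A : Type} [DivisionRing K] [Ring R] [AddCommGroup A] [Module K A] [Module R A]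
    (κ : K →+* R) (hκ : ∀ (k : K) (a : A), k • a = κ k • a) (V : Submodule R A) :
    Submodule K A where
  carrier := {x | x ∈ V}
  zero_mem' := V.zero_mem
  add_mem' := fun ha hb => V.add_mem ha hb
  smul_mem' := by
    intro k x hx
    show k • x ∈ V
    rw [hκ]
    exact V.smul_mem _ hx

/-- the preimage under a group element -/
def cliff2_pre {R G A : Type} [Ring R] [Group G] [AddCommGroup A] [Module R A]
    [DistribMulAction G A]
    (hnorm : ∀ (g : G) (r : R), ∃ r' : R, ∀ a : A, g • (r • a) = r' • (g • a)) (g : G)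
    (V : Submodule R A) : Submodule R A where
  carrier := {x | g • x ∈ V}
  zero_mem' := by
    show g • (0 : A) ∈ V
    rw [smul_zero]
    exact V.zero_mem
  add_mem' := by
    intro a b ha hb
    show g • (a + b) ∈ V
    rw [smul_add]
    exact V.add_mem ha hb
  smul_mem' := by
    intro r x hx
    show g • (r • x) ∈ V
    obtain ⟨r', hr'⟩ := hnorm g r
    rw [hr']
    exact V.smul_mem _ hx

/-- the Clifford step, ring form. -/
theorem cliff2 {K R G A Q' : Type} [DivisionRing K] [Ring R] [Group G]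
    [AddCommGroup A] [Module K A] [Module R A] [DistribMulAction G A] [Group Q']
    (hs : ∀ g : G, Semi K (ac g : A ≃+ A))
    (κ : K →+* R) (hκ : ∀ (k : K) (a : A), k • a = κ k • a)
    (hnorm : ∀ (g : G) (r : R), ∃ r' : R, ∀ a : A, g • (r • a) = r' • (g • a))
    (U : Submodule R A) (hU : IsSimpleModule R ↥U) (U₀ : Submodule K A)
    (hU₀ : ∀ x, x ∈ U₀ ↔ x ∈ U) (hfd : FiniteDimensional K U₀)
    (hex : ∀ g : G, ∃ α : ↥U ≃+ ↥U, Cpt U g α)
    (ρ' : G →* Q') (hidx : ρ'.range.index ≠ 0)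
    (hker : ∀ g, ρ' g = 1 → ∃ r : R, ∀ a : A, g • a = r • a)
    (S : Finset A) (hSM : ∀ s ∈ S, s ∈ isotypicComponent R A ↥U)
    (hspan : ∀ x ∈ isotypicComponent R A ↥U,
      x ∈ Submodule.span K {y : A | ∃ g : G, ∃ s ∈ S, y = g • s})
    (hfree : ∀ W : Submodule K A, (∀ x ∈ W, x ∈ isotypicComponent R A ↥U) →
      FiniteDimensional K W → St (⊤ : Subgroup G) W → W = ⊥) :
    ∃ T : Set Q', WBadSet Q' T ∧ ∀ (g : G) (W : Submodule K A),
      (∀ x ∈ W, x ∈ isotypicComponent R A ↥U) → FiniteDimensional K W → Stable (ac g) W →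
      W ≠ ⊥ → (∀ (r : R), ∀ x ∈ W, r • x ∈ W) → ρ' g ∈ T := by
  obtain ⟨K₂, instD, instM, e, he⟩ := cl_field U hU
  obtain ⟨G', instG, p, q, hq, hc, hall⟩ := cl_group hnorm U
  obtain ⟨instA, hact⟩ := cl_act hnorm U p q hq hc
  have hp : Function.Surjective p := by
    intro g
    obtain ⟨α, hα⟩ := hex g
    obtain ⟨γ, h, _⟩ := hall g α hα
    exact ⟨γ, h⟩
  have hsys := cl_sys κ hκ hnorm U hU p q hq hc hp hact e he ρ' hker S hSM hspan
  have hrange : (ρ'.comp p).range = ρ'.range := by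
    ext y
    constructor
    · rintro ⟨γ, rfl⟩
      exact ⟨p γ, rfl⟩
    · rintro ⟨g, rfl⟩
      obtain ⟨γ, rfl⟩ := hp g
      exact ⟨γ, rfl⟩
  have hval : ∀ (γ : G') (f : ↥U →ₗ[R] A) (y : ↥U), (γ • f) (q γ y) = p γ • f y := by
    intro γ f y
    rw [hact, AddEquiv.symm_apply_apply]
  have hFre : Fre K₂ G' (↥U →ₗ[R] A) := by
    intro T₁ hfd₁ hst
    obtain ⟨hWfd, _⟩ := cl_dim κ hκ U hU U₀ hU₀ hfd e he T₁ hfd₁
      (cliff2_res κ hκ (⨆ h ∈ T₁, LinearMap.range h)) (fun x => Iff.rfl)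
    have hWbot := hfree (cliff2_res κ hκ (⨆ h ∈ T₁, LinearMap.range h)) (by
      intro x hx
      have hx' : x ∈ ⨆ h ∈ T₁, LinearMap.range h := hx
      have hle : (⨆ h ∈ T₁, LinearMap.range h) ≤ isotypicComponent R A ↥U :=
        iSup₂_le fun h _ => cliff2_range_le U hU h
      exact hle hx') hWfd (by
      intro g _ x hx
      have hx' : x ∈ ⨆ h ∈ T₁, LinearMap.range h := hx
      show g • x ∈ ⨆ h ∈ T₁, LinearMap.range h
      have hle : (⨆ h ∈ T₁, LinearMap.range h) ≤
          cliff2_pre hnorm g (⨆ h ∈ T₁, LinearMap.range h) := by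
        apply iSup₂_le
        rintro h hh _ ⟨u, rfl⟩
        obtain ⟨γ, rfl⟩ := hp g
        show p γ • h u ∈ ⨆ h ∈ T₁, LinearMap.range h
        rw [← hval γ h u]
        have hm : γ • h ∈ T₁ := hst γ (Subgroup.mem_top γ) h hh
        have hle2 : LinearMap.range (γ • h) ≤ ⨆ h ∈ T₁, LinearMap.range h :=
          le_iSup₂_of_le (γ • h) hm le_rfl
        exact hle2 ⟨_, rfl⟩
      exact hle hx')
    rw [Submodule.eq_bot_iff]
    intro f hf
    ext x
    have hm : f x ∈ cliff2_res κ hκ (⨆ h ∈ T₁, LinearMap.range h) := by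
      show f x ∈ ⨆ h ∈ T₁, LinearMap.range h
      have hle2 : LinearMap.range f ≤ ⨆ h ∈ T₁, LinearMap.range h :=
        le_iSup₂_of_le f hf le_rfl
      exact hle2 ⟨_, rfl⟩
    rw [hWbot] at hm
    exact (Submodule.mem_bot K).mp hm
  refine ⟨WB K₂ (↥U →ₗ[R] A) (ρ'.comp p), ⟨K₂, G', ↥U →ₗ[R] A, instD, instG, inferInstance, instM,
    instA, ρ'.comp p, hsys, by rw [hrange]; exact hidx, hFre, rfl⟩, ?_⟩
  intro g W hWi hWfd hWst hWne hWR
  obtain ⟨W', hW'⟩ : ∃ W' : Submodule R A, ∀ x, x ∈ W ↔ x ∈ W' :=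
    ⟨{ carrier := {x | x ∈ W}
       zero_mem' := W.zero_mem
       add_mem' := fun ha hb => W.add_mem ha hb
       smul_mem' := fun r x hx => hWR r x hx }, fun x => Iff.rfl⟩
  obtain ⟨T₁, hT₁⟩ : ∃ T₁ : Submodule K₂ (↥U →ₗ[R] A), ∀ f, f ∈ T₁ ↔ ∀ x, f x ∈ W' :=
    ⟨{ carrier := {f | ∀ x, f x ∈ W'}
       zero_mem' := fun x => W'.zero_mem
       add_mem' := fun ha hb x => W'.add_mem (ha x) (hb x)
       smul_mem' := by
        intro k f hf x
        rw [he]
        exact hf _ }, fun f => Iff.rfl⟩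
  have hfdT := cl_fd κ hκ U hU e he W' W hW' hWfd T₁ hT₁
  have hTne : T₁ ≠ ⊥ := by
    intro hbot
    apply hWne
    have hs2 := cl_surj U hU W' (fun x hx => hWi x ((hW' x).mpr hx))
    have hW0 : W' ≤ ⊥ := by
      rw [hs2]
      apply iSup₂_le
      intro h hh
      have hm : h ∈ T₁ := by
        rw [hT₁]
        intro x
        have : LinearMap.range h ≤ W' := hh
        exact this ⟨x, rfl⟩
      rw [hbot] at hm
      have h0 : h = 0 := (Submodule.mem_bot K₂).mp hm
      rw [h0, LinearMap.range_zero]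
    rw [Submodule.eq_bot_iff]
    intro x hx
    exact (Submodule.mem_bot R).mp (hW0 ((hW' x).mp hx))
  obtain ⟨γ, rfl⟩ := hp g
  refine ⟨1, one_pos, 1, γ, ?_, T₁, hTne, hfdT, ?_⟩
  · simp
  · intro f
    show γ • f ∈ T₁ ↔ f ∈ T₁
    rw [hT₁, hT₁]
    constructor
    · intro h y
      have h1 := h (q γ y)
      rw [hval, ← hW'] at h1
      have h2 : f y ∈ W := (hWst (f y)).mp h1
      exact (hW' _).mp h2
    · intro h x
      rw [hact, ← hW']
      have h2 : f ((q γ).symm x) ∈ W := (hW' _).mpr (h _)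
      exact (hWst _).mpr h2

end Pool.Agent.Helper294.HallG
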