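import Pool.Agent.Helper294.HallM.Defs
import Pool.Agent.Helper294.HX.HCTr

set_option autoImplicit false

namespace Pool.Agent.Helper294.HallG

open Module Pool.Agent.Helper946.HC Pool.Agent.Helper946.S4 Pool.Agent.Helper294.HallM

/-- no nonzero finite dimensional stable subspace. -/
def Fre (K G A : Type) [DivisionRing K] [Group G] [AddCommGroup A] [Module K A]
    [DistribMulAction G A] : Prop :=
  ∀ W : Submodule K A, FiniteDimensional K W → St (⊤ : Subgroup G) W → W = ⊥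

/-- `g` stabilises a nonzero finite dimensional subspace. -/
def BadEl (K A : Type) {G : Type} [DivisionRing K] [Group G] [AddCommGroup A] [Module K A]
    [DistribMulAction G A] (g : G) : Prop :=
  ∃ W : Submodule K A, W ≠ ⊥ ∧ FiniteDimensional K W ∧ Stable (ac g : A ≃+ A) W

/-- the elements of `Q` a conjugate of a positive power of which lifts to a bad element. -/
def WB (K A : Type) {G Q : Type} [DivisionRing K] [Group G] [AddCommGroup A] [Module K A]
    [DistribMulAction G A] [Group Q] (ρ : G →* Q) : Set Q :=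
  {y | ∃ n : ℕ, 0 < n ∧ ∃ (q : Q) (g : G), ρ g = q⁻¹ * y ^ n * q ∧ BadEl K A g}

/-- the bad sets of free systems with `ρ.range` of finite index. -/
def WBadSet (Q : Type) [Group Q] (S : Set Q) : Prop :=
  ∃ (K G A : Type) (_ : DivisionRing K) (_ : Group G) (_ : AddCommGroup A) (_ : Module K A)
    (_ : DistribMulAction G A) (ρ : G →* Q), Sys K G A Q ρ ∧ ρ.range.index ≠ 0 ∧ Fre K G A ∧
    S = WB K A ρ

/-- the bad sets of free systems with surjective `ρ`. -/
def SBadSet (Q : Type) [Group Q] (S : Set Q) : Prop :=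
  ∃ (K G A : Type) (_ : DivisionRing K) (_ : Group G) (_ : AddCommGroup A) (_ : Module K A)
    (_ : DistribMulAction G A) (ρ : G →* Q), Sys K G A Q ρ ∧ Function.Surjective ρ ∧
    Fre K G A ∧ S = {y | ∃ g : G, ρ g = y ∧ BadEl K A g}

/-- finitely many bad sets (of surjective systems) do not cover `Q`. -/
def GenFor (Q : Type) [Group Q] : Prop :=
  ∀ F : Set (Set Q), F.Finite → (∀ S ∈ F, SBadSet Q S) → ∃ y : Q, ∀ S ∈ F, y ∉ S

/-- finitely many bad sets do not cover `Q`. -/
def GenW (Q : Type) [Group Q] : Prop :=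
  ∀ F : Set (Set Q), F.Finite → (∀ S ∈ F, WBadSet Q S) → ∃ y : Q, ∀ S ∈ F, y ∉ S

/-- `v` and `w` are congruent modulo `(M_y - 1) ℤ^r`, `M_y` the conjugation by `y`. -/
def Cg {Q : Type} [Group Q] {r : ℕ} (ε : Multiplicative (Fin r → ℤ) →* Q) (y : Q)
    (v w : Fin r → ℤ) : Prop :=
  ∃ p : Fin r → ℤ, ε (Multiplicative.ofAdd (v - w)) =
    y * ε (Multiplicative.ofAdd p) * y⁻¹ * (ε (Multiplicative.ofAdd p))⁻¹

/-- if the class of `y` avoids the sets in `F` then at most `d` pairwise incongruent elements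
`ε v * y` lift to bad elements. -/
def UB (K A : Type) {G Q : Type} [DivisionRing K] [Group G] [AddCommGroup A] [Module K A]
    [DistribMulAction G A] [Group Q] (ρ : G →* Q) {r : ℕ} (ε : Multiplicative (Fin r → ℤ) →* Q)
    (F : Set (Set (Q ⧸ ε.range))) (d : ℕ) : Prop :=
  ∀ y : Q, (∀ S ∈ F, (QuotientGroup.mk y : Q ⧸ ε.range) ∉ S) → ∀ s : Finset (Fin r → ℤ),
    (∀ v ∈ s, ∀ w ∈ s, v ≠ w → ¬ Cg ε y v w) →
    (∀ v ∈ s, ∃ g : G, ρ g = ε (Multiplicative.ofAdd v) * y ∧ BadEl K A g) → s.card ≤ d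

/-- an injective common eigenfunctional, and everything acts trivially modulo 3. -/
def PE {Q : Type} [Group Q] {r : ℕ} (ε : Multiplicative (Fin r → ℤ) →* Q) : Prop :=
  (∃ π : (Fin r → ℤ) →+ ℂ, Function.Injective π ∧ ∀ q : Q, ∃ lam : ℂ, ∀ v w : Fin r → ℤ,
    q * ε (Multiplicative.ofAdd v) * q⁻¹ = ε (Multiplicative.ofAdd w) → π w = lam * π v) ∧
  ∀ (q : Q) (v w : Fin r → ℤ),
    q * ε (Multiplicative.ofAdd v) * q⁻¹ = ε (Multiplicative.ofAdd w) → ∃ u, w = v + 3 • u

/-- the annihilator of `P`, a subspace of the real vector space of characters. -/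
def ann {r : ℕ} (P : AddSubgroup (Fin r → ℤ)) : Submodule ℝ ((Fin r → ℤ) →+ ℝ) where
  carrier := {φ | ∀ v ∈ P, φ v = 0}
  zero_mem' := fun _ _ => rfl
  add_mem' := by
    intro a b ha hb v hv
    rw [AddMonoidHom.add_apply, ha v hv, hb v hv, add_zero]
  smul_mem' := by
    intro c a ha v hv
    show c • a v = 0
    rw [ha v hv, smul_zero]

/-- the bad characters of `a` are covered by finitely many rational subspaces of dimension
at most `k`. -/
def Cv (K : Type) {G A Q : Type} [DivisionRing K] [Group G] [AddCommGroup A] [Module K A]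
    [DistribMulAction G A] [Group Q] (ρ : G →* Q) {r : ℕ} (ε : Multiplicative (Fin r → ℤ) →* Q)
    (k : ℕ) (a : A) : Prop :=
  ∃ F : Finset (Submodule ℝ ((Fin r → ℤ) →+ ℝ)),
    (∀ U ∈ F, (∃ P : AddSubgroup (Fin r → ℤ), U = ann P) ∧ finrank ℝ U ≤ k) ∧
    ∀ φ : (Fin r → ℤ) →+ ℝ, φ ≠ 0 → ¬ GoodE K ρ ε φ a → ∃ U ∈ F, φ ∈ U

end Pool.Agent.Helper294.HallG
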