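import Pool.Agent.Helper294.HallG.Defs

set_option autoImplicit false

namespace Pool.Agent.Helper294.HallG

open Module Pool.Agent.Helper946.HC Pool.Agent.Helper946.S4 Pool.Agent.Helper294.HallM


theorem vce_a_common {ι V : Type} [AddCommGroup V] [Module ℂ V] [FiniteDimensional ℂ V]
    [Nontrivial V] (f : ι → Module.End ℂ V) (hcomm : ∀ i j, f i * f j = f j * f i) :
    ∃ χ : ι → ℂ, (⨅ i, (f i).eigenspace (χ i)) ≠ ⊥ := by
  obtain ⟨U, ⟨hU0, hUs⟩, hmin⟩ := (wellFounded_lt (α := Submodule ℂ V)).has_min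
    {U | U ≠ ⊥ ∧ ∀ i, ∀ v ∈ U, f i v ∈ U} ⟨⊤, top_ne_bot, fun _ _ _ => Submodule.mem_top⟩
  have key : ∀ i, ∃ μ : ℂ, U ≤ (f i).eigenspace μ := by
    intro i
    haveI : Nontrivial U := (Submodule.nontrivial_iff_ne_bot).2 hU0
    obtain ⟨μ, hμ⟩ := Module.End.exists_eigenvalue ((f i).restrict (hUs i))
    obtain ⟨v, hv⟩ := hμ.exists_hasEigenvector
    have hv1 : (f i).restrict (hUs i) v = μ • v := hv.apply_eq_smul
    have hv2 : f i (v : V) = μ • (v : V) := by
      have := congrArg (Subtype.val) hv1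
      simpa using this
    have hv0 : (v : V) ≠ 0 := by
      intro h
      exact hv.2 (Subtype.ext h)
    refine ⟨μ, ?_⟩
    have hP : (U ⊓ (f i).eigenspace μ) ∈ {U : Submodule ℂ V | U ≠ ⊥ ∧ ∀ i, ∀ v ∈ U, f i v ∈ U} := by
      refine ⟨?_, ?_⟩
      · intro h
        have : (v : V) ∈ U ⊓ (f i).eigenspace μ := ⟨v.2, Module.End.mem_eigenspace_iff.2 hv2⟩
        rw [h, Submodule.mem_bot] at this
        exact hv0 this
      · intro j w hw
        refine ⟨hUs j w hw.1, ?_⟩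
        have h1 : f i w = μ • w := Module.End.mem_eigenspace_iff.1 hw.2
        refine Module.End.mem_eigenspace_iff.2 ?_
        have h2 : f i (f j w) = f j (f i w) := by
          have := congrArg (fun g : Module.End ℂ V => g w) (hcomm i j)
          simpa using this
        rw [h2, h1, map_smul]
    have hnot := hmin _ hP
    have hle : U ⊓ (f i).eigenspace μ ≤ U := inf_le_left
    have heq : U ⊓ (f i).eigenspace μ = U := by
      by_contra hne
      exact hnot (lt_of_le_of_ne hle hne)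
    exact inf_eq_left.1 heq
  choose χ hχ using key
  refine ⟨χ, ?_⟩
  intro h
  apply hU0
  rw [eq_bot_iff, ← h]
  exact le_iInf hχ

/-- conjugation action on functions on a normal subgroup -/
noncomputable def vce_a_act {Γ : Type} [Group Γ] (C : Subgroup Γ) [C.Normal] :
    MulAction Γ (↥C → ℂ) where
  smul g χ := fun x => χ (MulAut.conjNormal g⁻¹ x)
  one_smul χ := by
    funext x
    change χ (MulAut.conjNormal (1 : Γ)⁻¹ x) = χ x
    simp
  mul_smul g h χ := by
    funext x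
    change χ (MulAut.conjNormal (g * h)⁻¹ x) =
      χ (MulAut.conjNormal h⁻¹ (MulAut.conjNormal g⁻¹ x))
    rw [mul_inv_rev, map_mul]
    rfl

theorem vce_a {Γ V : Type} [Group Γ] [AddCommGroup V] [Module ℂ V] [FiniteDimensional ℂ V]
    (ρ : Γ →* Module.End ℂ V) (C : Subgroup Γ) (hC : C.Normal)
    (hcomm : ∀ x ∈ C, ∀ y ∈ C, ρ x * ρ y = ρ y * ρ x) (x₀ : Γ) (hx₀ : x₀ ∈ C)
    (hns : ¬ ∃ c : ℂ, ρ x₀ = c • 1) :
    ∃ (H : Subgroup Γ) (W : Submodule ℂ V), H.index ≠ 0 ∧ W ≠ ⊥ ∧ W ≠ ⊤ ∧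
      ∀ g ∈ H, ∀ v ∈ W, ρ g v ∈ W := by
  haveI : C.Normal := hC
  haveI : Nontrivial V := by
    by_contra h
    rw [not_nontrivial_iff_subsingleton] at h
    exact hns ⟨0, LinearMap.ext fun v => Subsingleton.elim _ _⟩
  let f : ↥C → Module.End ℂ V := fun x => ρ (x : Γ)
  have hf : ∀ i j, f i * f j = f j * f i := fun i j => hcomm _ i.2 _ j.2
  obtain ⟨χ, hχ⟩ := vce_a_common f hf
  let E : (↥C → ℂ) → Submodule ℂ V := fun χ => ⨅ i, (f i).eigenspace (χ i)
  have hmem : ∀ (χ : ↥C → ℂ) (v : V), v ∈ E χ ↔ ∀ x : ↥C, ρ (x : Γ) v = χ x • v := by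
    intro χ v
    simp only [E, f, Submodule.mem_iInf, Module.End.mem_eigenspace_iff]
  have hind : iSupIndep E := by
    have h1 : iSupIndep fun χ : ↥C → ℂ => ⨅ i, (f i).maxGenEigenspace (χ i) := by
      refine Module.End.independent_iInf_maxGenEigenspace_of_forall_mapsTo f ?_
      intro i j φ
      exact Module.End.mapsTo_maxGenEigenspace_of_comm (hf j i) φ
    refine h1.mono fun χ => iInf_mono fun i => ?_
    intro v hv
    rw [Module.End.mem_maxGenEigenspace]
    refine ⟨1, ?_⟩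
    rw [Module.End.mem_eigenspace_iff] at hv
    simp [hv]
  have hfin : {χ | E χ ≠ ⊥}.Finite := WellFoundedGT.finite_ne_bot_of_iSupIndep hind
  letI act : MulAction Γ (↥C → ℂ) := vce_a_act C
  have hact : ∀ (g : Γ) (χ : ↥C → ℂ) (x : ↥C), (g • χ) x = χ (MulAut.conjNormal g⁻¹ x) :=
    fun g χ x => rfl
  have hmove : ∀ (g : Γ) (χ : ↥C → ℂ) (v : V), v ∈ E χ → ρ g v ∈ E (g • χ) := by
    intro g χ v hv
    rw [hmem] at hv ⊢
    intro x
    rw [hact]
    have h1 := hv (MulAut.conjNormal g⁻¹ x)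
    have h2 : ((MulAut.conjNormal g⁻¹ x : ↥C) : Γ) = g⁻¹ * x * g := by
      rw [MulAut.conjNormal_apply]; simp
    rw [h2] at h1
    have h3 : ρ (x : Γ) (ρ g v) = ρ g (ρ (g⁻¹ * x * g) v) := by
      rw [← Module.End.mul_apply, ← Module.End.mul_apply, ← map_mul, ← map_mul]
      congr 2
      group
    rw [h3, h1, map_smul]
  refine ⟨MulAction.stabilizer Γ χ, E χ, ?_, hχ, ?_, ?_⟩
  · rw [MulAction.index_stabilizer]
    have hsub : MulAction.orbit Γ χ ⊆ {χ | E χ ≠ ⊥} := by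
      rintro _ ⟨g, rfl⟩
      change E (g • χ) ≠ ⊥
      obtain ⟨v, hv, hv0⟩ := (Submodule.ne_bot_iff _).1 hχ
      refine (Submodule.ne_bot_iff _).2 ⟨ρ g v, hmove g χ v hv, ?_⟩
      intro h0
      apply hv0
      have : ρ g⁻¹ (ρ g v) = v := by
        rw [← Module.End.mul_apply, ← map_mul, inv_mul_cancel, map_one]
        rfl
      rw [← this, h0, map_zero]
    have hne : (MulAction.orbit Γ χ).Nonempty := MulAction.nonempty_orbit χ
    exact (Set.ncard_pos (hfin.subset hsub)).2 hne |>.ne'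
  · intro htop
    apply hns
    refine ⟨χ ⟨x₀, hx₀⟩, LinearMap.ext fun v => ?_⟩
    have : v ∈ E χ := by rw [htop]; trivial
    exact (hmem χ v).1 this ⟨x₀, hx₀⟩
  · intro g hg v hv
    have := hmove g χ v hv
    rwa [MulAction.mem_stabilizer_iff.1 hg] at this

end Pool.Agent.Helper294.HallG
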