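import Pool.Agent.Helper294.HallG.Defs

set_option autoImplicit false

namespace Pool.Agent.Helper294.HallG

open Module Pool.Agent.Helper946.HC Pool.Agent.Helper946.S4 Pool.Agent.Helper294.HallM


theorem vce_b_comm {Γ V : Type} [Group Γ] [AddCommGroup V] [Module ℂ V]
    (ρ : Γ →* Module.End ℂ V) (X : Set Γ) (u : Γ) (h : ∀ y ∈ X, ρ u * ρ y = ρ y * ρ u) :
    ∀ y ∈ Subgroup.closure X, ρ u * ρ y = ρ y * ρ u := by
  intro y hy
  induction hy using Subgroup.closure_induction with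
  | mem x hx => exact h x hx
  | one => rw [map_one, one_mul, mul_one]
  | mul x z _ _ hx hz => rw [map_mul, ← mul_assoc, hx, mul_assoc, hz, mul_assoc]
  | inv x _ hx =>
    have h1 : ρ x⁻¹ * ρ x = 1 := by rw [← map_mul, inv_mul_cancel, map_one]
    have h2 : ρ x * ρ x⁻¹ = 1 := by rw [← map_mul, mul_inv_cancel, map_one]
    calc ρ u * ρ x⁻¹ = (ρ x⁻¹ * ρ x) * (ρ u * ρ x⁻¹) := by rw [h1, one_mul]
      _ = ρ x⁻¹ * (ρ x * ρ u) * ρ x⁻¹ := by simp only [mul_assoc]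
      _ = ρ x⁻¹ * (ρ u * ρ x) * ρ x⁻¹ := by rw [hx]
      _ = ρ x⁻¹ * ρ u * (ρ x * ρ x⁻¹) := by simp only [mul_assoc]
      _ = ρ x⁻¹ * ρ u := by rw [h2, mul_one]

theorem vce_b_det {Γ V : Type} [Group Γ] [AddCommGroup V] [Module ℂ V] [FiniteDimensional ℂ V]
    (ρ : Γ →* Module.End ℂ V) (g : Γ) (c : ℂ) (hg : LinearMap.det (ρ g) = 1)
    (h : ρ g = c • 1) : c ^ (Module.finrank ℂ V) = 1 := by
  rw [h, LinearMap.det_smul] at hg
  simpa using hg

theorem vce_b_det1 {Γ V : Type} [Group Γ] [AddCommGroup V] [Module ℂ V] [FiniteDimensional ℂ V]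
    (ρ : Γ →* Module.End ℂ V) (x z : Γ) : LinearMap.det (ρ (x * z * x⁻¹ * z⁻¹)) = 1 := by
  have h1 : ∀ x : Γ, LinearMap.det (ρ x) * LinearMap.det (ρ x⁻¹) = 1 := by
    intro x
    rw [← map_mul, ← map_mul, mul_inv_cancel, map_one, map_one]
  simp only [map_mul]
  calc LinearMap.det (ρ x) * LinearMap.det (ρ z) * LinearMap.det (ρ x⁻¹) * LinearMap.det (ρ z⁻¹)
      = (LinearMap.det (ρ x) * LinearMap.det (ρ x⁻¹)) *
        (LinearMap.det (ρ z) * LinearMap.det (ρ z⁻¹)) := by ring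
    _ = 1 := by rw [h1, h1, one_mul]

theorem vce_b {Γ V : Type} [Group Γ] [AddCommGroup V] [Module ℂ V] [FiniteDimensional ℂ V]
    [Nontrivial V] (ρ : Γ →* Module.End ℂ V) (D : Subgroup Γ) (hD : D.Normal) (hfg : D.FG)
    (hcom : ∀ x ∈ D, ∀ y ∈ D, ∃ c : ℂ, ρ (x * y * x⁻¹ * y⁻¹) = c • 1)
    (hcen : ∀ x ∈ D, (∀ y ∈ D, ρ x * ρ y = ρ y * ρ x) → ∃ c : ℂ, ρ x = c • 1) :
    ∃ H : Subgroup Γ, H.index ≠ 0 ∧ ∀ g ∈ H, ∀ x ∈ D, ρ g * ρ x = ρ x * ρ g := by
  classical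
  obtain ⟨X, hX⟩ := hfg
  have hn : 0 < finrank ℂ V := Module.finrank_pos
  let R := {z : ℂ // z ^ (finrank ℂ V) = 1}
  haveI hRfin : Finite R := by
    have hf : ({z : ℂ | z ^ (finrank ℂ V) = 1}).Finite := by
      refine ((Polynomial.nthRootsFinset (finrank ℂ V) (1 : ℂ)).finite_toSet).subset ?_
      intro z hz
      rw [Finset.mem_coe, Polynomial.mem_nthRootsFinset hn]
      exact hz
    exact hf.to_subtype
  have hXD : ∀ y ∈ X, y ∈ D := fun y hy => hX ▸ Subgroup.subset_closure hy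
  have hri : ∀ x : Γ, ρ x * ρ x⁻¹ = 1 := fun x => by rw [← map_mul, mul_inv_cancel, map_one]
  have hli : ∀ x : Γ, ρ x⁻¹ * ρ x = 1 := fun x => by rw [← map_mul, inv_mul_cancel, map_one]
  have hc0 : ∀ x z : Γ, ∃ r : R, x ∈ D → z ∈ D → ρ (x * z * x⁻¹ * z⁻¹) = (r : ℂ) • 1 := by
    intro x z
    by_cases h : x ∈ D ∧ z ∈ D
    · obtain ⟨c, hc⟩ := hcom x h.1 z h.2
      exact ⟨⟨c, vce_b_det ρ _ c (vce_b_det1 ρ x z) hc⟩, fun _ _ => hc⟩
    · exact ⟨⟨1, one_pow _⟩, fun h1 h2 => absurd ⟨h1, h2⟩ h⟩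
  choose c hc using hc0
  have hc' : ∀ x ∈ D, ∀ z ∈ D, ρ x * ρ z = (c x z : ℂ) • (ρ z * ρ x) := by
    intro x hx z hz
    have h1 : x * z = (x * z * x⁻¹ * z⁻¹) * (z * x) := by group
    rw [← map_mul, ← map_mul]
    conv_lhs => rw [h1]
    rw [map_mul, hc x z hx hz, smul_mul_assoc, one_mul]
  have hb : ∀ x ∈ D, ∀ x' ∈ D, (∀ z ∈ X, c x z = c x' z) → ∃ l : ℂ, ρ x = l • ρ x' := by
    intro x hx x' hx' h
    have hcomm : ∀ z ∈ (X : Set Γ), ρ (x'⁻¹ * x) * ρ z = ρ z * ρ (x'⁻¹ * x) := by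
      intro z hz
      have h1 := hc' x hx z (hXD z hz)
      have h2 := hc' x' hx' z (hXD z hz)
      rw [h z hz] at h1
      have h3 : ρ z * ρ x'⁻¹ = (c x' z : ℂ) • (ρ x'⁻¹ * ρ z) := by
        calc ρ z * ρ x'⁻¹ = ρ x'⁻¹ * (ρ x' * ρ z) * ρ x'⁻¹ := by
              rw [← mul_assoc, hli, one_mul]
          _ = (c x' z : ℂ) • (ρ x'⁻¹ * ρ z) := by
              rw [h2, mul_smul_comm, smul_mul_assoc, mul_assoc, mul_assoc, hri, mul_one]
      rw [map_mul, mul_assoc, h1, mul_smul_comm, ← mul_assoc, ← smul_mul_assoc, ← h3, mul_assoc]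
    have hu : x'⁻¹ * x ∈ D := D.mul_mem (D.inv_mem hx') hx
    obtain ⟨l, hl⟩ := hcen _ hu (by
      have h1 := vce_b_comm ρ (X : Set Γ) _ hcomm
      rw [hX] at h1
      exact h1)
    refine ⟨l, ?_⟩
    have h2 : x = x' * (x'⁻¹ * x) := by group
    conv_lhs => rw [h2]
    rw [map_mul, hl, mul_smul_comm, mul_one]
  let Φ1 : Γ → (X → X → R) := fun g y z => c (g * y * g⁻¹) z
  have hlam0 : ∀ g g' : Γ, Φ1 g = Φ1 g' → ∀ y : X, ∃ r : R,
      ρ (g * y * g⁻¹) = (r : ℂ) • ρ (g' * y * g'⁻¹) := by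
    intro g g' hgg y
    have hy := hXD y y.2
    have h1 := hb (g * y * g⁻¹) (hD.conj_mem _ hy g) (g' * y * g'⁻¹) (hD.conj_mem _ hy g') (by
      intro z hz
      exact congrFun (congrFun hgg y) ⟨z, hz⟩)
    obtain ⟨l, hl⟩ := h1
    refine ⟨⟨l, ?_⟩, hl⟩
    have hdg : ∀ g : Γ, LinearMap.det (ρ (g * y * g⁻¹)) = LinearMap.det (ρ (y : Γ)) := by
      intro g
      have h2 : LinearMap.det (ρ g) * LinearMap.det (ρ g⁻¹) = 1 := by
        rw [← map_mul, hri, map_one]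
      simp only [map_mul]
      calc LinearMap.det (ρ g) * LinearMap.det (ρ (y : Γ)) * LinearMap.det (ρ g⁻¹)
          = (LinearMap.det (ρ g) * LinearMap.det (ρ g⁻¹)) * LinearMap.det (ρ (y : Γ)) := by ring
        _ = LinearMap.det (ρ (y : Γ)) := by rw [h2, one_mul]
    have hne : LinearMap.det (ρ (y : Γ)) ≠ 0 := by
      intro h0
      have h2 : LinearMap.det (ρ (y : Γ)) * LinearMap.det (ρ (y : Γ)⁻¹) = 1 := by
        rw [← map_mul, hri, map_one]
      rw [h0, zero_mul] at h2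
      exact zero_ne_one h2
    have h3 := congrArg LinearMap.det hl
    rw [LinearMap.det_smul, hdg, hdg] at h3
    exact mul_right_cancel₀ hne (by rw [one_mul]; exact h3.symm)
  have hlam1 : ∀ (g : Γ) (y : X), ∃ r : R, ρ (g * y * g⁻¹) =
      (r : ℂ) • ρ (Function.invFun Φ1 (Φ1 g) * y * (Function.invFun Φ1 (Φ1 g))⁻¹) := by
    intro g y
    exact hlam0 g _ (Function.invFun_eq ⟨g, rfl⟩).symm y
  choose lam hlam using hlam1
  let Φ : Γ → (X → X → R) × (X → R) := fun g => (Φ1 g, lam g)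
  let H : Subgroup Γ :=
    { carrier := {g | ∀ x ∈ D, ρ g * ρ x = ρ x * ρ g}
      mul_mem' := by
        intro a b ha hb x hx
        rw [map_mul, mul_assoc, hb x hx, ← mul_assoc, ha x hx, mul_assoc]
      one_mem' := by
        intro x hx
        rw [map_one, one_mul, mul_one]
      inv_mem' := by
        intro a ha x hx
        have h1 := vce_b_comm ρ {a} x (by
          intro y hy
          rw [Set.mem_singleton_iff.1 hy]
          exact (ha x hx).symm) a⁻¹ (Subgroup.inv_mem _ (Subgroup.mem_closure_singleton_self a))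
        exact h1.symm }
  refine ⟨H, ?_, fun g hg => hg⟩
  have hkey : ∀ g g', Φ g = Φ g' → g⁻¹ * g' ∈ H := by
    intro g g' hgg
    have h1 : Φ1 g = Φ1 g' := (Prod.ext_iff.1 hgg).1
    have h2 : lam g = lam g' := (Prod.ext_iff.1 hgg).2
    have h3 : ∀ y ∈ (X : Set Γ), ρ (g⁻¹ * g') * ρ y = ρ y * ρ (g⁻¹ * g') := by
      intro y hy
      have h4 : ρ (g * y * g⁻¹) = ρ (g' * y * g'⁻¹) := by
        have h5 := hlam g ⟨y, hy⟩
        have h6 := hlam g' ⟨y, hy⟩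
        rw [h1, h2, ← h6] at h5
        exact h5
      have h7 : g⁻¹ * g' * y = g⁻¹ * (g' * y * g'⁻¹) * g' := by group
      have h8 : y * (g⁻¹ * g') = g⁻¹ * (g * y * g⁻¹) * g' := by group
      rw [← map_mul, ← map_mul, h7, h8, map_mul, map_mul, map_mul ρ (g⁻¹ * (g * y * g⁻¹)) g',
        map_mul ρ g⁻¹ (g * y * g⁻¹), h4]
    have h4 := vce_b_comm ρ (X : Set Γ) _ h3
    rw [hX] at h4
    exact h4
  haveI : Finite (Γ ⧸ H) := by
    refine Finite.of_injective (fun q : Γ ⧸ H => Φ (Quotient.out q)) ?_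
    intro q q' hqq
    have h1 := hkey _ _ hqq
    rw [← QuotientGroup.out_eq' q, ← QuotientGroup.out_eq' q']
    exact QuotientGroup.eq.2 h1
  exact Subgroup.index_ne_zero_of_finite

end Pool.Agent.Helper294.HallG
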