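import Pool.Agent.Helper294.HallG.Defs
import Pool.Agent.Helper294.HallG.VceA
import Pool.Agent.Helper294.HallG.VceB

set_option autoImplicit false

namespace Pool.Agent.Helper294.HallG

open Module Pool.Agent.Helper946.HC Pool.Agent.Helper946.S4 Pool.Agent.Helper294.HallM


theorem vce_gen_fg {Γ : Type} [Group Γ] (hfg : ∀ H : Subgroup Γ, H.FG) (K : Subgroup Γ) :
    ∀ H : Subgroup K, H.FG := by
  intro H
  have h := (Subgroup.fg_iff_submonoid_fg _).1 (hfg (H.map K.subtype))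
  rw [Subgroup.fg_iff_submonoid_fg]
  exact Submonoid.FG.map_injective K.subtype K.subtype_injective h

theorem vce_gen_der {Γ : Type} [Group Γ] (K : Subgroup Γ) (s : ℕ) (g : K)
    (hg : g ∈ derivedSeries K s) : (g : Γ) ∈ derivedSeries Γ s :=
  map_derivedSeries_le_derivedSeries K.subtype s ⟨g, hg, rfl⟩

theorem vce_gen_idx {Γ : Type} [Group Γ] (K : Subgroup Γ) (hK : K.index ≠ 0) (H : Subgroup K)
    (hH : H.index ≠ 0) : (H.map K.subtype).index ≠ 0 := by
  rw [Subgroup.index_map_subtype]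
  exact mul_ne_zero hH hK

/-- the subgroup of elements of `D` whose image is central in the image of `D`. -/
def vce_gen_C {Γ V : Type} [Group Γ] [AddCommGroup V] [Module ℂ V]
    (ρ : Γ →* Module.End ℂ V) (D : Subgroup Γ) : Subgroup Γ where
  carrier := {x | x ∈ D ∧ ∀ y ∈ D, ρ (x * y) = ρ (y * x)}
  one_mem' := ⟨D.one_mem, fun y _ => by rw [one_mul, mul_one]⟩
  mul_mem' := by
    rintro a b ⟨ha, ha'⟩ ⟨hb, hb'⟩
    refine ⟨D.mul_mem ha hb, fun y hy => ?_⟩
    have h1 := ha' y hy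
    have h2 := hb' y hy
    rw [map_mul, map_mul] at h1 h2
    rw [map_mul, map_mul, map_mul, map_mul, mul_assoc, h2, ← mul_assoc, h1, mul_assoc]
  inv_mem' := by
    rintro a ⟨ha, ha'⟩
    refine ⟨D.inv_mem ha, fun y hy => ?_⟩
    have h1 := ha' (a⁻¹ * y * a⁻¹) (D.mul_mem (D.mul_mem (D.inv_mem ha) hy) (D.inv_mem ha))
    have e1 : a * (a⁻¹ * y * a⁻¹) = y * a⁻¹ := by group
    have e2 : a⁻¹ * y * a⁻¹ * a = a⁻¹ * y := by group
    rw [e1, e2] at h1
    exact h1.symm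

theorem vce_gen_Cn {Γ V : Type} [Group Γ] [AddCommGroup V] [Module ℂ V]
    (ρ : Γ →* Module.End ℂ V) (D : Subgroup Γ) (hD : D.Normal) : (vce_gen_C ρ D).Normal := by
  constructor
  rintro x ⟨hx, hx'⟩ g
  refine ⟨hD.conj_mem x hx g, fun y hy => ?_⟩
  have hz : g⁻¹ * y * g ∈ D := by
    have := hD.conj_mem y hy g⁻¹
    rwa [inv_inv] at this
  have h1 := hx' _ hz
  have e1 : g * x * g⁻¹ * y = g * (x * (g⁻¹ * y * g)) * g⁻¹ := by group
  have e2 : y * (g * x * g⁻¹) = g * (g⁻¹ * y * g * x) * g⁻¹ := by group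
  rw [e1, e2, map_mul, map_mul, h1, map_mul ρ (g * _) g⁻¹, map_mul ρ g]

theorem vce_gen_s (n : ℕ)
    (ih : ∀ m < n, ∀ (Γ V : Type) [Group Γ] [AddCommGroup V] [Module ℂ V]
    [FiniteDimensional ℂ V] (_ : ∀ H : Subgroup Γ, H.FG) (ρ : Γ →* Module.End ℂ V) (s : ℕ)
    (_ : ∀ g ∈ derivedSeries Γ s, ∃ c : ℂ, ρ g = c • 1) (_ : finrank ℂ V = m) (_ : 0 < m),
    ∃ H : Subgroup Γ, H.index ≠ 0 ∧ ∃ v : V, v ≠ 0 ∧ ∀ g ∈ H, ∃ c : ℂ, ρ g v = c • v) (s : ℕ) :
    ∀ (Γ V : Type) [Group Γ] [AddCommGroup V] [Module ℂ V]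
    [FiniteDimensional ℂ V] (_ : ∀ H : Subgroup Γ, H.FG) (ρ : Γ →* Module.End ℂ V)
    (_ : ∀ g ∈ derivedSeries Γ s, ∃ c : ℂ, ρ g = c • 1) (_ : finrank ℂ V = n) (_ : 0 < n),
    ∃ H : Subgroup Γ, H.index ≠ 0 ∧ ∃ v : V, v ≠ 0 ∧ ∀ g ∈ H, ∃ c : ℂ, ρ g v = c • v := by
  induction s with
  | zero =>
    intro Γ V _ _ _ _ hfg ρ hs hn h0
    have hpos : 0 < finrank ℂ V := by omega
    haveI : Nontrivial V := Module.nontrivial_of_finrank_pos hpos
    obtain ⟨v, hv⟩ := exists_ne (0 : V)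
    refine ⟨⊤, by rw [Subgroup.index_top]; exact one_ne_zero, v, hv, fun g _ => ?_⟩
    obtain ⟨c, hc⟩ := hs g (by rw [derivedSeries_zero]; exact Subgroup.mem_top g)
    exact ⟨c, by rw [hc]; rfl⟩
  | succ s ihs =>
    intro Γ V _ _ _ _ hfg ρ hs hn h0
    have hpos : 0 < finrank ℂ V := by omega
    haveI : Nontrivial V := Module.nontrivial_of_finrank_pos hpos
    have hDn : (derivedSeries Γ s).Normal := derivedSeries_normal Γ s
    by_cases hc : ∃ x₀ ∈ vce_gen_C ρ (derivedSeries Γ s), ¬ ∃ c : ℂ, ρ x₀ = c • 1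
    · obtain ⟨x₀, hx₀, hns⟩ := hc
      obtain ⟨H₁, W, hH₁, hW0, hW1, hst⟩ := vce_a ρ (vce_gen_C ρ (derivedSeries Γ s))
        (vce_gen_Cn ρ _ hDn) (fun x hx y hy => by rw [← map_mul, ← map_mul]; exact hx.2 y hy.1)
        x₀ hx₀ hns
      have hlt : finrank ℂ W < n := by
        rw [← hn]
        exact Submodule.finrank_lt hW1
      haveI : Nontrivial W := Submodule.nontrivial_iff_ne_bot.2 hW0
      have hWpos : 0 < finrank ℂ W := finrank_pos
      let ρ' : H₁ →* Module.End ℂ W :=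
        { toFun := fun g => (ρ g).restrict (fun v hv => hst g g.2 v hv)
          map_one' := by
            ext v
            simp [LinearMap.restrict_apply]
          map_mul' := by
            intro a b
            ext v
            simp [LinearMap.restrict_apply] }
      obtain ⟨H₂, hH₂, v, hv, hv'⟩ := ih (finrank ℂ W) hlt H₁ W (vce_gen_fg hfg H₁) ρ' (s + 1)
        (by
          intro g hg
          obtain ⟨c, hc⟩ := hs g (vce_gen_der H₁ (s + 1) g hg)
          refine ⟨c, ?_⟩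
          ext v
          show ρ (g : Γ) (v : V) = _
          rw [hc]
          rfl) rfl hWpos
      refine ⟨H₂.map H₁.subtype, vce_gen_idx H₁ hH₁ H₂ hH₂, (v : V), ?_, ?_⟩
      · intro h
        exact hv (Subtype.ext h)
      · rintro _ ⟨g, hg, rfl⟩
        obtain ⟨c, hc⟩ := hv' g hg
        exact ⟨c, congrArg Subtype.val hc⟩
    · push Not at hc
      obtain ⟨H₁, hH₁, hcm⟩ := vce_b ρ (derivedSeries Γ s) hDn (hfg _)
        (by
          intro x hx y hy
          refine hs _ ?_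
          rw [derivedSeries_succ]
          exact Subgroup.commutator_mem_commutator hx hy)
        (by
          intro x hx hxy
          exact hc x ⟨hx, fun y hy => by rw [map_mul, map_mul]; exact hxy y hy⟩)
      obtain ⟨H₂, hH₂, v, hv, hv'⟩ := ihs H₁ V (vce_gen_fg hfg H₁) (ρ.comp H₁.subtype)
        (by
          intro g hg
          refine hc (g : Γ) ⟨vce_gen_der H₁ s g hg, fun y hy => ?_⟩
          rw [map_mul, map_mul]
          exact hcm g g.2 y hy) hn h0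
      refine ⟨H₂.map H₁.subtype, vce_gen_idx H₁ hH₁ H₂ hH₂, v, hv, ?_⟩
      rintro _ ⟨g, hg, rfl⟩
      exact hv' g hg

theorem vce_gen (n : ℕ) : ∀ (Γ V : Type) [Group Γ] [AddCommGroup V] [Module ℂ V]
    [FiniteDimensional ℂ V] (_ : ∀ H : Subgroup Γ, H.FG) (ρ : Γ →* Module.End ℂ V) (s : ℕ)
    (_ : ∀ g ∈ derivedSeries Γ s, ∃ c : ℂ, ρ g = c • 1) (_ : finrank ℂ V = n) (_ : 0 < n),
    ∃ H : Subgroup Γ, H.index ≠ 0 ∧ ∃ v : V, v ≠ 0 ∧ ∀ g ∈ H, ∃ c : ℂ, ρ g v = c • v := by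
  induction n using Nat.strong_induction_on with
  | _ n ih =>
    intro Γ V _ _ _ _ hfg ρ s hs hn h0
    exact vce_gen_s n ih s Γ V hfg ρ hs hn h0

end Pool.Agent.Helper294.HallG
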