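import Pool.Agent.Helper294.HallG.Defs
import Pool.Agent.Helper294.HallG.VceGen

set_option autoImplicit false

namespace Pool.Agent.Helper294.HallG

open Module Pool.Agent.Helper946.HC Pool.Agent.Helper946.S4 Pool.Agent.Helper294.HallM


theorem vce {Γ V : Type} [Group Γ] [AddCommGroup V] [Module ℂ V] [FiniteDimensional ℂ V]
    [Nontrivial V] (hΓ : PC Γ) (ρ : Γ →* Module.End ℂ V) :
    ∃ H : Subgroup Γ, H.index ≠ 0 ∧ ∃ v : V, v ≠ 0 ∧ ∀ g ∈ H, ∃ c : ℂ, ρ g v = c • v := by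
  obtain ⟨s, hs⟩ := hΓ.1.solvable
  refine vce_gen (finrank ℂ V) Γ V hΓ.2 ρ s ?_ rfl finrank_pos
  intro g hg
  rw [hs, Subgroup.mem_bot] at hg
  exact ⟨1, by rw [hg, map_one, one_smul]⟩

end Pool.Agent.Helper294.HallG
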