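import Pool.Agent.Helper294.HallG.Defs
import Pool.Agent.Helper294.HallG.EDefs
import Pool.Agent.Helper294.HallG.Vce

set_option autoImplicit false

namespace Pool.Agent.Helper294.HallG

open Module Pool.Agent.Helper946.HC Pool.Agent.Helper946.S4 Pool.Agent.Helper294.HallM
open Pool.Agent.Helper294.HallC (del FGM Stb Noe NoeOn ConjAct')


/-- the action as a rational linear map -/
noncomputable def eig_L {Γ V : Type} [Group Γ] [AddCommGroup V] [Module ℚ V]
    [DistribMulAction Γ V] (g : Γ) : V →ₗ[ℚ] V :=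
  (DistribSMul.toAddMonoidHom V g).toRatLinearMap

theorem eig_L_apply {Γ V : Type} [Group Γ] [AddCommGroup V] [Module ℚ V]
    [DistribMulAction Γ V] (g : Γ) (x : V) : (eig_L g : V →ₗ[ℚ] V) x = g • x := rfl

theorem eig_L_mem {Γ V : Type} [Group Γ] [AddCommGroup V] [Module ℚ V] [DistribMulAction Γ V]
    (C : AddSubgroup V) (hC : Stb Γ C) (g : Γ) :
    ∀ x ∈ Submodule.span ℚ (C : Set V), (eig_L g : V →ₗ[ℚ] V) x ∈ Submodule.span ℚ (C : Set V) := by
  intro x hx
  have h1 : Submodule.span ℚ (C : Set V) ≤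
      (Submodule.span ℚ (C : Set V)).comap (eig_L g : V →ₗ[ℚ] V) := by
    rw [Submodule.span_le]
    intro c hc
    show (eig_L g : V →ₗ[ℚ] V) c ∈ Submodule.span ℚ (C : Set V)
    rw [eig_L_apply]
    exact Submodule.subset_span (hC g c hc)
  exact h1 hx

/-- the restricted action -/
noncomputable def eig_R {Γ V : Type} [Group Γ] [AddCommGroup V] [Module ℚ V] [DistribMulAction Γ V]
    (C : AddSubgroup V) (hC : Stb Γ C) (g : Γ) :
    Submodule.span ℚ (C : Set V) →ₗ[ℚ] Submodule.span ℚ (C : Set V) :=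
  (eig_L g : V →ₗ[ℚ] V).restrict (eig_L_mem C hC g)

theorem eig_R_apply {Γ V : Type} [Group Γ] [AddCommGroup V] [Module ℚ V] [DistribMulAction Γ V]
    (C : AddSubgroup V) (hC : Stb Γ C) (g : Γ) (x : Submodule.span ℚ (C : Set V)) :
    ((eig_R C hC g x : Submodule.span ℚ (C : Set V)) : V) = g • (x : V) := rfl

theorem eig_R_one {Γ V : Type} [Group Γ] [AddCommGroup V] [Module ℚ V] [DistribMulAction Γ V]
    (C : AddSubgroup V) (hC : Stb Γ C) : eig_R C hC (1 : Γ) = LinearMap.id := by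
  refine LinearMap.ext fun x => Subtype.ext ?_
  rw [eig_R_apply, one_smul]
  rfl

theorem eig_R_mul {Γ V : Type} [Group Γ] [AddCommGroup V] [Module ℚ V] [DistribMulAction Γ V]
    (C : AddSubgroup V) (hC : Stb Γ C) (g h : Γ) :
    eig_R C hC (g * h) = (eig_R C hC g).comp (eig_R C hC h) := by
  refine LinearMap.ext fun x => Subtype.ext ?_
  rw [eig_R_apply, LinearMap.comp_apply, eig_R_apply, eig_R_apply, mul_smul]

/-- the dual representation -/
noncomputable def eig_rho {Γ V : Type} [Group Γ] [AddCommGroup V] [Module ℚ V]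
    [DistribMulAction Γ V] (C : AddSubgroup V) (hC : Stb Γ C) :
    Γ →* Module.End ℂ (Submodule.span ℚ (C : Set V) →ₗ[ℚ] ℂ) where
  toFun g :=
    { toFun := fun π => π.comp (eig_R C hC g⁻¹)
      map_add' := fun π π' => rfl
      map_smul' := fun c π => rfl }
  map_one' := by
    refine LinearMap.ext fun π => ?_
    show π.comp (eig_R C hC (1 : Γ)⁻¹) = π
    rw [inv_one, eig_R_one, LinearMap.comp_id]
  map_mul' g h := by
    refine LinearMap.ext fun π => ?_
    show π.comp (eig_R C hC (g * h)⁻¹) = (π.comp (eig_R C hC h⁻¹)).comp (eig_R C hC g⁻¹)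
    rw [mul_inv_rev, eig_R_mul, LinearMap.comp_assoc]

/-- a common eigenfunctional for a subgroup of finite index. -/
theorem eig {Γ V : Type} [Group Γ] [AddCommGroup V] [Module ℚ V] [DistribMulAction Γ V]
    (hΓ : PC Γ) (C : AddSubgroup V) (hC : Stb Γ C) (h0 : C ≠ ⊥)
    (hfd : FiniteDimensional ℚ (Submodule.span ℚ (C : Set V))) :
    ∃ (Γ₀ : Subgroup Γ) (π : V →+ ℂ), Γ₀.index ≠ 0 ∧ (∃ a ∈ C, π a ≠ 0) ∧
      (∀ g ∈ Γ₀, ∃ lam : ℂ, ∀ a ∈ C, π (g • a) = lam * π a) := by
  classical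
  have hfin : FiniteDimensional ℂ (Submodule.span ℚ (C : Set V) →ₗ[ℚ] ℂ) :=
    Module.Finite.linearMap ℚ ℂ _ _
  have hnt : Nontrivial (Submodule.span ℚ (C : Set V) →ₗ[ℚ] ℂ) := by
    obtain ⟨c, hc, hc0⟩ := (AddSubgroup.bot_or_exists_ne_zero C).resolve_left h0
    let c' : Submodule.span ℚ (C : Set V) := ⟨c, Submodule.subset_span hc⟩
    have hc' : c' ≠ 0 := fun h => hc0 (congrArg Subtype.val h)
    have h1 : ¬ ∀ φ : Module.Dual ℚ (Submodule.span ℚ (C : Set V)), φ c' = 0 := fun h =>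
      hc' ((Module.forall_dual_apply_eq_zero_iff ℚ c').mp h)
    push Not at h1
    obtain ⟨φ, hφ⟩ := h1
    refine ⟨⟨(Algebra.linearMap ℚ ℂ).comp φ, 0, fun h => hφ ?_⟩⟩
    have h2 := LinearMap.congr_fun h c'
    rw [LinearMap.comp_apply, LinearMap.zero_apply, Algebra.linearMap_apply, map_eq_zero] at h2
    exact h2
  obtain ⟨H, hH, v, hv, hHv⟩ := vce hΓ (eig_rho C hC)
  obtain ⟨π, hπ⟩ := LinearMap.exists_extend v
  refine ⟨H, π.toAddMonoidHom, hH, ?_, ?_⟩
  · by_contra hcon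
    push Not at hcon
    apply hv
    have h1 : Submodule.span ℚ (C : Set V) ≤ LinearMap.ker π := by
      rw [Submodule.span_le]
      intro c hc
      exact hcon c hc
    refine LinearMap.ext fun x => ?_
    rw [← hπ]
    exact h1 x.2
  · intro g hg
    obtain ⟨c, hc⟩ := hHv g⁻¹ (H.inv_mem hg)
    refine ⟨c, fun a ha => ?_⟩
    let a' : Submodule.span ℚ (C : Set V) := ⟨a, Submodule.subset_span ha⟩
    have h1 := LinearMap.congr_fun hc a'
    have h2 : (eig_rho C hC g⁻¹ v) a' = π (g • a) := by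
      show v (eig_R C hC (g⁻¹)⁻¹ a') = π (g • a)
      rw [← hπ, inv_inv, LinearMap.comp_apply]
      rfl
    have h3 : (c • v) a' = c * π a := by
      rw [LinearMap.smul_apply, smul_eq_mul, ← hπ]
      rfl
    rw [h2, h3] at h1
    exact h1

end Pool.Agent.Helper294.HallG
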