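import Pool.Agent.Helper294.HallG.Defs

set_option autoImplicit false

namespace Pool.Agent.Helper294.HallG

open Module Pool.Agent.Helper946.HC Pool.Agent.Helper946.S4 Pool.Agent.Helper294.HallM


/-- the permutation module -/
@[reducible] noncomputable def gen_perm_act {Q : Type} [Group Q] (L : Subgroup Q) :
    DistribMulAction Q ((Q ⧸ L) →₀ ℚ) where
  smul g f := Finsupp.mapDomain (fun x => g • x) f
  one_smul f := by
    show Finsupp.mapDomain (fun x => (1 : Q) • x) f = f
    simp only [one_smul]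
    exact Finsupp.mapDomain_id
  mul_smul g h f := by
    show Finsupp.mapDomain (fun x => (g * h) • x) f =
      Finsupp.mapDomain (fun x => g • x) (Finsupp.mapDomain (fun x => h • x) f)
    rw [← Finsupp.mapDomain_comp]
    congr 1
    funext x
    exact mul_smul g h x
  smul_zero g := Finsupp.mapDomain_zero
  smul_add g f f' := Finsupp.mapDomain_add

theorem gen_perm_smul {Q : Type} [Group Q] (L : Subgroup Q) (g : Q) (f : (Q ⧸ L) →₀ ℚ) :
    (gen_perm_act L).toMulAction.toSMul.smul g f = Finsupp.mapDomain (fun x => g • x) f := rfl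

theorem gen_perm {Q : Type} [Group Q] (L : Subgroup Q) (hL : L.index = 0) :
    ∃ S : Set Q, WBadSet Q S ∧
      ∀ y : Q, (∃ n : ℕ, 0 < n ∧ ∃ q : Q, q⁻¹ * y ^ n * q ∈ L) → y ∈ S := by
  classical
  letI := gen_perm_act L
  have hsm : ∀ (g : Q) (f : (Q ⧸ L) →₀ ℚ), g • f = Finsupp.mapDomain (fun x => g • x) f :=
    fun g f => rfl
  have hsingle : ∀ (g : Q) (x : Q ⧸ L) (c : ℚ),
      g • (Finsupp.single x c : (Q ⧸ L) →₀ ℚ) = Finsupp.single (g • x) c := by
    intro g x c
    rw [hsm, Finsupp.mapDomain_single]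
  have happ : ∀ (g : Q) (f : (Q ⧸ L) →₀ ℚ) (x : Q ⧸ L), (g • f) (g • x) = f x := by
    intro g f x
    rw [hsm]
    exact Finsupp.mapDomain_apply (MulAction.injective g) f x
  have hlin : ∀ (g : Q) (k : ℚ) (f : (Q ⧸ L) →₀ ℚ), g • (k • f) = k • (g • f) := by
    intro g k f
    rw [hsm, hsm, Finsupp.mapDomain_smul]
  refine ⟨WB ℚ ((Q ⧸ L) →₀ ℚ) (MonoidHom.id Q),
    ⟨ℚ, Q, (Q ⧸ L) →₀ ℚ, inferInstance, inferInstance, inferInstance, inferInstance, this,
      MonoidHom.id Q, ?_, ?_, ?_, rfl⟩, ?_⟩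
  · refine ⟨?_, ?_, ?_⟩
    · intro g
      exact ⟨RingEquiv.refl ℚ, fun k x => hlin g k x⟩
    · intro g hg
      refine ⟨1, fun a => ?_⟩
      have : g = 1 := hg
      rw [this, one_smul, one_smul]
    · refine ⟨{Finsupp.single ((1 : Q) : Q ⧸ L) 1}, ?_⟩
      rw [eq_top_iff]
      intro f _
      induction f using Finsupp.induction_linear with
      | zero => exact Submodule.zero_mem _
      | add f g hf hg => exact Submodule.add_mem _ (hf trivial) (hg trivial)
      | single x c =>
        have h1 : (Finsupp.single x c : (Q ⧸ L) →₀ ℚ) = c • Finsupp.single x 1 := by simp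
        rw [h1]
        refine Submodule.smul_mem _ _ (Submodule.subset_span ?_)
        obtain ⟨g, rfl⟩ := QuotientGroup.mk_surjective x
        refine ⟨g, _, Finset.mem_singleton_self _, ?_⟩
        rw [hsingle]
        congr 1
        show ((g : Q) : Q ⧸ L) = ((g • (1 : Q) : Q) : Q ⧸ L)
        rw [smul_eq_mul, mul_one]
  · have : (MonoidHom.id Q).range = ⊤ := by
      rw [MonoidHom.range_eq_top]
      exact Function.surjective_id
    rw [this]
    simp
  · intro W hW hSt
    by_contra hne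
    obtain ⟨w, hw, hw0⟩ := Submodule.exists_mem_ne_zero_of_ne_bot hne
    obtain ⟨c0, hc0⟩ := Finsupp.support_nonempty_iff.mpr hw0
    have hfg : W.FG := (Module.Finite.iff_fg).mp hW
    obtain ⟨s, hs⟩ := hfg
    set U : Finset (Q ⧸ L) := s.biUnion Finsupp.support with hU
    have hsup : W ≤ Finsupp.supported ℚ ℚ (U : Set (Q ⧸ L)) := by
      rw [← hs, Submodule.span_le]
      intro x hx
      rw [SetLike.mem_coe, Finsupp.mem_supported]
      intro a ha
      rw [Finset.mem_coe] at ha ⊢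
      exact Finset.mem_biUnion.mpr ⟨x, hx, ha⟩
    have hall : ∀ q : Q ⧸ L, q ∈ U := by
      intro q
      obtain ⟨g, hg⟩ := MulAction.exists_smul_eq Q c0 q
      have h1 : g • w ∈ W := hSt g (Subgroup.mem_top g) w hw
      have h2 := hsup h1
      rw [Finsupp.mem_supported] at h2
      apply h2
      rw [Finset.mem_coe, Finsupp.mem_support_iff, ← hg, happ]
      exact Finsupp.mem_support_iff.mp hc0
    have hfin : Finite (Q ⧸ L) := by
      have : Finite U := inferInstance
      exact Finite.of_surjective (fun x : U => (x : Q ⧸ L)) fun q => ⟨⟨q, hall q⟩, rfl⟩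
    have : 0 < Nat.card (Q ⧸ L) := Nat.card_pos
    unfold Subgroup.index at hL
    omega
  · rintro y ⟨n, hn, q, hq⟩
    refine ⟨n, hn, q, q⁻¹ * y ^ n * q, rfl, ?_⟩
    have hfix : ∀ g ∈ L, g • (Finsupp.single ((1 : Q) : Q ⧸ L) (1 : ℚ)) =
        Finsupp.single ((1 : Q) : Q ⧸ L) (1 : ℚ) := by
      intro g hg
      rw [hsingle]
      congr 1
      show ((g • (1 : Q) : Q) : Q ⧸ L) = ((1 : Q) : Q ⧸ L)
      rw [smul_eq_mul, mul_one, QuotientGroup.eq]
      simpa using hg
    have hfixW : ∀ g ∈ L, ∀ x ∈ Submodule.span ℚ {(Finsupp.single ((1 : Q) : Q ⧸ L) (1 : ℚ) :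
        (Q ⧸ L) →₀ ℚ)}, g • x = x := by
      intro g hg x hx
      obtain ⟨c, rfl⟩ := Submodule.mem_span_singleton.mp hx
      rw [hlin, hfix g hg]
    refine ⟨Submodule.span ℚ {Finsupp.single ((1 : Q) : Q ⧸ L) (1 : ℚ)}, ?_, ?_, ?_⟩
    · rw [Ne, Submodule.span_singleton_eq_bot]
      simp
    · infer_instance
    · intro x
      show (q⁻¹ * y ^ n * q) • x ∈ _ ↔ x ∈ _
      constructor
      · intro h
        have h1 := hfixW (q⁻¹ * y ^ n * q)⁻¹ (L.inv_mem hq) _ h
        rw [inv_smul_smul] at h1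
        rw [h1]
        exact h
      · intro h
        rw [hfixW _ hq x h]
        exact h

end Pool.Agent.Helper294.HallG
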