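import Pool.Agent.Helper294.HallG.Defs

set_option autoImplicit false

namespace Pool.Agent.Helper294.HallG

open Module Pool.Agent.Helper946.HC Pool.Agent.Helper946.S4 Pool.Agent.Helper294.HallM


theorem wb_lift {Q : Type} [Group Q] (Q₀ : Subgroup Q) (h0 : Q₀.index ≠ 0) (S : Set ↥Q₀)
    (hS : WBadSet ↥Q₀ S) : ∃ T : Set Q, WBadSet Q T ∧ ∀ y : ↥Q₀, y ∈ S → (y : Q) ∈ T := by
  
  obtain ⟨K, G, A, iK, iG, iA, iM, iD, ρ, hsys, hind, hfre, rfl⟩ := hS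
  refine ⟨WB K A (Q₀.subtype.comp ρ), ⟨K, G, A, iK, iG, iA, iM, iD, Q₀.subtype.comp ρ,
    ⟨hsys.semi, ?_, hsys.fg⟩, ?_, hfre, rfl⟩, ?_⟩
  · intro g hg
    apply hsys.scal g
    exact Subtype.ext hg
  · rw [MonoidHom.range_comp, Subgroup.index_map_subtype]
    exact mul_ne_zero hind h0
  · rintro y ⟨n, hn, q, g, hg, hbad⟩
    refine ⟨n, hn, (q : Q), g, ?_, hbad⟩
    have := congrArg (Subtype.val) hg
    simpa using this


end Pool.Agent.Helper294.HallG
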