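import Pool.Agent.Helper294.HallG.Defs
import Pool.Agent.Helper294.HallG.EDefs
import Pool.Agent.Helper294.HallG.AbFg
import Pool.Agent.Helper294.HallG.AbFi
import Pool.Agent.Helper294.HallG.Eig
import Pool.Agent.Helper294.HallG.GenPerm
import Pool.Agent.Helper294.HallG.WbLift

set_option autoImplicit false

namespace Pool.Agent.Helper294.HallG

open Module Pool.Agent.Helper946.HC Pool.Agent.Helper946.S4 Pool.Agent.Helper294.HallM
open Pool.Agent.Helper294.HallC (del FGM Stb Noe NoeOn ConjAct')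


theorem ef_fr_pc {Γ : Type} [Group Γ] (hΓ : PC Γ) (Γ₀ : Subgroup Γ) : PC ↥Γ₀ := by
  obtain ⟨h1, h2⟩ := hΓ
  haveI h1' : Group.IsSolvable Γ := h1
  refine ⟨(solvable_of_solvable_injective (f := Γ₀.subtype) Γ₀.subtype_injective), ?_⟩
  intro H
  have h3 : (H.map Γ₀.subtype).FG := h2 _
  rw [← Group.fg_iff_subgroup_fg] at h3 ⊢
  let e := H.equivMapOfInjective Γ₀.subtype Γ₀.subtype_injective
  exact Group.fg_of_surjective (f := e.symm.toMonoidHom) e.symm.surjective

noncomputable def ef_fr_dl {Γ A : Type} [Group Γ] [AddCommGroup A] [DistribMulAction Γ A] (y : Γ) :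
    A →+ A where
  toFun := del y
  map_zero' := by simp [del]
  map_add' := by
    intro a b
    simp only [del, smul_add]
    abel

theorem ef_fr_it_add {Γ A : Type} [Group Γ] [AddCommGroup A] [DistribMulAction Γ A] (y : Γ)
    (n : ℕ) (a b : A) : (del y)^[n] (a + b) = (del y)^[n] a + (del y)^[n] b :=
  iterate_map_add (ef_fr_dl y) n a b

theorem ef_fr_it_zero {Γ A : Type} [Group Γ] [AddCommGroup A] [DistribMulAction Γ A] (y : Γ)
    (n : ℕ) : (del y)^[n] (0 : A) = 0 :=
  iterate_map_zero (ef_fr_dl y) n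

theorem ef_fr_it_neg {Γ A : Type} [Group Γ] [AddCommGroup A] [DistribMulAction Γ A] (y : Γ)
    (n : ℕ) (a : A) : (del y)^[n] (-a) = - (del y)^[n] a :=
  iterate_map_neg (ef_fr_dl y) n a

/-- the elements of `C` killed by a power of `y - 1`. -/
def ef_fr_Om {Γ A : Type} [Group Γ] [AddCommGroup A] [DistribMulAction Γ A] (y : Γ)
    (C : AddSubgroup A) : AddSubgroup A where
  carrier := {a : A | a ∈ C ∧ ∃ n : ℕ, (del y)^[n] a = 0}
  add_mem' := by
    rintro a b ⟨ha, n, hn⟩ ⟨hb, m, hm⟩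
    refine ⟨C.add_mem ha hb, n + m, ?_⟩
    rw [ef_fr_it_add]
    have e1 : (del y)^[n + m] a = 0 := by
      rw [add_comm, Function.iterate_add_apply, hn, ef_fr_it_zero]
    have e2 : (del y)^[n + m] b = 0 := by
      rw [Function.iterate_add_apply, hm, ef_fr_it_zero]
    rw [e1, e2, add_zero]
  zero_mem' := ⟨C.zero_mem, 0, rfl⟩
  neg_mem' := by
    rintro a ⟨ha, n, hn⟩
    refine ⟨C.neg_mem ha, n, ?_⟩
    rw [ef_fr_it_neg, hn, neg_zero]

theorem ef_fr_iff {Γ A : Type} [Group Γ] [AddCommGroup A] [DistribMulAction Γ A] (y : Γ)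
    (C : AddSubgroup A) : OmFG y C ↔ (ef_fr_Om y C).FG := by
  unfold OmFG
  have h : AddSubgroup.closure {a : A | a ∈ C ∧ ∃ n : ℕ, (del y)^[n] a = 0} = ef_fr_Om y C :=
    AddSubgroup.closure_eq (ef_fr_Om y C)
  rw [h]

theorem ef_fr_bot {Γ A : Type} [Group Γ] [AddCommGroup A] [DistribMulAction Γ A] (y : Γ) :
    OmFG y (⊥ : AddSubgroup A) := by
  rw [ef_fr_iff]
  have h : ef_fr_Om y (⊥ : AddSubgroup A) = ⊥ := by
    rw [eq_bot_iff]
    intro a ha
    exact ha.1
  rw [h]
  exact ⟨∅, by simp⟩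

theorem ef_fr_EFbot (Γ : Type) {A : Type} [Group Γ] [AddCommGroup A] [DistribMulAction Γ A] :
    EF Γ (⊥ : AddSubgroup A) := by
  refine ⟨∅, ⊤, Set.finite_empty, ?_, ?_, ?_⟩
  · intro S hS
    exact absurd hS (Set.notMem_empty S)
  · rw [Subgroup.index_top]
    exact one_ne_zero
  · intro y _ _
    exact ef_fr_bot y

/-- finitely many values -/
theorem ef_fr_fin {Γ V : Type} [Group Γ] [AddCommGroup V] [DistribMulAction Γ V]
    (C : AddSubgroup V) (hC : Stb Γ C) (π : V →+ ℂ) (L : Subgroup Γ) (hLi : L.index ≠ 0)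
    (hL : ∀ g ∈ L, ∀ a ∈ C, π (g • a) = π a) (s : V) (hs : s ∈ C) :
    (Set.range (fun g : Γ => π (g • s))).Finite := by
  have : L.FiniteIndex := ⟨hLi⟩
  have hfin : Finite (Γ ⧸ L) := inferInstance
  let f : Γ ⧸ L → ℂ := Quotient.lift (fun g : Γ => π (g⁻¹ • s)) (by
    intro a b hab
    have h1 : a⁻¹ * b ∈ L := QuotientGroup.leftRel_apply.mp hab
    have h2 := hL _ h1 (b⁻¹ • s) (hC _ _ hs)
    rw [smul_smul] at h2
    have h3 : a⁻¹ * b * b⁻¹ = a⁻¹ := by group
    rw [h3] at h2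
    exact h2)
  refine (Set.finite_range f).subset ?_
  rintro _ ⟨g, rfl⟩
  refine ⟨(QuotientGroup.mk (g⁻¹) : Γ ⧸ L), ?_⟩
  change π ((g⁻¹)⁻¹ • s) = π (g • s)
  rw [inv_inv]

theorem ef_fr_step {Γ V : Type} [Group Γ] [AddCommGroup V] [DistribMulAction Γ V]
    (C : AddSubgroup V) (hC : Stb Γ C) (S : Finset V)
    (hS : C = AddSubgroup.closure {a : V | ∃ g : Γ, ∃ s ∈ S, a = g • s})
    (π : V →+ ℂ) (L : Subgroup Γ) (hLi : L.index ≠ 0)
    (hL : ∀ g ∈ L, ∀ a ∈ C, π (g • a) = π a) (Ω : AddSubgroup V) (hΩ : Ω ≤ C)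
    (hker : (Ω ⊓ π.ker).FG) : Ω.FG := by
  have hSC : ∀ s ∈ S, s ∈ C := by
    intro s hs
    rw [hS]
    exact AddSubgroup.subset_closure ⟨1, s, hs, (one_smul _ _).symm⟩
  have hCfg : (C.map π).FG := by
    rw [hS, AddMonoidHom.map_closure]
    have hfin : (π '' {a : V | ∃ g : Γ, ∃ s ∈ S, a = g • s}).Finite := by
      have hU : (⋃ s ∈ S, Set.range (fun g : Γ => π (g • s))).Finite := by
        refine Set.Finite.biUnion (Finset.finite_toSet S) ?_
        intro s hs
        exact ef_fr_fin C hC π L hLi hL s (hSC s hs)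
      refine hU.subset ?_
      rintro _ ⟨a, ⟨g, s, hs, rfl⟩, rfl⟩
      exact Set.mem_biUnion hs ⟨g, rfl⟩
    exact ⟨hfin.toFinset, by rw [Set.Finite.coe_toFinset]⟩
  let f : V →ₗ[ℤ] ℂ := π.toIntLinearMap
  let Ωz : Submodule ℤ V := AddSubgroup.toIntSubmodule Ω
  let Cz : Submodule ℤ V := AddSubgroup.toIntSubmodule C
  have hCz : (Cz.map f).FG := by
    rw [Submodule.fg_iff_addSubgroup_fg]
    have h1 : (Cz.map f).toAddSubgroup = C.map π := by
      ext x
      rfl
    rw [h1]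
    exact hCfg
  have hN : IsNoetherian ℤ (Cz.map f) := isNoetherian_of_fg_of_noetherian _ hCz
  have hΩz : (Ωz.map f).FG := by
    rw [isNoetherian_submodule] at hN
    exact hN _ (Submodule.map_mono hΩ)
  have hkz : (Ωz ⊓ LinearMap.ker f).FG := by
    rw [Submodule.fg_iff_addSubgroup_fg]
    have h1 : (Ωz ⊓ LinearMap.ker f).toAddSubgroup = Ω ⊓ π.ker := by
      ext x
      rfl
    rw [h1]
    exact hker
  have hfin := Submodule.fg_of_fg_map_of_fg_inf_ker f hΩz hkz
  rw [Submodule.fg_iff_addSubgroup_fg] at hfin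
  exact hfin

theorem ef_fr (n : ℕ) : ∀ (Γ V : Type) [Group Γ] [AddCommGroup V] [Module ℚ V]
    [DistribMulAction Γ V] (_ : PC Γ) (C : AddSubgroup V) (_ : Stb Γ C) (S : Finset V)
    (_ : C = AddSubgroup.closure {a : V | ∃ g : Γ, ∃ s ∈ S, a = g • s})
    (_ : FiniteDimensional ℚ (Submodule.span ℚ (C : Set V)))
    (_ : finrank ℚ (Submodule.span ℚ (C : Set V)) ≤ n), EF Γ C := by
  induction n with
  | zero =>
    intro Γ V _ _ _ _ hΓ C hC S hS hfd hn
    have h1 : Submodule.span ℚ (C : Set V) = ⊥ :=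
      Submodule.finrank_eq_zero.mp (Nat.le_zero.mp hn)
    have h2 : C = ⊥ := by
      rw [eq_bot_iff]
      intro a ha
      have h3 : a ∈ Submodule.span ℚ (C : Set V) := Submodule.subset_span ha
      rw [h1] at h3
      exact h3
    rw [h2]
    exact ef_fr_EFbot Γ
  | succ n ih =>
    intro Γ V _ _ _ _ hΓ C hC S hS hfd hn
    by_cases hCb : C = ⊥
    · rw [hCb]
      exact ef_fr_EFbot Γ
    obtain ⟨Γ₀, π, h0, ⟨a₀, ha₀C, ha₀⟩, hlam⟩ := eig hΓ C hC hCb hfd
    have hPC₀ := ef_fr_pc hΓ Γ₀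
    let B : AddSubgroup V := C ⊓ π.ker
    have hBC : B ≤ C := inf_le_left
    have hBst : Stb ↥Γ₀ B := by
      intro g x hx
      obtain ⟨hx1, hx2⟩ := hx
      refine ⟨hC (g : Γ) x hx1, ?_⟩
      obtain ⟨lam, hl⟩ := hlam (g : Γ) g.2
      have h1 := hl x hx1
      have h2 : π x = 0 := hx2
      rw [h2, mul_zero] at h1
      exact h1
    obtain ⟨S₁, hS₁⟩ := ab_fi Γ₀ h0 S
    obtain ⟨S', hS'⟩ := ab_fg hPC₀ B hBst S₁ (by rw [← hS₁, ← hS]; exact hBC)
    have hsub : Submodule.span ℚ (B : Set V) ≤ Submodule.span ℚ (C : Set V) :=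
      Submodule.span_mono hBC
    have hfdB : FiniteDimensional ℚ (Submodule.span ℚ (B : Set V)) :=
      Submodule.finiteDimensional_of_le hsub
    have hker : Submodule.span ℚ (B : Set V) ≤ LinearMap.ker π.toRatLinearMap := by
      rw [Submodule.span_le]
      intro x hx
      exact hx.2
    have hlt : Submodule.span ℚ (B : Set V) < Submodule.span ℚ (C : Set V) := by
      refine lt_of_le_of_ne hsub ?_
      intro he
      have h1 : a₀ ∈ Submodule.span ℚ (B : Set V) := by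
        rw [he]
        exact Submodule.subset_span ha₀C
      have h2 := hker h1
      exact ha₀ h2
    have hfr : finrank ℚ (Submodule.span ℚ (B : Set V)) ≤ n := by
      have := Submodule.finrank_lt_finrank_of_lt hlt
      omega
    obtain ⟨FB, Γ₁, hFfin, hFW, hΓ₁, hΓ₁y⟩ := ih ↥Γ₀ V hPC₀ B hBst S' hS' hfdB hfr
    choose! T hT1 hT2 using fun (S : Set ↥Γ₀) (hS : S ∈ FB) => wb_lift Γ₀ h0 S (hFW S hS)
    have hidx : (Γ₁.map Γ₀.subtype).index ≠ 0 := by
      rw [Subgroup.index_map_subtype]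
      exact mul_ne_zero hΓ₁ h0
    have hyB : ∀ y ∈ Γ₁.map Γ₀.subtype, (∀ S ∈ T '' FB, y ∉ S) → y ∈ Γ₀ ∧ OmFG y B := by
      rintro y ⟨y₀, hy₀, rfl⟩ hy
      refine ⟨y₀.2, ?_⟩
      have h1 := hΓ₁y y₀ hy₀ (by
        intro S hS hyS
        exact hy (T S) ⟨S, hS, rfl⟩ (hT2 S hS y₀ hyS))
      exact h1
    let L : Subgroup Γ :=
      { carrier := {g | g ∈ Γ₀ ∧ ∀ a ∈ C, π (g • a) = π a}
        mul_mem' := by
          rintro g h ⟨hg1, hg2⟩ ⟨hh1, hh2⟩
          refine ⟨Γ₀.mul_mem hg1 hh1, ?_⟩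
          intro a ha
          rw [mul_smul, hg2 _ (hC h a ha), hh2 a ha]
        one_mem' := ⟨Γ₀.one_mem, fun a _ => by rw [one_smul]⟩
        inv_mem' := by
          rintro g ⟨hg1, hg2⟩
          refine ⟨Γ₀.inv_mem hg1, ?_⟩
          intro a ha
          have h1 := hg2 (g⁻¹ • a) (hC _ _ ha)
          rw [smul_inv_smul] at h1
          exact h1.symm }
    by_cases hLi : L.index = 0
    · obtain ⟨SL, hSL1, hSL2⟩ := gen_perm L hLi
      refine ⟨insert SL (T '' FB), Γ₁.map Γ₀.subtype, (hFfin.image T).insert SL, ?_, hidx, ?_⟩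
      · intro S hS
        rcases hS with rfl | ⟨S₀, hS₀, rfl⟩
        · exact hSL1
        · exact hT1 S₀ hS₀
      · intro y hy hyF
        obtain ⟨hy0, hyOm⟩ := hyB y hy (fun S hS => hyF S (Set.mem_insert_of_mem _ hS))
        have hyL : y ∉ L := by
          intro hyL
          apply hyF SL (Set.mem_insert _ _)
          apply hSL2
          refine ⟨1, one_pos, 1, ?_⟩
          rw [inv_one, pow_one, one_mul, mul_one]
          exact hyL
        obtain ⟨lam, hl⟩ := hlam y hy0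
        have hl1 : lam ≠ 1 := by
          intro h1
          apply hyL
          refine ⟨hy0, ?_⟩
          intro a ha
          rw [hl a ha, h1, one_mul]
        have hit : ∀ (n : ℕ) (a : V), a ∈ C → (del y)^[n] a ∈ C ∧
            π ((del y)^[n] a) = (lam - 1) ^ n * π a := by
          intro n
          induction n with
          | zero =>
            intro a ha
            exact ⟨ha, by simp⟩
          | succ n ihn =>
            intro a ha
            obtain ⟨e1, e2⟩ := ihn a ha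
            rw [Function.iterate_succ_apply']
            refine ⟨C.sub_mem (hC y _ e1) e1, ?_⟩
            change π (y • (del y)^[n] a - (del y)^[n] a) = _
            rw [map_sub, hl _ e1, e2]
            ring
        rw [ef_fr_iff] at hyOm ⊢
        have heq : ef_fr_Om y C = ef_fr_Om y B := by
          apply le_antisymm
          · rintro a ⟨ha, n, hn⟩
            refine ⟨⟨ha, ?_⟩, n, hn⟩
            have h1 := (hit n a ha).2
            rw [hn, map_zero] at h1
            rcases mul_eq_zero.mp h1.symm with h2 | h2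
            · exact absurd h2 (pow_ne_zero n (sub_ne_zero.mpr hl1))
            · exact h2
          · rintro a ⟨ha, n, hn⟩
            exact ⟨hBC ha, n, hn⟩
        rw [heq]
        exact hyOm
    · refine ⟨T '' FB, Γ₁.map Γ₀.subtype, hFfin.image T, ?_, hidx, ?_⟩
      · rintro S ⟨S₀, hS₀, rfl⟩
        exact hT1 S₀ hS₀
      · intro y hy hyF
        obtain ⟨hy0, hyOm⟩ := hyB y hy hyF
        rw [ef_fr_iff] at hyOm ⊢
        refine ef_fr_step C hC S hS π L hLi (fun g hg => hg.2) (ef_fr_Om y C)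
          (fun a ha => ha.1) ?_
        have heq : ef_fr_Om y C ⊓ π.ker = ef_fr_Om y B := by
          apply le_antisymm
          · rintro a ⟨⟨ha, n, hn⟩, hk⟩
            exact ⟨⟨ha, hk⟩, n, hn⟩
          · rintro a ⟨⟨ha, hk⟩, n, hn⟩
            exact ⟨⟨ha, n, hn⟩, hk⟩
        rw [heq]
        exact hyOm

end Pool.Agent.Helper294.HallG
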