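import Pool.Agent.Helper294.HallG.EDefs
import Pool.Agent.Helper294.HallC.EmbedQ

set_option autoImplicit false

namespace Pool.Agent.Helper294.HallG

open Module Pool.Agent.Helper946.HC Pool.Agent.Helper946.S4 Pool.Agent.Helper294.HallM
open Pool.Agent.Helper294.HallC (del FGM Stb Noe NoeOn ConjAct')

theorem embed_q2 {Γ A : Type} [Group Γ] [AddCommGroup A] [DistribMulAction Γ A]
    (hA : FGM Γ A) (htf : ∀ (n : ℕ) (a : A), 0 < n → n • a = 0 → a = 0) :
    ∃ (V : Type) (_ : AddCommGroup V) (_ : Module ℚ V) (_ : DistribMulAction Γ V) (j : A →+ V),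
      Function.Injective j ∧ (∀ (g : Γ) (a : A), j (g • a) = g • j a) ∧
      Sys ℚ Γ V Γ (MonoidHom.id Γ) := by
  obtain ⟨V, i1, i2, i3, j, h1, h2, h3⟩ := Pool.Agent.Helper294.HallC.embed_q hA htf
  exact ⟨V, i1, i2, i3, j, h1, h2, ⟨h3.semi, h3.scal, h3.fg⟩⟩

end Pool.Agent.Helper294.HallG
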