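import Pool.Agent.Helper294.HallG.Defs

set_option autoImplicit false

namespace Pool.Agent.Helper294.HallG

open Module Pool.Agent.Helper946.HC Pool.Agent.Helper946.S4 Pool.Agent.Helper294.HallM


theorem fre_quot {K G A : Type} [DivisionRing K] [Group G] [AddCommGroup A] [Module K A]
    [DistribMulAction G A] {A₂ : Type} [AddCommGroup A₂] [Module K A₂] [DistribMulAction G A₂]
    (X : Submodule K A) (hX : FiniteDimensional K X)
    (hmax : ∀ W : Submodule K A, FiniteDimensional K W → St (⊤ : Subgroup G) W → W ≤ X)
    (π : A →ₗ[K] A₂) (hsurj : Function.Surjective π) (hπ : LinearMap.ker π = X)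
    (heq : ∀ (g : G) (a : A), π (g • a) = g • π a) : Fre K G A₂ := by
  intro W hW hSt
  have hV : FiniteDimensional K (W.comap π) := by
    have hfg : (W.comap π).FG := by
      apply Submodule.fg_of_fg_map_of_fg_inf_ker π
      · rw [Submodule.map_comap_eq_of_surjective hsurj]
        exact Module.Finite.iff_fg.1 hW
      · rw [hπ]
        have h1 : W.comap π ⊓ X = X := by
          apply inf_eq_right.2
          intro x hx
          rw [← hπ, LinearMap.mem_ker] at hx
          rw [Submodule.mem_comap, hx]
          exact W.zero_mem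
        rw [h1]
        exact Module.Finite.iff_fg.1 hX
    exact Module.Finite.iff_fg.2 hfg
  have hVS : St (⊤ : Subgroup G) (W.comap π) := by
    intro g hg x hx
    rw [Submodule.mem_comap] at hx ⊢
    rw [heq]
    exact hSt g hg _ hx
  have hle := hmax _ hV hVS
  rw [Submodule.eq_bot_iff]
  intro w hw
  obtain ⟨a, rfl⟩ := hsurj w
  have h2 : a ∈ X := hle (Submodule.mem_comap.2 hw)
  rw [← hπ] at h2
  exact LinearMap.mem_ker.1 h2

end Pool.Agent.Helper294.HallG
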