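import Pool.Agent.Helper294.HallG.Defs

set_option autoImplicit false

namespace Pool.Agent.Helper294.HallG

open Module Pool.Agent.Helper946.HC Pool.Agent.Helper946.S4 Pool.Agent.Helper294.HallM


theorem max_fd_sup {K G A : Type} [DivisionRing K] [Group G] [AddCommGroup A] [Module K A]
    [DistribMulAction G A] {X W : Submodule K A} (hX : St (⊤ : Subgroup G) X)
    (hW : St (⊤ : Subgroup G) W) : St (⊤ : Subgroup G) (X ⊔ W) := by
  intro g hg x hx
  obtain ⟨a, ha, b, hb, rfl⟩ := Submodule.mem_sup.mp hx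
  rw [smul_add]
  exact Submodule.mem_sup.mpr ⟨_, hX g hg a ha, _, hW g hg b hb, rfl⟩

theorem max_fd {K G A : Type} [DivisionRing K] [Group G] [AddCommGroup A] [Module K A]
    [DistribMulAction G A] (hs : ∀ g : G, Semi K (ac g : A ≃+ A))
    (hN : NoethFor (Set.univ : Set G) (⊤ : Submodule K A)) :
    ∃ X : Submodule K A, FiniteDimensional K X ∧ St (⊤ : Subgroup G) X ∧
      ∀ W : Submodule K A, FiniteDimensional K W → St (⊤ : Subgroup G) W → W ≤ X := by
  by_contra hcon
  push Not at hcon
  have step : ∀ X : {X : Submodule K A // FiniteDimensional K X ∧ St (⊤ : Subgroup G) X},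
      ∃ Y : {X : Submodule K A // FiniteDimensional K X ∧ St (⊤ : Subgroup G) X},
        X.1 < Y.1 := by
    rintro ⟨X, hX, hXs⟩
    obtain ⟨W, hW, hWs, hnot⟩ := hcon X hX hXs
    refine ⟨⟨X ⊔ W, ?_, max_fd_sup hXs hWs⟩, ?_⟩
    · haveI := hX
      haveI := hW
      exact Submodule.finite_sup X W
    · refine lt_of_le_of_ne le_sup_left (fun h => hnot ?_)
      have h' : X = X ⊔ W := h
      rw [h']
      exact le_sup_right
  choose nx hnx using step
  let f : ℕ → {X : Submodule K A // FiniteDimensional K X ∧ St (⊤ : Subgroup G) X} :=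
    fun n => nx^[n] ⟨⊥, inferInstance, by
      intro g _ x hx
      rw [Submodule.mem_bot] at hx ⊢
      rw [hx, smul_zero]⟩
  have hf : ∀ n, (f n).1 < (f (n + 1)).1 := by
    intro n
    have : f (n + 1) = nx (f n) := Function.iterate_succ_apply' nx n _
    rw [this]
    exact hnx _
  obtain ⟨n, hn⟩ := hN (fun n => (f n).1) (monotone_nat_of_le_succ fun n => (hf n).le)
    (fun n => ⟨le_top, fun g _ x hx => (f n).2.2 g (Subgroup.mem_top g) x hx⟩)
  exact (hf n).ne (hn (n + 1) (Nat.le_succ n)).symm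

end Pool.Agent.Helper294.HallG
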