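import Pool.Agent.Helper294.HallG.Defs
import Pool.Agent.Helper294.HallG.EDefs

set_option autoImplicit false

namespace Pool.Agent.Helper294.HallG

open Module Pool.Agent.Helper946.HC Pool.Agent.Helper946.S4 Pool.Agent.Helper294.HallM
open Pool.Agent.Helper294.HallC (del FGM Stb Noe NoeOn ConjAct')


theorem om_bad {K Γ V : Type} [DivisionRing K] [Group Γ] [AddCommGroup V] [Module K V]
    [DistribMulAction Γ V] (hs : ∀ g : Γ, Semi K (ac g : V ≃+ V)) (y : Γ) (a : V) (ha : a ≠ 0)
    (n : ℕ) (h : (del y)^[n] a = 0) : BadEl K V y := by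
  classical
  obtain ⟨σ, hσ⟩ := hs y
  have hσ' : ∀ (k : K) (x : V), y • (k • x) = σ k • (y • x) := fun k x => hσ k x
  set W : Submodule K V := Submodule.span K
    (((Finset.range n).image (fun i => (del y)^[i] a) : Finset V) : Set V) with hW
  have hmem : ∀ i, i ≤ n → (del y)^[i] a ∈ W := by
    intro i hi
    rcases Nat.lt_or_ge i n with h1 | h1
    · exact Submodule.subset_span (by
        simp only [Finset.coe_image, Set.mem_image, Finset.coe_range, Set.mem_Iio]
        exact ⟨i, h1, rfl⟩)
    · have : i = n := le_antisymm hi h1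
      rw [this, h]
      exact W.zero_mem
  have hstep : ∀ i, y • ((del y)^[i] a) = (del y)^[i+1] a + (del y)^[i] a := by
    intro i
    rw [Function.iterate_succ_apply']
    simp [del]
  have hn : 0 < n := by
    rcases Nat.eq_zero_or_pos n with h0 | h0
    · subst h0
      exact absurd h ha
    · exact h0
  have fwd : ∀ x ∈ W, y • x ∈ W := by
    intro x hx
    induction hx using Submodule.span_induction with
    | mem x hx =>
      simp only [Finset.coe_image, Set.mem_image, Finset.coe_range, Set.mem_Iio] at hx
      obtain ⟨i, hi, rfl⟩ := hx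
      rw [hstep]
      exact W.add_mem (hmem _ hi) (hmem _ hi.le)
    | zero => rw [smul_zero]; exact W.zero_mem
    | add x z _ _ hx hz => rw [smul_add]; exact W.add_mem hx hz
    | smul k x _ hx => rw [hσ']; exact W.smul_mem _ hx
  have gen : ∀ j, j ≤ n → ∃ w ∈ W, (del y)^[n - j] a = y • w := by
    intro j
    induction j with
    | zero => intro _; exact ⟨0, W.zero_mem, by rw [Nat.sub_zero, h, smul_zero]⟩
    | succ j ih =>
      intro hj
      obtain ⟨w, hw, he⟩ := ih (by omega)
      refine ⟨(del y)^[n - (j+1)] a - w, W.sub_mem (hmem _ (Nat.sub_le _ _)) hw, ?_⟩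
      rw [smul_sub, ← he, hstep]
      have : n - (j+1) + 1 = n - j := by omega
      rw [this]
      abel
  have sur : ∀ x ∈ W, ∃ w ∈ W, x = y • w := by
    intro x hx
    induction hx using Submodule.span_induction with
    | mem x hx =>
      simp only [Finset.coe_image, Set.mem_image, Finset.coe_range, Set.mem_Iio] at hx
      obtain ⟨i, hi, rfl⟩ := hx
      obtain ⟨w, hw, he⟩ := gen (n - i) (Nat.sub_le _ _)
      have : n - (n - i) = i := by omega
      rw [this] at he
      exact ⟨w, hw, he⟩
    | zero => exact ⟨0, W.zero_mem, by rw [smul_zero]⟩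
    | add x z _ _ hx hz =>
      obtain ⟨w, hw, he⟩ := hx
      obtain ⟨w', hw', he'⟩ := hz
      exact ⟨w + w', W.add_mem hw hw', by rw [smul_add, he, he']⟩
    | smul k x _ hx =>
      obtain ⟨w, hw, he⟩ := hx
      exact ⟨σ.symm k • w, W.smul_mem _ hw, by rw [hσ', RingEquiv.apply_symm_apply, he]⟩
  refine ⟨W, ?_, ?_, ?_⟩
  · intro h0
    have := hmem 0 (Nat.zero_le _)
    rw [h0] at this
    exact ha ((Submodule.mem_bot K).1 this)
  · exact FiniteDimensional.span_finset K _
  · intro x
    constructor
    · intro hx
      obtain ⟨w, hw, he⟩ := sur _ hx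
      have : x = w := by
        have h1 : y • x = y • w := he
        exact smul_left_cancel y h1
      rw [this]; exact hw
    · intro hx
      exact fwd x hx

end Pool.Agent.Helper294.HallG
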