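import Pool.Agent.Helper294.HallG.Defs
import Pool.Agent.Helper294.HallG.EDefs
import Pool.Agent.Helper294.HallM.SysNoe
import Pool.Agent.Helper294.HallM.QuotSys
import Pool.Agent.Helper294.HallG.AbFg
import Pool.Agent.Helper294.HallG.EfFr
import Pool.Agent.Helper294.HallG.EmbedQ2
import Pool.Agent.Helper294.HallG.FreQuot
import Pool.Agent.Helper294.HallG.MaxFd
import Pool.Agent.Helper294.HallG.OmBad

set_option autoImplicit false

namespace Pool.Agent.Helper294.HallG

open Module Pool.Agent.Helper946.HC Pool.Agent.Helper946.S4 Pool.Agent.Helper294.HallM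
open Pool.Agent.Helper294.HallC (del FGM Stb Noe NoeOn ConjAct')



theorem ef_0_map {A V : Type} [AddCommGroup A] [AddCommGroup V] (j : A →+ V)
    (hj : Function.Injective j) (H : AddSubgroup A) (h : (H.map j).FG) : H.FG := by
  classical
  obtain ⟨S, hS⟩ := h
  have hex : ∀ s : V, s ∈ S → ∃ a : A, j a = s := by
    intro s hs
    have h1 : s ∈ AddSubgroup.closure (S : Set V) := AddSubgroup.subset_closure hs
    rw [hS] at h1
    obtain ⟨a, _, ha⟩ := h1
    exact ⟨a, ha⟩
  choose! f hf using hex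
  refine ⟨S.image f, ?_⟩
  apply AddSubgroup.map_injective hj
  rw [AddMonoidHom.map_closure, ← hS]
  congr 1
  ext v
  simp only [Finset.coe_image, Set.mem_image, Finset.mem_coe]
  constructor
  · rintro ⟨a, ⟨s, hs, rfl⟩, rfl⟩
    rw [hf s hs]; exact hs
  · intro hv
    exact ⟨f v, ⟨v, hv, rfl⟩, hf v hv⟩

theorem ef_0_del {Γ A V : Type} [Group Γ] [AddCommGroup A] [DistribMulAction Γ A]
    [AddCommGroup V] [DistribMulAction Γ V] (j : A →+ V) (hje : ∀ (g : Γ) (a : A), j (g • a) = g • j a)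
    (y : Γ) (n : ℕ) (a : A) : j ((del y)^[n] a) = (del y)^[n] (j a) := by
  induction n generalizing a with
  | zero => rfl
  | succ n ih =>
    rw [Function.iterate_succ_apply, Function.iterate_succ_apply, ih]
    congr 1
    unfold del
    rw [map_sub, hje]

theorem ef_0 {Γ A : Type} [Group Γ] [AddCommGroup A] [DistribMulAction Γ A] (hΓ : PC Γ)
    (hA : FGM Γ A) (htf : ∀ (n : ℕ) (a : A), 0 < n → n • a = 0 → a = 0) :
    EF Γ (⊤ : AddSubgroup A) := by
  classical
  obtain ⟨V, iV1, iV2, iV3, j, hj, hje, hSys⟩ := embed_q2 hA htf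
  have hN := sys_noe hΓ Function.surjective_id hSys
  obtain ⟨X, hXf, hXs, hXm⟩ := max_fd hSys.semi hN
  obtain ⟨V₂, iW1, iW2, iW3, π, hπs, hπk, hπe, hSys₂⟩ := quot_sys hSys X hXs
  have hFre : Fre ℚ Γ V₂ := fre_quot X hXf hXm π hπs hπk hπe
  obtain ⟨S, hS⟩ := hA
  let C : AddSubgroup V := X.toAddSubgroup ⊓ j.range
  have hCs : Stb Γ C := by
    intro g x hx
    refine ⟨hXs g (Subgroup.mem_top g) x hx.1, ?_⟩
    obtain ⟨a, ha⟩ := hx.2
    exact ⟨g • a, by rw [hje, ha]⟩
  have hCle : C ≤ AddSubgroup.closure {a : V | ∃ g : Γ, ∃ s ∈ S.image j, a = g • s} := by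
    intro x hx
    obtain ⟨a, rfl⟩ := hx.2
    have h1 : a ∈ AddSubgroup.closure {a : A | ∃ g : Γ, ∃ s ∈ S, a = g • s} := by
      rw [hS]; exact AddSubgroup.mem_top a
    have h2 : j a ∈ (AddSubgroup.closure {a : A | ∃ g : Γ, ∃ s ∈ S, a = g • s}).map j :=
      ⟨a, h1, rfl⟩
    rw [AddMonoidHom.map_closure] at h2
    refine AddSubgroup.closure_mono ?_ h2
    rintro v ⟨b, ⟨g, s, hs, rfl⟩, rfl⟩
    exact ⟨g, j s, Finset.mem_image_of_mem j hs, hje g s⟩
  obtain ⟨S', hS'⟩ := ab_fg hΓ C hCs (S.image j) hCle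
  have hspan : Submodule.span ℚ (C : Set V) ≤ X := by
    rw [Submodule.span_le]
    intro x hx
    exact hx.1
  have hfd : FiniteDimensional ℚ (Submodule.span ℚ (C : Set V)) :=
    Submodule.finiteDimensional_of_le hspan
  obtain ⟨F, Γ₀, hF, hFb, hΓ₀, hmain⟩ := ef_fr _ Γ V hΓ C hCs S' hS' hfd le_rfl
  refine ⟨insert (WB ℚ V₂ (MonoidHom.id Γ)) F, Γ₀, hF.insert _, ?_, hΓ₀, ?_⟩
  · intro T hT
    rcases hT with rfl | hT
    · refine ⟨ℚ, Γ, V₂, inferInstance, inferInstance, iW1, iW2, iW3, MonoidHom.id Γ, hSys₂, ?_,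
        hFre, rfl⟩
      have h1 : (MonoidHom.id Γ).range = ⊤ := MonoidHom.range_eq_top.2 Function.surjective_id
      rw [h1, Subgroup.index_top]
      exact one_ne_zero
    · exact hFb T hT
  · intro y hy hyS
    have hyC : OmFG y C := hmain y hy (fun T hT => hyS T (Set.mem_insert_of_mem _ hT))
    have hnb : ¬ BadEl ℚ V₂ y := by
      intro hb
      apply hyS _ (Set.mem_insert _ _)
      refine ⟨1, one_pos, 1, y, ?_, hb⟩
      simp
    unfold OmFG
    apply ef_0_map j hj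
    rw [AddMonoidHom.map_closure]
    have himg : j '' {a : A | a ∈ (⊤ : AddSubgroup A) ∧ ∃ n : ℕ, (del y)^[n] a = 0}
        = {v : V | v ∈ C ∧ ∃ n : ℕ, (del y)^[n] v = 0} := by
      ext v
      constructor
      · rintro ⟨a, ⟨-, n, hn⟩, rfl⟩
        have h1 : (del y)^[n] (j a) = 0 := by
          rw [← ef_0_del j hje, hn, map_zero]
        have h2 : (del y)^[n] (π (j a)) = 0 := by
          have h3 := ef_0_del (π.toAddMonoidHom) hπe y n (j a)
          rw [h1, map_zero] at h3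
          exact h3.symm
        have h4 : π (j a) = 0 := by
          by_contra h5
          exact hnb (om_bad hSys₂.semi y _ h5 n h2)
        refine ⟨⟨?_, ⟨a, rfl⟩⟩, n, h1⟩
        show j a ∈ X
        rw [← hπk]
        exact h4
      · rintro ⟨⟨hvX, ⟨a, rfl⟩⟩, n, hn⟩
        refine ⟨a, ⟨AddSubgroup.mem_top a, n, ?_⟩, rfl⟩
        apply hj
        rw [ef_0_del j hje, hn, map_zero]
    rw [himg]
    exact hyC

end Pool.Agent.Helper294.HallG
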