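import Pool.Agent.Helper294.HallG.Defs
import Pool.Agent.Helper294.HallG.EDefs
import Pool.Agent.Helper294.HallM.SysNoe
import Pool.Agent.Helper294.HallM.QuotSys
import Pool.Agent.Helper294.HallG.FreQuot
import Pool.Agent.Helper294.HallG.MaxFd
import Pool.Agent.Helper294.HallG.OmBad

set_option autoImplicit false

namespace Pool.Agent.Helper294.HallG

open Module Pool.Agent.Helper946.HC Pool.Agent.Helper946.S4 Pool.Agent.Helper294.HallM
open Pool.Agent.Helper294.HallC (del FGM Stb Noe NoeOn ConjAct')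


theorem ef_p_aux {K Γ A : Type} [DivisionRing K] [Finite K] [Group Γ] [AddCommGroup A]
    [Module K A] [DistribMulAction Γ A] (hΓ : PC Γ) (hA : FGM Γ A)
    (hsemi : ∀ (g : Γ) (k : K) (x : A), g • (k • x) = k • (g • x)) :
    EF Γ (⊤ : AddSubgroup A) := by
  have hS : Sys (K) Γ A Γ (MonoidHom.id Γ) := by
    refine ⟨fun g => ⟨RingEquiv.refl _, fun k x => hsemi g k x⟩, ?_, ?_⟩
    · intro g hg
      refine ⟨1, fun a => ?_⟩
      have h1 : g = 1 := hg
      rw [h1, one_smul, one_smul]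
    · obtain ⟨S, hS⟩ := hA
      refine ⟨S, ?_⟩
      apply top_le_iff.1
      intro x _
      have hx : x ∈ AddSubgroup.closure {a : A | ∃ g : Γ, ∃ s ∈ S, a = g • s} := by
        rw [hS]; trivial
      have hle : AddSubgroup.closure {a : A | ∃ g : Γ, ∃ s ∈ S, a = g • s} ≤
          (Submodule.span (K) {x : A | ∃ g : Γ, ∃ s ∈ S, x = g • s}).toAddSubgroup := by
        rw [AddSubgroup.closure_le]
        intro a ha
        exact Submodule.subset_span ha
      exact hle hx
  have hN := sys_noe hΓ (fun x => ⟨x, rfl⟩ : Function.Surjective (MonoidHom.id Γ)) hS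
  obtain ⟨X, hXfd, hXst, hmax⟩ := max_fd hS.semi hN
  obtain ⟨A₂, i1, i2, i3, π, hsurj, hker, heq, hS₂⟩ := quot_sys hS X hXst
  have hFre : Fre (K) Γ A₂ := fre_quot X hXfd hmax π hsurj hker heq
  have hXfin : Finite (↥X) := Module.finite_of_finite (K)
  refine ⟨{WB (K) A₂ (MonoidHom.id Γ)}, ⊤, Set.finite_singleton _, ?_, ?_, ?_⟩
  · intro S hSm
    rw [Set.mem_singleton_iff] at hSm
    refine ⟨K, Γ, A₂, inferInstance, inferInstance, i1, i2, i3, MonoidHom.id Γ, hS₂, ?_,
      hFre, hSm⟩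
    rw [MonoidHom.range_eq_top.2 (fun x => ⟨x, rfl⟩ : Function.Surjective (MonoidHom.id Γ)),
      Subgroup.index_top]
    exact one_ne_zero
  · rw [Subgroup.index_top]
    exact one_ne_zero
  · intro y _ hy
    have hy' := hy _ (Set.mem_singleton _)
    have hdel : ∀ (n : ℕ) (a : A), π ((del y)^[n] a) = (del y)^[n] (π a) := by
      intro n
      induction n with
      | zero => intro a; rfl
      | succ n ih =>
        intro a
        rw [Function.iterate_succ_apply, Function.iterate_succ_apply, ih]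
        congr 1
        unfold del
        rw [map_sub, heq]
    have hsub : {a : A | a ∈ (⊤ : AddSubgroup A) ∧ ∃ n : ℕ, (del y)^[n] a = 0} ⊆ (X : Set A) := by
      rintro a ⟨-, n, hn⟩
      have h1 : (del y)^[n] (π a) = 0 := by rw [← hdel, hn, map_zero]
      have h2 : π a = 0 := by
        by_contra h3
        apply hy'
        refine ⟨1, one_pos, 1, y, ?_, om_bad hS₂.semi y (π a) h3 n h1⟩
        simp
      rw [← hker]
      exact h2
    have hfin : {a : A | a ∈ (⊤ : AddSubgroup A) ∧ ∃ n : ℕ, (del y)^[n] a = 0}.Finite :=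
      (Set.toFinite (X : Set A)).subset hsub
    exact ⟨hfin.toFinset, by rw [hfin.coe_toFinset]⟩

theorem ef_p {Γ A : Type} [Group Γ] [AddCommGroup A] [DistribMulAction Γ A] (hΓ : PC Γ)
    (hA : FGM Γ A) (p : ℕ) (hp : p.Prime) (hpA : ∀ a : A, p • a = 0) :
    EF Γ (⊤ : AddSubgroup A) := by
  have : Fact p.Prime := ⟨hp⟩
  let M : Module (ZMod p) A := AddCommGroup.zmodModule hpA
  have hsemi : ∀ (g : Γ) (k : ZMod p) (x : A), g • (k • x) = k • (g • x) :=
    fun g k x => ZMod.map_smul (ac g : A ≃+ A) k x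
  exact @ef_p_aux (ZMod p) Γ A _ _ _ _ M _ hΓ hA hsemi

end Pool.Agent.Helper294.HallG
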