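import Pool.Agent.Helper294.HallG.Defs
import Pool.Agent.Helper294.HallG.EDefs

set_option autoImplicit false

namespace Pool.Agent.Helper294.HallG

open Module Pool.Agent.Helper946.HC Pool.Agent.Helper946.S4 Pool.Agent.Helper294.HallM
open Pool.Agent.Helper294.HallC (del FGM Stb Noe NoeOn ConjAct')



/-- the operator `g - 1` as a homomorphism. -/
def ef_step_dl {Γ A : Type} [Group Γ] [AddCommGroup A] [DistribMulAction Γ A] (y : Γ) : A →+ A :=
  DistribMulAction.toAddMonoidHom A y - AddMonoidHom.id A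

theorem ef_step_dl_coe {Γ A : Type} [Group Γ] [AddCommGroup A] [DistribMulAction Γ A] (y : Γ) :
    (⇑(ef_step_dl y : A →+ A)) = del y := by
  funext a
  simp [ef_step_dl, del]

/-- the elements of `D` killed by a power of `y - 1`. -/
def ef_step_Om {Γ A : Type} [Group Γ] [AddCommGroup A] [DistribMulAction Γ A] (y : Γ)
    (D : AddSubgroup A) : AddSubgroup A where
  carrier := {a : A | a ∈ D ∧ ∃ n : ℕ, (del y)^[n] a = 0}
  zero_mem' := ⟨D.zero_mem, 0, rfl⟩
  add_mem' := by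
    rintro a b ⟨ha, n, hn⟩ ⟨hb, m, hm⟩
    refine ⟨D.add_mem ha hb, n + m, ?_⟩
    rw [← ef_step_dl_coe] at hn hm ⊢
    rw [iterate_map_add]
    have h1 : (⇑(ef_step_dl y : A →+ A))^[n + m] a = 0 := by
      rw [add_comm, Function.iterate_add_apply, hn, iterate_map_zero]
    have h2 : (⇑(ef_step_dl y : A →+ A))^[n + m] b = 0 := by
      rw [Function.iterate_add_apply, hm, iterate_map_zero]
    rw [h1, h2, add_zero]
  neg_mem' := by
    rintro a ⟨ha, n, hn⟩
    refine ⟨D.neg_mem ha, n, ?_⟩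
    rw [← ef_step_dl_coe] at hn ⊢
    rw [iterate_map_neg, hn, neg_zero]

theorem ef_step_iff {Γ A : Type} [Group Γ] [AddCommGroup A] [DistribMulAction Γ A] (y : Γ)
    (D : AddSubgroup A) : OmFG y D ↔ (AddSubgroup.toIntSubmodule (ef_step_Om y D)).FG := by
  unfold OmFG
  have h : AddSubgroup.closure {a : A | a ∈ D ∧ ∃ n : ℕ, (del y)^[n] a = 0} = ef_step_Om y D :=
    AddSubgroup.closure_eq (ef_step_Om y D)
  rw [h, Submodule.fg_iff_addSubgroup_fg]
  rfl

theorem ef_step_iter {Γ A M : Type} [Group Γ] [AddCommGroup A] [DistribMulAction Γ A]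
    [AddCommGroup M] [DistribMulAction Γ M] (B : AddSubgroup A)
    (hB : Stb Γ B) (φ : ↥B →+ M)
    (heq : ∀ (g : Γ) (x y : ↥B), (y : A) = g • (x : A) → φ y = g • φ x) (y : Γ) (b : ↥B) (n : ℕ) :
    ∃ b' : ↥B, (b' : A) = (del y)^[n] (b : A) ∧ φ b' = (del y)^[n] (φ b) := by
  induction n with
  | zero => exact ⟨b, rfl, rfl⟩
  | succ n ih =>
    obtain ⟨b', h1, h2⟩ := ih
    refine ⟨⟨y • (b' : A), hB y _ b'.2⟩ - b', ?_, ?_⟩
    · rw [Function.iterate_succ_apply', ← h1]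
      rfl
    · rw [Function.iterate_succ_apply', ← h2, map_sub, heq y b' ⟨y • (b' : A), hB y _ b'.2⟩ rfl]
      rfl

theorem ef_step_key {Γ A M : Type} [Group Γ] [AddCommGroup A] [DistribMulAction Γ A]
    [AddCommGroup M] [DistribMulAction Γ M] (C B : AddSubgroup A)
    (hB : Stb Γ B) (hCB : C ≤ B) (φ : ↥B →+ M) (hφ : ∀ x : ↥B, φ x = 0 ↔ (x : A) ∈ C)
    (heq : ∀ (g : Γ) (x y : ↥B), (y : A) = g • (x : A) → φ y = g • φ x) (y : Γ)
    (h1 : OmFG y C) (h2 : OmFG y (⊤ : AddSubgroup M)) : OmFG y B := by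
  rw [ef_step_iff] at h1 h2 ⊢
  set s : Submodule ℤ ↥B :=
    (AddSubgroup.toIntSubmodule (ef_step_Om y B)).comap (B.subtype.toIntLinearMap) with hs
  have hmem : ∀ b : ↥B, b ∈ s ↔ ∃ n : ℕ, (del y)^[n] (b : A) = 0 := by
    intro b
    constructor
    · intro hb
      have hb' : (b : A) ∈ ef_step_Om y B := hb
      exact hb'.2
    · intro hb
      have hb' : (b : A) ∈ ef_step_Om y B := ⟨b.2, hb⟩
      exact hb'
  have hsfg : s.FG := by
    refine Submodule.fg_of_fg_map_of_fg_inf_ker φ.toIntLinearMap ?_ ?_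
    · haveI := isNoetherian_of_fg_of_noetherian _ h2
      refine (isNoetherian_submodule.1 this) _ ?_
      rintro m ⟨b, hb, rfl⟩
      obtain ⟨n, hn⟩ := (hmem b).1 hb
      obtain ⟨b', hb1, hb2⟩ := ef_step_iter B hB φ heq y b n
      have h3 : b' = 0 := by
        apply Subtype.ext
        rw [hb1, hn]
        rfl
      have h4 : φ b ∈ ef_step_Om y (⊤ : AddSubgroup M) := by
        refine ⟨trivial, n, ?_⟩
        rw [← hb2, h3, map_zero]
      exact h4
    · refine Submodule.fg_of_fg_map_injective (B.subtype.toIntLinearMap) ?_ ?_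
      · exact Subtype.val_injective
      · have h3 : Submodule.map (B.subtype.toIntLinearMap) (s ⊓ LinearMap.ker φ.toIntLinearMap) =
            AddSubgroup.toIntSubmodule (ef_step_Om y C) := by
          ext a
          constructor
          · rintro ⟨b, ⟨hb1, hb2⟩, rfl⟩
            have hb3 : φ b = 0 := hb2
            have h4 : (b : A) ∈ ef_step_Om y C := ⟨(hφ b).1 hb3, (hmem b).1 hb1⟩
            exact h4
          · intro ha
            have ha' : a ∈ ef_step_Om y C := ha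
            refine ⟨⟨a, hCB ha'.1⟩, ⟨(hmem _).2 ha'.2, ?_⟩, rfl⟩
            have h5 : φ ⟨a, hCB ha'.1⟩ = 0 := (hφ _).2 ha'.1
            exact h5
        rw [h3]
        exact h1
  have h6 : s.map (B.subtype.toIntLinearMap) = AddSubgroup.toIntSubmodule (ef_step_Om y B) := by
    ext a
    constructor
    · rintro ⟨b, hb, rfl⟩
      exact hb
    · intro ha
      have ha' : a ∈ ef_step_Om y B := ha
      exact ⟨⟨a, ha'.1⟩, (hmem _).2 ha'.2, rfl⟩
  rw [← h6]
  exact hsfg.map _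

theorem ef_step {Γ A M : Type} [Group Γ] [AddCommGroup A] [DistribMulAction Γ A]
    [AddCommGroup M] [DistribMulAction Γ M] (C B : AddSubgroup A) (hC : Stb Γ C)
    (hB : Stb Γ B) (hCB : C ≤ B) (φ : ↥B →+ M) (hφ : ∀ x : ↥B, φ x = 0 ↔ (x : A) ∈ C)
    (heq : ∀ (g : Γ) (x y : ↥B), (y : A) = g • (x : A) → φ y = g • φ x)
    (h1 : EF Γ C) (h2 : EF Γ (⊤ : AddSubgroup M)) : EF Γ B := by
  obtain ⟨F₁, Γ₁, hf1, hb1, hi1, h1⟩ := h1
  obtain ⟨F₂, Γ₂, hf2, hb2, hi2, h2⟩ := h2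
  refine ⟨F₁ ∪ F₂, Γ₁ ⊓ Γ₂, hf1.union hf2, ?_, Subgroup.index_inf_ne_zero hi1 hi2, ?_⟩
  · rintro S (hS | hS)
    · exact hb1 S hS
    · exact hb2 S hS
  · intro y hy hS
    exact ef_step_key C B hB hCB φ hφ heq y
      (h1 y hy.1 fun S h => hS S (Or.inl h)) (h2 y hy.2 fun S h => hS S (Or.inr h))

end Pool.Agent.Helper294.HallG
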