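import Pool.Agent.Helper294.HallG.Defs
import Pool.Agent.Helper294.HallG.EDefs
import Pool.Agent.Helper294.HallC.NoeOfFg
import Pool.Agent.Helper294.HallC.SecModel
import Pool.Agent.Helper294.HallG.Ef0
import Pool.Agent.Helper294.HallG.EfP
import Pool.Agent.Helper294.HallG.EfStep

set_option autoImplicit false

namespace Pool.Agent.Helper294.HallG

open Module Pool.Agent.Helper946.HC Pool.Agent.Helper946.S4 Pool.Agent.Helper294.HallM
open Pool.Agent.Helper294.HallC (del FGM Stb Noe NoeOn ConjAct')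


theorem ef_all_stb {Γ A : Type} [Group Γ] [AddCommGroup A] [DistribMulAction Γ A]
    (C : AddSubgroup A) (hC : Stb Γ C) (a : A) :
    Stb Γ (C ⊔ AddSubgroup.closure {x : A | ∃ g : Γ, x = g • a}) := by
  intro g x hx
  have h : C ⊔ AddSubgroup.closure {x : A | ∃ g : Γ, x = g • a} ≤
      (C ⊔ AddSubgroup.closure {x : A | ∃ g : Γ, x = g • a}).comap
        (DistribSMul.toAddMonoidHom A g) := by
    refine sup_le ?_ ?_
    · intro y hy
      exact AddSubgroup.mem_comap.2 ((le_sup_left : C ≤ _) (hC g y hy))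
    · rw [AddSubgroup.closure_le]
      rintro y ⟨h, rfl⟩
      refine AddSubgroup.mem_comap.2 ?_
      refine (le_sup_right : AddSubgroup.closure {x : A | ∃ g : Γ, x = g • a} ≤ _) ?_
      refine AddSubgroup.subset_closure ⟨g * h, ?_⟩
      rw [mul_smul]; rfl
  exact h hx

theorem ef_all_grow {Γ A : Type} [Group Γ] [AddCommGroup A] [DistribMulAction Γ A] (hΓ : PC Γ)
    (C : AddSubgroup A) (hC : Stb Γ C) (h1 : EF Γ C) (a : A)
    (hcase : (∃ p : ℕ, p.Prime ∧ p • a ∈ C) ∨ (∀ (n : ℕ) (x : A), 0 < n → n • x ∈ C → x ∈ C)) :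
    EF Γ (C ⊔ AddSubgroup.closure {x : A | ∃ g : Γ, x = g • a}) := by
  obtain ⟨M, i1, i2, φ, hfg, hsurj, hker, heq⟩ :=
    Pool.Agent.Helper294.HallC.sec_model C hC a
  refine ef_step C _ hC (ef_all_stb C hC a) le_sup_left φ hker heq h1 ?_
  rcases hcase with ⟨p, hp, hpa⟩ | htf
  · refine ef_p hΓ hfg p hp ?_
    intro m
    obtain ⟨x, rfl⟩ := hsurj m
    rw [← map_nsmul, hker]
    have h : C ⊔ AddSubgroup.closure {x : A | ∃ g : Γ, x = g • a} ≤
        C.comap (nsmulAddMonoidHom (α := A) p) := by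
      refine sup_le ?_ ?_
      · intro y hy
        exact AddSubgroup.mem_comap.2 (C.nsmul_mem hy p)
      · rw [AddSubgroup.closure_le]
        rintro y ⟨g, rfl⟩
        refine AddSubgroup.mem_comap.2 ?_
        have : p • (g • a) = g • (p • a) := (map_nsmul (DistribSMul.toAddMonoidHom A g) p a).symm
        change p • (g • a) ∈ C
        rw [this]
        exact hC g _ hpa
    exact h x.2
  · refine ef_0 hΓ hfg ?_
    intro n m hn hm
    obtain ⟨x, rfl⟩ := hsurj m
    rw [← map_nsmul, hker] at hm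
    rw [hker]
    exact htf n x hn hm

theorem ef_all_case {A : Type} [AddCommGroup A] (C : AddSubgroup A) (hne : C ≠ ⊤) :
    ∃ a : A, a ∉ C ∧ ((∃ p : ℕ, p.Prime ∧ p • a ∈ C) ∨
      (∀ (n : ℕ) (x : A), 0 < n → n • x ∈ C → x ∈ C)) := by
  classical
  by_cases h : ∃ a : A, a ∉ C ∧ ∃ n : ℕ, 0 < n ∧ n • a ∈ C
  · obtain ⟨a, ha, hn⟩ := h
    have hs := Nat.find_spec hn
    set n := Nat.find hn with hndef
    have hn1 : n ≠ 1 := by
      intro h1
      rw [h1, one_smul] at hs
      exact ha hs.2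
    obtain ⟨p, hp, m, hm⟩ := Nat.exists_prime_and_dvd hn1
    have hm0 : 0 < m := by
      rcases Nat.eq_zero_or_pos m with h0 | h0
      · rw [h0, mul_zero] at hm
        exact absurd hs.1 (by omega)
      · exact h0
    have hmn : m < n := by
      rw [hm]
      exact (lt_mul_iff_one_lt_left hm0).2 hp.one_lt
    refine ⟨m • a, ?_, Or.inl ⟨p, hp, ?_⟩⟩
    · intro hma
      exact Nat.find_min hn hmn ⟨hm0, hma⟩
    · rw [← mul_smul, ← hm]
      exact hs.2
  · push Not at h
    obtain ⟨a, ha⟩ : ∃ a, a ∉ C := by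
      by_contra hcon
      push Not at hcon
      exact hne (eq_top_iff.2 fun x _ => hcon x)
    refine ⟨a, ha, Or.inr ?_⟩
    intro n x hn hx
    by_contra hxC
    exact h x hxC n hn hx

theorem ef_all {Γ A : Type} [Group Γ] [AddCommGroup A] [DistribMulAction Γ A] (hΓ : PC Γ)
    (hA : FGM Γ A) : EF Γ (⊤ : AddSubgroup A) := by
  classical
  by_contra hcon
  have hbot : EF Γ (⊥ : AddSubgroup A) := by
    refine ⟨∅, ⊤, Set.finite_empty, by simp, by simp, ?_⟩
    intro y _ _
    unfold OmFG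
    have : AddSubgroup.closure {a : A | a ∈ (⊥ : AddSubgroup A) ∧ ∃ n : ℕ, (del y)^[n] a = 0}
        = ⊥ := by
      rw [eq_bot_iff, AddSubgroup.closure_le]
      rintro a ⟨ha, _⟩
      exact ha
    rw [this]
    exact ⟨∅, by simp⟩
  have hgrow : ∀ C : {C : AddSubgroup A // Stb Γ C ∧ EF Γ C},
      ∃ D : {C : AddSubgroup A // Stb Γ C ∧ EF Γ C}, C.1 < D.1 := by
    rintro ⟨C, hC, hE⟩
    have hne : C ≠ ⊤ := by
      rintro rfl
      exact hcon hE
    obtain ⟨a, ha, hcase⟩ := ef_all_case C hne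
    refine ⟨⟨C ⊔ AddSubgroup.closure {x : A | ∃ g : Γ, x = g • a}, ef_all_stb C hC a,
      ef_all_grow hΓ C hC hE a hcase⟩, ?_⟩
    refine lt_of_le_of_ne le_sup_left ?_
    intro heq
    apply ha
    have h2 : a ∈ C ⊔ AddSubgroup.closure {x : A | ∃ g : Γ, x = g • a} :=
      (le_sup_right : AddSubgroup.closure {x : A | ∃ g : Γ, x = g • a} ≤ _)
        (AddSubgroup.subset_closure ⟨1, (one_smul Γ a).symm⟩)
    have heq' : C = C ⊔ AddSubgroup.closure {x : A | ∃ g : Γ, x = g • a} := heq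
    rw [heq']
    exact h2
  choose nx hnx using hgrow
  let f : ℕ → {C : AddSubgroup A // Stb Γ C ∧ EF Γ C} :=
    fun n => Nat.rec ⟨⊥, by
      intro g x hx
      rw [AddSubgroup.mem_bot] at hx ⊢
      rw [hx, smul_zero], hbot⟩ (fun _ C => nx C) n
  have hf : ∀ n, (f n).1 < (f (n + 1)).1 := by
    intro n
    have h1 : f (n + 1) = nx (f n) := rfl
    rw [h1]
    exact hnx (f n)
  obtain ⟨n, hn⟩ := Pool.Agent.Helper294.HallC.noe_of_fg hΓ hA (fun n => (f n).1)
    (monotone_nat_of_le_succ fun n => (hf n).le) (fun n => (f n).2.1)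
  have := hn (n + 1) (Nat.le_succ n)
  exact absurd this (hf n).ne'

end Pool.Agent.Helper294.HallG
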