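import Pool.Agent.Helper294.HallG.Defs
import Pool.Agent.Helper294.HX.HCNoeth

set_option autoImplicit false

namespace Pool.Agent.Helper294.HallG

open Module Pool.Agent.Helper946.HC Pool.Agent.Helper946.S4 Pool.Agent.Helper294.HallM


theorem fre_fi_gm_fd {K G A : Type} [DivisionRing K] [Group G] [AddCommGroup A] [Module K A]
    [DistribMulAction G A] (hs : ∀ g : G, Semi K (ac g : A ≃+ A)) (t : G) (W : Submodule K A)
    (hW : FiniteDimensional K W) : FiniteDimensional K (gm t W : Submodule K A) := by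
  classical
  obtain ⟨S, hS⟩ := (Submodule.fg_iff_finiteDimensional W).2 hW
  obtain ⟨σ, hσ⟩ := hs t
  have hσ' : ∀ (k : K) (x : A), t • (k • x) = σ k • (t • x) := hσ
  have h1 : (gm t W : Submodule K A) ≤ Submodule.span K ((S.image (fun x => t • x) : Finset A) : Set A) := by
    unfold gm
    rw [Submodule.span_le]
    rintro y ⟨x, hx, rfl⟩
    rw [← hS] at hx
    refine Submodule.span_induction (p := fun x _ => t • x ∈ Submodule.span K ((S.image (fun x => t • x) : Finset A) : Set A)) ?_ ?_ ?_ ?_ hx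
    · intro x hx
      apply Submodule.subset_span
      rw [Finset.coe_image]
      exact ⟨x, hx, rfl⟩
    · rw [smul_zero]; exact Submodule.zero_mem _
    · intro x y _ _ h1 h2
      rw [smul_add]
      exact Submodule.add_mem _ h1 h2
    · intro k x _ h
      rw [hσ']
      exact Submodule.smul_mem _ _ h
  have h2 : FiniteDimensional K
      (Submodule.span K ((S.image (fun x => t • x) : Finset A) : Set A) : Submodule K A) :=
    FiniteDimensional.span_finset K _
  exact Submodule.finiteDimensional_of_le h1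

theorem fre_fi {K G A : Type} [DivisionRing K] [Group G] [AddCommGroup A] [Module K A]
    [DistribMulAction G A] (hs : ∀ g : G, Semi K (ac g : A ≃+ A)) (G₁ : Subgroup G)
    (hfi : G₁.index ≠ 0) (hF : Fre K G A) : Fre K ↥G₁ A := by
  intro W hW hst
  have hst' : ∀ h ∈ G₁, ∀ x ∈ W, h • x ∈ W := fun h hh x hx =>
    hst ⟨h, hh⟩ (Subgroup.mem_top _) x hx
  haveI : G₁.FiniteIndex := ⟨hfi⟩
  haveI : Finite (G ⧸ G₁) := inferInstance
  obtain ⟨W', hW'⟩ : ∃ W' : Submodule K A, W' = ⨆ c : G ⧸ G₁, gm (Quotient.out c) W := ⟨_, rfl⟩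
  haveI : ∀ c : G ⧸ G₁, FiniteDimensional K (gm (Quotient.out c) W : Submodule K A) :=
    fun c => fre_fi_gm_fd hs _ W hW
  have hfd : FiniteDimensional K W' := by
    rw [hW']
    infer_instance
  -- translates are contained in W'
  have htr : ∀ (g : G), ∀ w ∈ W, g • w ∈ W' := by
    intro g w hw
    rw [hW']
    apply Submodule.mem_iSup_of_mem (QuotientGroup.mk g : G ⧸ G₁)
    rw [mem_gm hs]
    obtain ⟨t, ht⟩ : ∃ t : G, t = Quotient.out (QuotientGroup.mk g : G ⧸ G₁) := ⟨_, rfl⟩
    have h1 : (QuotientGroup.mk t : G ⧸ G₁) = QuotientGroup.mk g := by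
      rw [ht]
      exact QuotientGroup.out_eq' _
    rw [← ht]
    refine ⟨(t⁻¹ * g) • w, hst' _ (QuotientGroup.eq.1 h1) w hw, ?_⟩
    rw [smul_smul, mul_inv_cancel_left]
  have hstab : St (⊤ : Subgroup G) W' := by
    intro g _ x hx
    rw [hW'] at hx
    refine Submodule.iSup_induction _ (motive := fun x => g • x ∈ W') hx ?_ ?_ ?_
    · intro c x hx
      rw [mem_gm hs] at hx
      obtain ⟨w, hw, rfl⟩ := hx
      rw [smul_smul]
      exact htr _ w hw
    · show g • (0 : A) ∈ W'
      rw [smul_zero]; exact Submodule.zero_mem _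
    · intro x y h1 h2
      show g • (x + y) ∈ W'
      rw [smul_add]
      exact Submodule.add_mem _ h1 h2
  have h0 := hF W' hfd hstab
  rw [eq_bot_iff]
  intro x hx
  have h1 := htr 1 x hx
  rw [one_smul, h0] at h1
  exact h1

end Pool.Agent.Helper294.HallG
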