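import Pool.Agent.Helper294.HallG.Defs

set_option autoImplicit false

namespace Pool.Agent.Helper294.HallG

open Module Pool.Agent.Helper946.HC Pool.Agent.Helper946.S4 Pool.Agent.Helper294.HallM


theorem sys_fi {K G A Q : Type} [DivisionRing K] [Group G] [AddCommGroup A] [Module K A]
    [DistribMulAction G A] [Group Q] {ρ : G →* Q} (hS : Sys K G A Q ρ) (G₀ : Subgroup G)
    (hfi : G₀.index ≠ 0) (Q₀ : Type) [Group Q₀] (ρ₀ : ↥G₀ →* Q₀)
    (hker : ∀ g : ↥G₀, ρ₀ g = 1 → ρ (g : G) = 1) : Sys K ↥G₀ A Q₀ ρ₀ := by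
  classical
  refine ⟨fun g => ?_, fun g hg => ?_, ?_⟩
  · obtain ⟨σ, hσ⟩ := hS.semi (g : G)
    exact ⟨σ, fun k x => hσ k x⟩
  · obtain ⟨c, hc⟩ := hS.scal (g : G) (hker g hg)
    exact ⟨c, fun a => hc a⟩
  · obtain ⟨S, hSp⟩ := hS.fg
    have hfi' : G₀.FiniteIndex := ⟨hfi⟩
    have hfin : Finite (G ⧸ G₀) := inferInstance
    have hft : Fintype (G ⧸ G₀) := Fintype.ofFinite _
    refine ⟨Finset.image₂ (fun (c : G) (s : A) => c • s)
      (Finset.univ.image (fun q : G ⧸ G₀ => (Quotient.out q)⁻¹)) S, ?_⟩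
    rw [eq_top_iff, ← hSp]
    refine Submodule.span_mono ?_
    rintro x ⟨g, s, hs, rfl⟩
    have h1 : (Quotient.out (QuotientGroup.mk g⁻¹ : G ⧸ G₀))⁻¹ * g⁻¹ ∈ G₀ := by
      rw [← QuotientGroup.eq]
      exact Quotient.out_eq' _
    refine ⟨⟨_, h1⟩⁻¹, (Quotient.out (QuotientGroup.mk g⁻¹ : G ⧸ G₀))⁻¹ • s, ?_, ?_⟩
    · rw [Finset.mem_image₂]
      exact ⟨_, Finset.mem_image_of_mem _ (Finset.mem_univ _), s, hs, rfl⟩
    · rw [Subgroup.smul_def, smul_smul]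
      congr 1
      simp

end Pool.Agent.Helper294.HallG
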