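import Pool.Agent.Helper294.HallG.Defs
import Pool.Agent.Helper294.HallG.BadConj
import Pool.Agent.Helper294.HallG.BadPow
import Pool.Agent.Helper294.HallG.BadScal
import Pool.Agent.Helper294.HallG.FreFi
import Pool.Agent.Helper294.HallG.SysFi

set_option autoImplicit false

namespace Pool.Agent.Helper294.HallG

open Module Pool.Agent.Helper946.HC Pool.Agent.Helper946.S4 Pool.Agent.Helper294.HallM


theorem gen_fi1 {K G A Q : Type} [DivisionRing K] [Group G] [AddCommGroup A] [Module K A]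
    [DistribMulAction G A] [Group Q] {ρ : G →* Q} (hS : Sys K G A Q ρ) (hF : Fre K G A)
    (Q₀ : Subgroup Q) [Q₀.Normal] (h0 : Q₀.index ≠ 0) (hr : Q₀ ≤ ρ.range) :
    ∃ F : Set (Set ↥Q₀), F.Finite ∧ (∀ T ∈ F, SBadSet ↥Q₀ T) ∧
      ∀ y : ↥Q₀, (y : Q) ∈ WB K A ρ → ∃ T ∈ F, y ∈ T := by
  have hN : Q₀.Normal := inferInstance
  have hfi : (Q₀.comap ρ).index ≠ 0 := by
    rw [Subgroup.index_comap]
    exact ne_zero_of_dvd_ne_zero h0 (Subgroup.relIndex_dvd_index_of_normal _ _)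
  obtain ⟨P, hP⟩ : ∃ P : Q → (↥(Q₀.comap ρ) →* ↥Q₀), ∀ q g, (P q g : Q) = q * ρ (g : G) * q⁻¹ :=
    ⟨fun q => { toFun := fun g => ⟨q * ρ (g : G) * q⁻¹, hN.conj_mem _ g.2 q⟩
                map_one' := by
                  apply Subtype.ext
                  simp
                map_mul' := by
                  intro a b
                  apply Subtype.ext
                  simp [mul_assoc] }, fun q g => rfl⟩
  have hsurj : ∀ q, Function.Surjective (P q) := by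
    intro q y
    have h1 : q⁻¹ * (y : Q) * q ∈ Q₀ := by
      have := hN.conj_mem (y : Q) y.2 q⁻¹
      rwa [inv_inv] at this
    obtain ⟨h, hh⟩ := hr h1
    have hmem : h ∈ Q₀.comap ρ := by rw [Subgroup.mem_comap, hh]; exact h1
    refine ⟨⟨h, hmem⟩, Subtype.ext ?_⟩
    rw [hP]
    show q * ρ h * q⁻¹ = y
    rw [hh]
    group
  have hsys : ∀ q, Sys K ↥(Q₀.comap ρ) A ↥Q₀ (P q) := by
    intro q
    refine sys_fi hS (Q₀.comap ρ) hfi ↥Q₀ (P q) ?_
    intro g hg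
    have h1 := hP q g
    rw [hg, Subgroup.coe_one] at h1
    have h2 : q * ρ (g : G) = q := by
      have := congrArg (· * q) h1
      simp only [one_mul, inv_mul_cancel_right] at this
      exact this.symm
    exact mul_eq_left.1 h2
  obtain ⟨T, hT⟩ : ∃ T : Q → Set ↥Q₀, ∀ q, T q = {y | ∃ g : ↥(Q₀.comap ρ), P q g = y ∧
      BadEl K A g} := ⟨_, fun _ => rfl⟩
  haveI : Q₀.FiniteIndex := ⟨h0⟩
  refine ⟨Set.range fun c : Q ⧸ Q₀ => T (Quotient.out c), Set.finite_range _, ?_, ?_⟩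
  · rintro _ ⟨c, rfl⟩
    exact ⟨K, ↥(Q₀.comap ρ), A, inferInstance, inferInstance, inferInstance, inferInstance,
      inferInstance, P (Quotient.out c), hsys _, hsurj _,
      fre_fi hS.semi (Q₀.comap ρ) hfi hF, hT _⟩
  · rintro y ⟨n, hn, q, g, hg, hbad⟩
    refine ⟨_, ⟨(q : Q ⧸ Q₀), rfl⟩, ?_⟩
    obtain ⟨qc, hqc⟩ : ∃ qc, qc = Quotient.out (q : Q ⧸ Q₀) := ⟨_, rfl⟩
    show y ∈ T (Quotient.out (q : Q ⧸ Q₀))
    rw [← hqc, hT]
    have hs : qc⁻¹ * q ∈ Q₀ := by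
      rw [← QuotientGroup.eq, hqc]
      exact QuotientGroup.out_eq' _
    obtain ⟨h, hh⟩ := hr hs
    have hρ1 : ρ (h * g * h⁻¹) = qc⁻¹ * (y : Q) ^ n * qc := by
      rw [map_mul, map_mul, map_inv, hh, hg]
      group
    have hmem1 : h * g * h⁻¹ ∈ Q₀.comap ρ := by
      rw [Subgroup.mem_comap, hρ1]
      have := hN.conj_mem ((y : Q) ^ n) (Q₀.pow_mem y.2 n) qc⁻¹
      rwa [inv_inv] at this
    have hbad1 : BadEl K A (⟨h * g * h⁻¹, hmem1⟩ : ↥(Q₀.comap ρ)) := by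
      have := bad_conj hS.semi g h hbad
      exact this
    obtain ⟨g₂, hg₂⟩ := hsurj qc y
    have heq : P qc ⟨h * g * h⁻¹, hmem1⟩ = P qc (g₂ ^ n) := by
      rw [map_pow, hg₂]
      apply Subtype.ext
      rw [hP]
      show qc * ρ (h * g * h⁻¹) * qc⁻¹ = ((y ^ n : ↥Q₀) : Q)
      rw [hρ1, Subgroup.coe_pow]
      group
    have hbad2 := bad_scal (hsys qc).scal _ _ heq hbad1
    exact ⟨g₂, hg₂, bad_pow (hsys qc).semi g₂ n hn hbad2⟩

end Pool.Agent.Helper294.HallG
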