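import Pool.Agent.Helper294.HallG.Defs
import Pool.Agent.Helper294.HallG.GenFi1

set_option autoImplicit false

namespace Pool.Agent.Helper294.HallG

open Module Pool.Agent.Helper946.HC Pool.Agent.Helper946.S4 Pool.Agent.Helper294.HallM


theorem gen_fi {Q : Type} [Group Q] (h : ∀ Q₀ : Subgroup Q, Q₀.index ≠ 0 → GenFor ↥Q₀) :
    GenW Q := by
  intro F hF hbad
  have h1 : ∀ S : ↥F, ∃ R : Subgroup Q, R.index ≠ 0 ∧ ∀ (Q₀ : Subgroup Q), Q₀.Normal →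
      Q₀.index ≠ 0 → Q₀ ≤ R → ∃ F' : Set (Set ↥Q₀), F'.Finite ∧ (∀ T ∈ F', SBadSet ↥Q₀ T) ∧
        ∀ y : ↥Q₀, (y : Q) ∈ (S : Set Q) → ∃ T ∈ F', y ∈ T := by
    intro S
    obtain ⟨K, G, A, _, _, _, _, _, ρ, hS, hρ, hFre, hSeq⟩ := hbad S S.2
    refine ⟨ρ.range, hρ, ?_⟩
    intro Q₀ hn h0 hle
    rw [hSeq]
    exact gen_fi1 hS hFre Q₀ h0 hle
  choose R hR1 hR2 using h1
  have : Finite ↥F := hF.to_subtype
  have hidx : (⨅ S : ↥F, R S).index ≠ 0 := Subgroup.index_iInf_ne_zero hR1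
  have hfi : (⨅ S : ↥F, R S).FiniteIndex := ⟨hidx⟩
  have hidx2 : (⨅ S : ↥F, R S).normalCore.index ≠ 0 :=
    (Subgroup.finiteIndex_normalCore (H := ⨅ S : ↥F, R S)).index_ne_zero
  have hle : ∀ S : ↥F, (⨅ S : ↥F, R S).normalCore ≤ R S := fun S =>
    (Subgroup.normalCore_le _).trans (iInf_le R S)
  obtain ⟨Q₀, hQ₀⟩ : ∃ Q₀, Q₀ = (⨅ S : ↥F, R S).normalCore := ⟨_, rfl⟩
  have hn : Q₀.Normal := by
    rw [hQ₀]; exact Subgroup.normalCore_normal _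
  rw [← hQ₀] at hidx2 hle
  have h2 := fun S => hR2 S Q₀ hn hidx2 (hle S)
  choose F' hF1 hF2 hF3 using h2
  obtain ⟨y, hy⟩ := h Q₀ hidx2 (⋃ S : ↥F, F' S) (Set.finite_iUnion hF1) (by
    intro T hT
    obtain ⟨S, hS⟩ := Set.mem_iUnion.1 hT
    exact hF2 S T hS)
  refine ⟨(y : Q), ?_⟩
  intro S hS hyS
  obtain ⟨T, hT, hyT⟩ := hF3 ⟨S, hS⟩ y hyS
  exact hy T (Set.mem_iUnion.2 ⟨⟨S, hS⟩, hT⟩) hyT

end Pool.Agent.Helper294.HallG
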