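import Pool.Agent.Helper294.HallG.Defs

set_option autoImplicit false

namespace Pool.Agent.Helper294.HallG

open Module Pool.Agent.Helper946.HC Pool.Agent.Helper946.S4 Pool.Agent.Helper294.HallM

theorem gen_base_bot {K G A Q : Type} [DivisionRing K] [Group G] [AddCommGroup A] [Module K A]
    [DistribMulAction G A] [Group Q] [Finite Q] {ρ : G →* Q} (hsys : Sys K G A Q ρ)
    (hF : Fre K G A) : (⊤ : Submodule K A) = ⊥ := by
  obtain ⟨S, hS⟩ := hsys.fg
  classical
  let gq : Q → G := fun q => if h : ∃ g, ρ g = q then h.choose else 1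
  have hgq : ∀ g, ρ (gq (ρ g)) = ρ g := by
    intro g
    have h : ∃ g', ρ g' = ρ g := ⟨g, rfl⟩
    simp only [gq, dif_pos h]
    exact h.choose_spec
  let T : Set A := Set.range (fun p : Q × S => gq p.1 • (p.2 : A))
  have hT : T.Finite := Set.finite_range _
  have hspan : Submodule.span K T = ⊤ := by
    rw [eq_top_iff, ← hS, Submodule.span_le]
    rintro x ⟨g, s, hs, rfl⟩
    obtain ⟨c, hc⟩ := hsys.scal ((gq (ρ g))⁻¹ * g) (by rw [map_mul, map_inv, hgq, inv_mul_cancel])
    obtain ⟨σ, hσ⟩ := hsys.semi (gq (ρ g))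
    have h1 : g • s = σ c • (gq (ρ g) • s) := by
      have h2 : g • s = gq (ρ g) • (((gq (ρ g))⁻¹ * g) • s) := by
        rw [smul_smul, mul_inv_cancel_left]
      rw [h2, hc s]
      exact hσ c s
    rw [h1]
    exact Submodule.smul_mem _ _ (Submodule.subset_span ⟨(ρ g, ⟨s, hs⟩), rfl⟩)
  have hfin : Module.Finite K A := ⟨⟨hT.toFinset, by rw [Set.Finite.coe_toFinset, hspan]⟩⟩
  apply hF ⊤ inferInstance
  intro g _ x _
  exact Submodule.mem_top

theorem gen_base {Q : Type} [Group Q] [Finite Q] : GenFor Q := by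
  intro F _ hF
  refine ⟨1, ?_⟩
  intro S hS h1
  obtain ⟨K, G, A, _, _, _, _, _, ρ, hsys, _, hfre, rfl⟩ := hF S hS
  obtain ⟨g, _, W, hW, _, _⟩ := h1
  apply hW
  rw [eq_bot_iff, ← gen_base_bot hsys hfre]
  exact le_top

end Pool.Agent.Helper294.HallG
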