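import Pool.Agent.Helper294.HallG.Defs

set_option autoImplicit false

namespace Pool.Agent.Helper294.HallG

open Module Pool.Agent.Helper946.HC Pool.Agent.Helper946.S4 Pool.Agent.Helper294.HallM


theorem fre_sub {K G A : Type} [DivisionRing K] [Group G] [AddCommGroup A] [Module K A]
    [DistribMulAction G A] (hF : Fre K G A) (B : Submodule K A) [DistribMulAction G ↥B]
    (hc : ∀ (g : G) (x : ↥B), ((g • x : ↥B) : A) = g • (x : A)) : Fre K G ↥B := by
  intro W hW hSt
  have h1 : W.map B.subtype = ⊥ := by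
    refine hF _ ?_ ?_
    · exact Module.Finite.map W B.subtype
    · rintro g - x hx
      obtain ⟨w, hw, rfl⟩ := (Submodule.mem_map).1 hx
      refine (Submodule.mem_map).2 ⟨g • w, hSt g (Subgroup.mem_top g) w hw, ?_⟩
      exact hc g w
  rw [Submodule.eq_bot_iff]
  intro x hx
  have h2 : (x : A) ∈ W.map B.subtype := (Submodule.mem_map).2 ⟨x, hx, rfl⟩
  rw [h1, Submodule.mem_bot] at h2
  exact Subtype.ext h2

end Pool.Agent.Helper294.HallG
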