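import Pool.Agent.Helper294.HallG.Defs
import Pool.Agent.Helper294.HX.HCPoly
import Pool.Agent.Helper294.HX.PHRec
import Pool.Agent.Helper294.HX.PHOH

set_option autoImplicit false

namespace Pool.Agent.Helper294.HallG

open Pool.Agent.Helper946.HC hiding Cross Rec Val comb Compat Desc
open Module Pool.Agent.Helper946.S4 Pool.Agent.Helper294.HallM Pool.Agent.Helper946.PH3 PHall


theorem pe_nr_res {r : ℕ} (v : Fin r → ℤ) (h : ∀ k : ℕ, ∃ w : Fin r → ℤ, v = (3 ^ k : ℕ) • w) :
    v = 0 := by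
  funext i
  by_contra hne
  have hne' : v i ≠ 0 := hne
  obtain ⟨w, hw⟩ := h (v i).natAbs
  have h1 : v i = (3 ^ (v i).natAbs : ℕ) • w i := congrFun hw i
  have h2 : ((3 ^ (v i).natAbs : ℕ) : ℤ) ∣ v i := by
    refine ⟨w i, ?_⟩
    rw [nsmul_eq_mul] at h1
    exact h1
  have h3 : (3 ^ (v i).natAbs : ℕ) ∣ (v i).natAbs := by
    have := Int.natAbs_dvd_natAbs.2 h2
    rwa [Int.natAbs_natCast] at this
  have h4 := Nat.le_of_dvd (Int.natAbs_pos.2 hne') h3
  have h5 : (v i).natAbs < 3 ^ (v i).natAbs := Nat.lt_pow_self (by norm_num)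
  omega

theorem pe_nr {Q : Type} [Group Q] {r : ℕ} (hr : 0 < r) {ε : Multiplicative (Fin r → ℤ) →* Q}
    (hinj : Function.Injective ε) (hPE : PE ε) (q : Q) (M : (Fin r → ℤ) ≃+ (Fin r → ℤ))
    (hM : ∀ v, q * ε (Multiplicative.ofAdd v) * q⁻¹ = ε (Multiplicative.ofAdd (M v))) :
    (∀ (m : ℕ) (v : Fin r → ℤ), 0 < m → ∑ i ∈ Finset.range m, (⇑M)^[i] v = 0 → v = 0) ∧
      ∃ φ : (Fin r → ℤ) →+ ℝ, Function.Injective φ ∧ Rec φ M := by
  obtain ⟨⟨π, hπ, hq⟩, h3⟩ := hPE
  obtain ⟨lam, hlam⟩ := hq q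
  have hMπ : ∀ v, π (M v) = lam * π v := fun v => hlam v (M v) (hM v)
  have h3q : ∀ v, ∃ u, M v = v + 3 • u := fun v => h3 q v (M v) (hM v)
  have hit : ∀ (i : ℕ) (v : Fin r → ℤ), π ((⇑M)^[i] v) = lam ^ i * π v := by
    intro i
    induction i with
    | zero => intro v; simp
    | succ i ih =>
      intro v
      rw [Function.iterate_succ_apply', hMπ, ih, pow_succ]
      ring
  have hπ0 : ∀ v, v ≠ 0 → π v ≠ 0 := by
    intro v hv h
    exact hv (hπ (by rw [h, map_zero]))
  refine ⟨?_, ?_⟩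
  · intro m v hm hs
    by_contra hv
    have hpv := hπ0 v hv
    have h1 : (∑ i ∈ Finset.range m, lam ^ i) * π v = 0 := by
      have h2 := congrArg π hs
      rw [map_sum, map_zero] at h2
      rw [Finset.sum_mul, ← h2]
      exact Finset.sum_congr rfl fun i _ => (hit i v).symm
    have h2 : ∑ i ∈ Finset.range m, lam ^ i = 0 := (mul_eq_zero.1 h1).resolve_right hpv
    have h4 : lam ^ m = 1 := by
      have h5 := geom_sum_mul lam m
      rw [h2, zero_mul] at h5
      exact (sub_eq_zero.1 h5.symm)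
    have h5 : (⇑M)^[m] v = v := hπ (by rw [hit, h4, one_mul])
    have h6 : M.toAddMonoidHom v = v := by
      refine Pool.Agent.Helper946.HC.mink ?_ pe_nr_res M.toAddMonoidHom h3q m hm v h5
      intro n w hn hw
      funext i
      have h7 : n • w i = 0 := congrFun hw i
      rcases smul_eq_zero.1 h7 with h8 | h8
      · omega
      · exact h8
    have h7 : lam * π v = π v := by
      rw [← hMπ]; exact congrArg π h6
    have h8 : lam = 1 := by
      have : (lam - 1) * π v = 0 := by rw [sub_mul, h7, one_mul, sub_self]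
      exact sub_eq_zero.1 ((mul_eq_zero.1 this).resolve_right hpv)
    rw [h8] at h2
    simp at h2
    omega
  · have hlam0 : lam ≠ 0 := by
      intro h0
      let v : Fin r → ℤ := fun _ => 1
      have hv : v ≠ 0 := by
        intro h
        have := congrFun h ⟨0, hr⟩
        exact absurd this (by norm_num [v])
      have h1 : π (M v) = 0 := by rw [hMπ, h0, zero_mul]
      have h2 : M v ≠ 0 := by
        intro h
        exact hv (M.injective (by rw [h, map_zero]))
      exact hπ0 _ h2 h1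
    obtain ⟨φ, hφ, hr'⟩ := PHall.exists_rec (E := Fin r → ℤ) M.toAddMonoidHom π hπ lam hlam0 hMπ
    refine ⟨φ, hφ, ?_⟩
    intro Φ j1 hj1
    obtain ⟨j, hj, hd, hv⟩ := hr' Φ j1 hj1
    exact ⟨j, hj, hd, fun v hvm => (hv v hvm).1⟩

end Pool.Agent.Helper294.HallG
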