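import Pool.Agent.Helper294.HallG.Defs
import Pool.Agent.Helper294.HX.YUBound

set_option autoImplicit false

namespace Pool.Agent.Helper294.HallG

open Pool.Agent.Helper946.HC hiding Cross Rec Val comb Compat Desc
open Module Pool.Agent.Helper946.S4 Pool.Agent.Helper294.HallM Pool.Agent.Helper946.PH3

theorem u_bound {K K' E : Type} [DivisionRing K] [DivisionRing K'] [AddCommGroup E]
    {ι : K →+* K'} {x : E → K'} (hC : Cross ι x) {φ : E →+ ℝ} (hφ : Function.Injective φ)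
    {J : Type} (n : ℕ) :
    ∀ (X : Type) [AddCommGroup X] [Module K X] [Module K' X]
      (_ : ∀ (k : K) (ξ : X), k • ξ = ι k • ξ) (_ : FiniteDimensional K' X)
      (_ : finrank K' X ≤ n) (u : X ≃+ X) (M : E ≃+ E) (_ : Act ι x u M) (_ : Rec φ M)
      (_ : ∀ (m : ℕ) (v : E), 0 < m → ∑ i ∈ Finset.range m, (⇑M)^[i] v = 0 → v = 0)
      (s : Finset J) (w : J → E) (U : J → (X ≃+ X)) (W : J → Submodule K X)
      (_ : ∀ j ∈ s, ∃ c : K, c ≠ 0 ∧ ∀ ξ, U j ξ = ι c • x (w j) • u ξ)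
      (_ : ∀ j ∈ s, W j ≠ ⊥ ∧ FiniteDimensional K (W j) ∧ ∀ ξ, U j ξ ∈ W j ↔ ξ ∈ W j)
      (_ : ∀ i ∈ s, ∀ j ∈ s, i ≠ j → ¬ ∃ p : E, w i - w j = p - M p), s.card ≤ n := by
  exact Pool.Agent.Helper946.HY.u_bound hC hφ n

end Pool.Agent.Helper294.HallG
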