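import Pool.Agent.Helper294.HallG.Defs
import Pool.Agent.Helper294.HX.HCPoly
import Pool.Agent.Helper294.HX.PHOH
import Pool.Agent.Helper294.HallM.SysNoe
import Pool.Agent.Helper294.HallM.QuotSys
import Pool.Agent.Helper294.HallG.FreQuot
import Pool.Agent.Helper294.HallG.MaxFd
import Pool.Agent.Helper294.HallG.OreModel2
import Pool.Agent.Helper294.HallG.PeNr
import Pool.Agent.Helper294.HallG.UBound

set_option autoImplicit false

namespace Pool.Agent.Helper294.HallG

open Pool.Agent.Helper946.HC hiding Cross Rec Val comb Compat Desc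
open Module Pool.Agent.Helper946.S4 Pool.Agent.Helper294.HallM Pool.Agent.Helper946.PH3


section t0aux

variable {K K' G A A' : Type} [DivisionRing K] [DivisionRing K'] [Group G] [AddCommGroup A]
  [Module K A] [DistribMulAction G A] [AddCommGroup A'] [Module K' A'] [Module K A']
  [DistribMulAction G A'] {ι : K →+* K'}

/-- the embedding as a linear map -/
def t0_lin (i : A →+ A') (hiK : ∀ (k : K) (a : A), i (k • a) = k • i a) : A →ₗ[K] A' :=
  { toFun := i
    map_add' := i.map_add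
    map_smul' := hiK }

/-- restriction of the action to a stable subspace -/
def t0_res (X : Submodule K' A') (hX : St (⊤ : Subgroup G) X) (g : G) : X ≃+ X where
  toFun ξ := ⟨g • (ξ : A'), hX g trivial _ ξ.2⟩
  invFun ξ := ⟨g⁻¹ • (ξ : A'), hX g⁻¹ trivial _ ξ.2⟩
  left_inv ξ := Subtype.ext (inv_smul_smul g _)
  right_inv ξ := Subtype.ext (smul_inv_smul g _)
  map_add' a b := Subtype.ext (smul_add g _ _)

theorem t0_span_le (hsemi : ∀ g : G, Semi K' (ac g : A' ≃+ A')) (Z : Set A') (g : G)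
    (hZ : ∀ z ∈ Z, g • z ∈ Z) (z : A') (hz : z ∈ Submodule.span K' Z) :
    g • z ∈ Submodule.span K' Z := by
  obtain ⟨σ, hσ⟩ := hsemi g
  have hσ' : ∀ (k : K') (a : A'), g • (k • a) = σ k • (g • a) := hσ
  induction hz using Submodule.span_induction with
  | mem z hz => exact Submodule.subset_span (hZ z hz)
  | zero => rw [smul_zero]; exact zero_mem _
  | add a b _ _ ha hb => rw [smul_add]; exact add_mem ha hb
  | smul k a _ ha => rw [hσ']; exact Submodule.smul_mem _ _ ha

theorem t0_span_stable (hsemi : ∀ g : G, Semi K' (ac g : A' ≃+ A')) (Z : Set A') (g : G)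
    (hZ : ∀ z, g • z ∈ Z ↔ z ∈ Z) : Stable (ac g : A' ≃+ A') (Submodule.span K' Z) := by
  intro z
  change g • z ∈ _ ↔ z ∈ _
  constructor
  · intro h
    have h1 := t0_span_le hsemi Z g⁻¹ (fun z hz => by
      rw [← hZ, smul_inv_smul]
      exact hz) _ h
    rwa [inv_smul_smul] at h1
  · exact t0_span_le hsemi Z g (fun z hz => (hZ z).2 hz) z

theorem t0_fd (hι : ∀ (k : K) (ξ : A'), k • ξ = ι k • ξ) (i : A →+ A')
    (hiK : ∀ (k : K) (a : A), i (k • a) = k • i a) (W : Submodule K A)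
    (hW : FiniteDimensional K W) :
    FiniteDimensional K' (Submodule.span K' ((W.map (t0_lin i hiK) : Submodule K A') : Set A')) := by
  obtain ⟨b, hb⟩ := (Submodule.fg_iff_finiteDimensional W).2 hW
  have h1 : Submodule.span K' ((W.map (t0_lin i hiK) : Submodule K A') : Set A') ≤
      Submodule.span K' (i '' (b : Set A)) := by
    rw [Submodule.span_le]
    rintro _ ⟨a, ha, rfl⟩
    change i a ∈ Submodule.span K' (i '' (b : Set A))
    have ha' : a ∈ Submodule.span K (b : Set A) := by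
      rw [hb]
      exact ha
    clear ha
    induction ha' using Submodule.span_induction with
    | mem z hz => exact Submodule.subset_span ⟨z, hz, rfl⟩
    | zero => rw [map_zero]; exact zero_mem _
    | add a b _ _ ha hb => rw [map_add]; exact add_mem ha hb
    | smul k a _ ha => rw [hiK, hι]; exact Submodule.smul_mem _ _ ha
  have h2 : FiniteDimensional K' (Submodule.span K' (i '' (b : Set A))) :=
    FiniteDimensional.span_of_finite K' (b.finite_toSet.image i)
  exact Submodule.finiteDimensional_of_le h1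

theorem t0_map_stable (i : A →+ A') (hinj : Function.Injective i)
    (hiG : ∀ (g : G) (a : A), i (g • a) = g • i a)
    (hiK : ∀ (k : K) (a : A), i (k • a) = k • i a) (W : Submodule K A) (g : G)
    (hW : Stable (ac g : A ≃+ A) W) (z : A') :
    g • z ∈ ((W.map (t0_lin i hiK) : Submodule K A') : Set A') ↔
      z ∈ ((W.map (t0_lin i hiK) : Submodule K A') : Set A') := by
  constructor
  · rintro ⟨a, ha, haz⟩
    have haz' : i a = g • z := haz
    refine ⟨g⁻¹ • a, ?_, ?_⟩
    · have h1 := (hW (g⁻¹ • a)).1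
      apply h1
      change g • g⁻¹ • a ∈ W
      rw [smul_inv_smul]
      exact ha
    · change i (g⁻¹ • a) = z
      rw [hiG, haz', inv_smul_smul]
  · rintro ⟨a, ha, rfl⟩
    refine ⟨g • a, (hW a).2 ha, ?_⟩
    exact hiG g a

end t0aux

theorem t0_bound {K G A Q : Type} [DivisionRing K] [Group G] [AddCommGroup A] [Module K A]
    [DistribMulAction G A] [Group Q] {ρ : G →* Q} {r : ℕ} (hr : 0 < r)
    {ε : Multiplicative (Fin r → ℤ) →* Q}
    (hinj : Function.Injective ε) (hPE : PE ε)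
    {K' A' : Type} [DivisionRing K'] [AddCommGroup A'] [Module K' A'] [Module K A']
    [DistribMulAction G A'] {ι : K →+* K'} {x : (Fin r → ℤ) → K'} (i : A →+ A')
    (hi : Function.Injective i) (hiG : ∀ (g : G) (a : A), i (g • a) = g • i a)
    (hiK : ∀ (k : K) (a : A), i (k • a) = k • i a)
    (hι : ∀ (k : K) (ξ : A'), k • ξ = ι k • ξ) (hC : Cross ι x)
    (hAct : ∀ (g : G) (M : (Fin r → ℤ) ≃+ (Fin r → ℤ)),
        (∀ v, ρ g * ε (Multiplicative.ofAdd v) * (ρ g)⁻¹ = ε (Multiplicative.ofAdd (M v))) →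
        Act ι x (ac g : A' ≃+ A') M)
    (hsc : ∀ (n : G) (v : Fin r → ℤ), ρ n = ε (Multiplicative.ofAdd v) →
        ∃ c : K, c ≠ 0 ∧ ∀ ξ : A', n • ξ = ι c • x v • ξ)
    (X : Submodule K' A') (hXfd : FiniteDimensional K' X) (hX : St (⊤ : Subgroup G) X)
    (g₀ : G) (M : (Fin r → ℤ) ≃+ (Fin r → ℤ))
    (hM : ∀ v, ρ g₀ * ε (Multiplicative.ofAdd v) * (ρ g₀)⁻¹ = ε (Multiplicative.ofAdd (M v)))
    (s : Finset (Fin r → ℤ)) (hs : ∀ v ∈ s, ∀ w ∈ s, v ≠ w → ¬ Cg ε (ρ g₀) v w)
    (g : (Fin r → ℤ) → G) (hg : ∀ v ∈ s, ρ (g v) = ε (Multiplicative.ofAdd v) * ρ g₀)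
    (W : (Fin r → ℤ) → Submodule K A) (hW0 : ∀ v ∈ s, W v ≠ ⊥)
    (hWfd : ∀ v ∈ s, FiniteDimensional K (W v))
    (hWs : ∀ v ∈ s, Stable (ac (g v) : A ≃+ A) (W v))
    (hWX : ∀ v ∈ s, ∀ a ∈ W v, i a ∈ X) : s.card ≤ finrank K' X := by
  obtain ⟨hNR, φ, hφ, hRec⟩ := pe_nr hr hinj hPE (ρ g₀) M hM
  letI mX : Module K X := Module.compHom X ι
  have hsmul : ∀ (k : K) (ξ : X), k • ξ = ι k • ξ := fun k ξ => rfl
  have hsmul' : ∀ (k : K) (ξ : X), ((k • ξ : X) : A') = k • (ξ : A') := by
    intro k ξ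
    rw [hsmul, hι]
    rfl
  let WX : (Fin r → ℤ) → Submodule K X := fun v =>
    { carrier := {ξ | (ξ : A') ∈ (W v).map (t0_lin i hiK)}
      add_mem' := fun {a b} ha hb => by
        change ((a + b : X) : A') ∈ (W v).map (t0_lin i hiK)
        rw [Submodule.coe_add]
        exact add_mem ha hb
      zero_mem' := by
        change ((0 : X) : A') ∈ (W v).map (t0_lin i hiK)
        rw [Submodule.coe_zero]
        exact zero_mem _
      smul_mem' := fun k a ha => by
        change ((k • a : X) : A') ∈ (W v).map (t0_lin i hiK)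
        rw [hsmul']
        exact Submodule.smul_mem _ _ ha }
  have hWXmem : ∀ v (ξ : X), ξ ∈ WX v ↔ (ξ : A') ∈ (W v).map (t0_lin i hiK) :=
    fun v ξ => Iff.rfl
  refine u_bound hC hφ (J := Fin r → ℤ) (finrank K' X) X hsmul hXfd le_rfl (t0_res X hX g₀) M
    ?_ hRec hNR s id (fun v => t0_res X hX (g v)) WX ?_ ?_ ?_
  · obtain ⟨σ, σ0, h1, h2, h3⟩ := hAct g₀ M hM
    refine ⟨σ, σ0, ?_, h2, h3⟩
    intro κ ξ
    apply Subtype.ext
    exact h1 κ (ξ : A')
  · intro v hv
    obtain ⟨c, hc, hcs⟩ := hsc (g v * g₀⁻¹) v (by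
      rw [map_mul, map_inv, hg v hv, mul_inv_cancel_right])
    refine ⟨c, hc, ?_⟩
    intro ξ
    apply Subtype.ext
    change g v • (ξ : A') = ι c • x v • (g₀ • (ξ : A'))
    rw [← hcs, ← mul_smul, inv_mul_cancel_right]
  · intro v hv
    refine ⟨?_, ?_, ?_⟩
    · intro h0
      apply hW0 v hv
      rw [Submodule.eq_bot_iff] at h0 ⊢
      intro a ha
      have h1 := h0 ⟨i a, hWX v hv a ha⟩ ((hWXmem v _).2 ⟨a, ha, rfl⟩)
      have h2 : i a = 0 := congrArg Subtype.val h1
      exact hi (by rw [h2, map_zero])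
    · have hfd := hWfd v hv
      let f : W v →ₗ[K] WX v :=
        { toFun := fun a => ⟨⟨i a, hWX v hv a a.2⟩, (hWXmem v _).2 ⟨a, a.2, rfl⟩⟩
          map_add' := by
            intro a b
            apply Subtype.ext
            apply Subtype.ext
            exact i.map_add _ _
          map_smul' := by
            intro k a
            apply Subtype.ext
            apply Subtype.ext
            change i (k • (a : A)) = ((k • (⟨i a, hWX v hv a a.2⟩ : X) : X) : A')
            rw [hsmul', hiK] }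
      apply Module.Finite.of_surjective f
      rintro ⟨⟨ξ, hξ⟩, h1⟩
      obtain ⟨a, ha, haξ⟩ := (hWXmem v _).1 h1
      refine ⟨⟨a, ha⟩, ?_⟩
      apply Subtype.ext
      apply Subtype.ext
      exact haξ
    · intro ξ
      rw [hWXmem, hWXmem]
      exact t0_map_stable i hi hiG hiK (W v) (g v) (hWs v hv) (ξ : A')
  · rintro v hv w hw hvw ⟨p, hp⟩
    apply hs v hv w hw hvw
    refine ⟨-p, ?_⟩
    have hp' : v - w = p - M p := hp
    rw [hM, ← map_inv, ← map_mul, ← ofAdd_neg, ← ofAdd_add, hp', map_neg]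
    congr 2
    abel

theorem t0 {K G A Q : Type} [DivisionRing K] [Group G] [AddCommGroup A] [Module K A]
    [DistribMulAction G A] [Group Q] {ρ : G →* Q} (hQ : PC Q) (hρ : Function.Surjective ρ)
    (hS : Sys K G A Q ρ) {r : ℕ} (hr : 0 < r) {ε : Multiplicative (Fin r → ℤ) →* Q}
    (hinj : Function.Injective ε) [hn : ε.range.Normal] (hPE : PE ε)
    (htf : ∀ a : A, a ≠ 0 → ¬ Tors (K := K) ρ ε a) (hA : Nontrivial A) :
    ∃ (F : Set (Set (Q ⧸ ε.range))) (d : ℕ), F.Finite ∧ (∀ S ∈ F, WBadSet (Q ⧸ ε.range) S) ∧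
      UB K A ρ ε F d := by
  obtain ⟨K', A', _, _, _, _, _, ι, x, i, hi, hiG, hiK, hι, hC, hS', hAct, hsc⟩ :=
    ore_model2 hρ hS hr ε hinj htf hA
  have hPC' : PC (Q ⧸ ε.range) := pc_surj hQ (QuotientGroup.mk' ε.range)
    (QuotientGroup.mk'_surjective _)
  have hρ' : Function.Surjective ((QuotientGroup.mk' ε.range).comp ρ) :=
    (QuotientGroup.mk'_surjective _).comp hρ
  have hN' := sys_noe hPC' hρ' hS'
  obtain ⟨X, hXfd, hX, hmax⟩ := max_fd hS'.semi hN'
  obtain ⟨A₂, _, _, _, π, hπs, hπk, hπe, hS₂⟩ := quot_sys hS' X hX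
  have hFre : Fre K' G A₂ := fre_quot X hXfd hmax π hπs hπk hπe
  refine ⟨{WB K' A₂ ((QuotientGroup.mk' ε.range).comp ρ)}, finrank K' X, Set.finite_singleton _,
    ?_, ?_⟩
  · intro S hSm
    rw [Set.mem_singleton_iff] at hSm
    refine ⟨K', G, A₂, inferInstance, inferInstance, inferInstance, inferInstance, inferInstance,
      (QuotientGroup.mk' ε.range).comp ρ, hS₂, ?_, hFre, hSm⟩
    rw [MonoidHom.range_eq_top.2 hρ', Subgroup.index_top]
    exact one_ne_zero
  · intro y hy s hs hbad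
    have hy' := hy _ (Set.mem_singleton _)
    obtain ⟨g₀, rfl⟩ := hρ y
    obtain ⟨M, hM⟩ := conj_mat ε hinj hn (ρ g₀)
    choose! g hg hgb using hbad
    have hgb' : ∀ v ∈ s, ∃ W : Submodule K A, W ≠ ⊥ ∧ FiniteDimensional K W ∧
      Stable (ac (g v) : A ≃+ A) W := hgb
    choose! W hW0 hWfd hWs using hgb'
    refine t0_bound hr hinj hPE i hi hiG hiK hι hC hAct hsc X hXfd hX g₀ M hM s hs g hg W hW0
      hWfd hWs ?_
    intro v hv a ha
    have hstab := t0_span_stable hS'.semi _ (g v)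
      (t0_map_stable i hi hiG hiK (W v) (g v) (hWs v hv))
    have hZfd := t0_fd hι i hiK (W v) (hWfd v hv)
    obtain ⟨Z, hZ⟩ : ∃ Z : Submodule K' A',
        Z = Submodule.span K' (((W v).map (t0_lin i hiK) : Submodule K A') : Set A') := ⟨_, rfl⟩
    rw [← hZ] at hstab hZfd
    have hZX : Z ≤ X := by
      by_contra hcon
      apply hy'
      refine ⟨1, one_pos, 1, g v, ?_, Z.map π, ?_, ?_, ?_⟩
      · rw [inv_one, one_mul, mul_one, pow_one]
        change QuotientGroup.mk' ε.range (ρ (g v)) = QuotientGroup.mk' ε.range (ρ g₀)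
        rw [hg v hv, map_mul]
        have h1 : QuotientGroup.mk' ε.range (ε (Multiplicative.ofAdd v)) = 1 := by
          rw [QuotientGroup.mk'_apply, QuotientGroup.eq_one_iff]
          exact ⟨_, rfl⟩
        rw [h1, one_mul]
      · intro h0
        apply hcon
        intro z hz
        rw [← hπk, LinearMap.mem_ker]
        have : π z ∈ Z.map π := ⟨z, hz, rfl⟩
        rw [h0] at this
        exact this
      · infer_instance
      · intro x₂
        change g v • x₂ ∈ Z.map π ↔ x₂ ∈ Z.map π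
        constructor
        · rintro ⟨z, hz, hzx⟩
          refine ⟨(g v)⁻¹ • z, ?_, ?_⟩
          · have h1 := (hstab ((g v)⁻¹ • z)).1
            apply h1
            change g v • (g v)⁻¹ • z ∈ Z
            rw [smul_inv_smul]
            exact hz
          · rw [hπe, hzx, inv_smul_smul]
        · rintro ⟨z, hz, rfl⟩
          exact ⟨g v • z, (hstab z).2 hz, hπe _ _⟩
    apply hZX
    rw [hZ]
    exact Submodule.subset_span ⟨a, ha, rfl⟩

end Pool.Agent.Helper294.HallG
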