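import Pool.Agent.Helper294.HallG.Defs
import Pool.Agent.Helper294.HX.YT1Core

set_option autoImplicit false

namespace Pool.Agent.Helper294.HallG

open Module Pool.Agent.Helper946.HC Pool.Agent.Helper946.S4 Pool.Agent.Helper294.HallM

theorem t1_core {K G A Q : Type} [DivisionRing K] [Group G] [AddCommGroup A] [Module K A]
    [DistribMulAction G A] [Group Q] {ρ : G →* Q} (hQ : PC Q) (hρ : Function.Surjective ρ)
    (hS : Sys K G A Q ρ) {r : ℕ} {ε : Multiplicative (Fin r → ℤ) →* Q} (hP : Plinth Q r ε)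
    (htors : ∀ w : A, Tors (K := K) ρ ε w)
    (hno : ∀ W : Submodule K A, FiniteDimensional K W → St (ε.range.comap ρ) W → W = ⊥) :
    ∃ 𝓛 : Set (Subgroup Q), 𝓛.Finite ∧ (∀ L ∈ 𝓛, ε.range ≤ L ∧ L.index = 0) ∧
      ∀ g : G, BadEl K A g →
        ∃ L ∈ 𝓛, ∃ n : ℕ, 0 < n ∧ ∃ q : Q, q⁻¹ * (ρ g) ^ n * q ∈ L := by
  exact Pool.Agent.Helper946.HY.t1_core hQ hρ hS hP htors hno

end Pool.Agent.Helper294.HallG
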