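import Pool.Agent.Helper294.HallG.Defs
import Pool.Agent.Helper294.HallG.GenPerm
import Pool.Agent.Helper294.HallG.T1Core

set_option autoImplicit false

namespace Pool.Agent.Helper294.HallG

open Module Pool.Agent.Helper946.HC Pool.Agent.Helper946.S4 Pool.Agent.Helper294.HallM


theorem t1 {K G A Q : Type} [DivisionRing K] [Group G] [AddCommGroup A] [Module K A]
    [DistribMulAction G A] [Group Q] {ρ : G →* Q} (hQ : PC Q) (hρ : Function.Surjective ρ)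
    (hS : Sys K G A Q ρ) {r : ℕ} {ε : Multiplicative (Fin r → ℤ) →* Q} (hP : Plinth Q r ε)
    [hn : ε.range.Normal]
    (htors : ∀ w : A, Tors (K := K) ρ ε w)
    (hno : ∀ W : Submodule K A, FiniteDimensional K W → St (ε.range.comap ρ) W → W = ⊥) :
    ∃ F : Set (Set (Q ⧸ ε.range)), F.Finite ∧ (∀ S ∈ F, WBadSet (Q ⧸ ε.range) S) ∧
      ∀ g : G, BadEl K A g → ∃ S ∈ F, (QuotientGroup.mk (ρ g) : Q ⧸ ε.range) ∈ S := by
  obtain ⟨𝓛, hfin, hL, hbad⟩ := t1_core hQ hρ hS hP htors hno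
  have hex : ∀ L : Subgroup Q, ∃ S : Set (Q ⧸ ε.range), L ∈ 𝓛 →
      WBadSet (Q ⧸ ε.range) S ∧
        ∀ y : Q ⧸ ε.range, (∃ n : ℕ, 0 < n ∧ ∃ q : Q ⧸ ε.range,
          q⁻¹ * y ^ n * q ∈ L.map (QuotientGroup.mk' ε.range)) → y ∈ S := by
    intro L
    by_cases h : L ∈ 𝓛
    · obtain ⟨h1, h2⟩ := hL L h
      have hcm : (L.map (QuotientGroup.mk' ε.range)).comap (QuotientGroup.mk' ε.range) = L := by
        apply Subgroup.comap_map_eq_self
        rw [QuotientGroup.ker_mk']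
        exact h1
      have hidx : (L.map (QuotientGroup.mk' ε.range)).index = 0 := by
        rw [← Subgroup.index_comap_of_surjective _ (QuotientGroup.mk'_surjective ε.range), hcm]
        exact h2
      obtain ⟨S, hS1, hS2⟩ := gen_perm (L.map (QuotientGroup.mk' ε.range)) hidx
      exact ⟨S, fun _ => ⟨hS1, hS2⟩⟩
    · exact ⟨∅, fun h' => absurd h' h⟩
  choose S hS' using hex
  refine ⟨S '' 𝓛, hfin.image S, ?_, ?_⟩
  · rintro _ ⟨L, hLm, rfl⟩
    exact (hS' L hLm).1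
  · intro g hg
    obtain ⟨L, hLm, n, hn0, q, hq⟩ := hbad g hg
    refine ⟨S L, ⟨L, hLm, rfl⟩, (hS' L hLm).2 _ ⟨n, hn0, QuotientGroup.mk q, ?_⟩⟩
    exact ⟨q⁻¹ * (ρ g) ^ n * q, hq, rfl⟩

end Pool.Agent.Helper294.HallG
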