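import Pool.Agent.Helper294.HallG.Defs
import Pool.Agent.Helper294.HX.HCNoeth

set_option autoImplicit false

namespace Pool.Agent.Helper294.HallG

open Module Pool.Agent.Helper946.HC Pool.Agent.Helper946.S4 Pool.Agent.Helper294.HallM


section isogm

variable {K G A : Type} [DivisionRing K] [Group G] [AddCommGroup A] [Module K A]
    [DistribMulAction G A]

theorem iso_gm_mem (hs : ∀ g : G, Semi K (ac g : A ≃+ A)) (g : G) (V : Submodule K A) (y : A) :
    y ∈ (gm g V : Submodule K A) ↔ g⁻¹ • y ∈ V := by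
  rw [mem_gm hs]
  constructor
  · rintro ⟨x, hx, rfl⟩
    rwa [inv_smul_smul]
  · intro h
    exact ⟨g⁻¹ • y, h, (smul_inv_smul g y).symm⟩

theorem iso_gm_semi (hs : ∀ g : G, Semi K (ac g : A ≃+ A)) (g : G) :
    ∃ σ : K ≃+* K, ∀ (k : K) (x : A), g • (k • x) = σ k • (g • x) := by
  obtain ⟨σ, hσ⟩ := hs g
  exact ⟨σ, hσ⟩

theorem iso_gm_symm (N : Subgroup G) (U V : Submodule K A) (hU : St N U)
    (h : IsoN N U V) : IsoN N V U := by
  obtain ⟨f, hf⟩ := h
  refine ⟨f.symm, ?_⟩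
  intro n hn x y hxy
  have hmem : n • ((f.symm x : U) : A) ∈ U := hU n hn _ (f.symm x).2
  have h1 := hf n hn (f.symm x) ⟨n • ((f.symm x : U) : A), hmem⟩ rfl
  rw [LinearEquiv.apply_symm_apply, ← hxy] at h1
  have h2 : f ⟨n • ((f.symm x : U) : A), hmem⟩ = y := Subtype.ext h1
  have h3 : f.symm y = ⟨n • ((f.symm x : U) : A), hmem⟩ := by
    rw [← h2, LinearEquiv.symm_apply_apply]
  rw [h3]

theorem iso_gm_trans (N : Subgroup G) (U V W : Submodule K A)
    (h : IsoN N U V) (h' : IsoN N V W) : IsoN N U W := by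
  obtain ⟨f, hf⟩ := h
  obtain ⟨f', hf'⟩ := h'
  refine ⟨f.trans f', ?_⟩
  intro n hn x y hxy
  exact hf' n hn _ _ (hf n hn x y hxy)

theorem iso_gm_mul (hs : ∀ g : G, Semi K (ac g : A ≃+ A)) (g h : G) (U : Submodule K A) :
    (gm (g * h) U : Submodule K A) = gm g (gm h U) := by
  ext y
  rw [iso_gm_mem hs, iso_gm_mem hs, iso_gm_mem hs, mul_inv_rev, mul_smul]

theorem iso_gm_one (hs : ∀ g : G, Semi K (ac g : A ≃+ A)) (U : Submodule K A) :
    (gm (1 : G) U : Submodule K A) = U := by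
  ext y
  rw [iso_gm_mem hs, inv_one, one_smul]

theorem iso_gm_swap (hs : ∀ g : G, Semi K (ac g : A ≃+ A)) (g : G) :
    ∃ τ : K ≃+* K, (∀ (k : K) (x : A), g⁻¹ • (k • x) = τ k • (g⁻¹ • x)) ∧
      ∀ (k : K) (z : A), g • (τ k • z) = k • (g • z) := by
  obtain ⟨τ, hτ⟩ := iso_gm_semi hs g⁻¹
  refine ⟨τ, hτ, ?_⟩
  intro k z
  have h := hτ k (g • z)
  rw [inv_smul_smul] at h
  rw [← h, smul_inv_smul]

/-- the transported map. -/
noncomputable def iso_gm_fun (hs : ∀ g : G, Semi K (ac g : A ≃+ A)) (g : G) (U V : Submodule K A)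
    (f : U →ₗ[K] V) (y : (gm g U : Submodule K A)) : (gm g V : Submodule K A) :=
  ⟨g • ((f ⟨g⁻¹ • (y : A), (iso_gm_mem hs g U y).mp y.2⟩ : V) : A), by
    rw [iso_gm_mem hs, inv_smul_smul]
    exact (f _).2⟩

theorem iso_gm_fun_add (hs : ∀ g : G, Semi K (ac g : A ≃+ A)) (g : G) (U V : Submodule K A)
    (f : U →ₗ[K] V) (y z : (gm g U : Submodule K A)) :
    iso_gm_fun hs g U V f (y + z) = iso_gm_fun hs g U V f y + iso_gm_fun hs g U V f z := by
  apply Subtype.ext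
  have e : (⟨g⁻¹ • ((y + z : (gm g U : Submodule K A)) : A),
      (iso_gm_mem hs g U _).mp (y + z).2⟩ : U)
      = ⟨g⁻¹ • (y : A), (iso_gm_mem hs g U y).mp y.2⟩ +
        ⟨g⁻¹ • (z : A), (iso_gm_mem hs g U z).mp z.2⟩ := by
    apply Subtype.ext
    show g⁻¹ • ((y : A) + (z : A)) = g⁻¹ • (y : A) + g⁻¹ • (z : A)
    rw [smul_add]
  show g • ((f ⟨g⁻¹ • ((y + z : (gm g U : Submodule K A)) : A), _⟩ : V) : A)
    = g • ((f ⟨g⁻¹ • (y : A), _⟩ : V) : A) + g • ((f ⟨g⁻¹ • (z : A), _⟩ : V) : A)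
  rw [e, map_add, ← smul_add]
  rfl

theorem iso_gm_fun_smul (hs : ∀ g : G, Semi K (ac g : A ≃+ A)) (g : G) (U V : Submodule K A)
    (f : U →ₗ[K] V) (k : K) (y : (gm g U : Submodule K A)) :
    iso_gm_fun hs g U V f (k • y) = k • iso_gm_fun hs g U V f y := by
  obtain ⟨τ, hτ, hτ'⟩ := iso_gm_swap hs g
  apply Subtype.ext
  have e : (⟨g⁻¹ • ((k • y : (gm g U : Submodule K A)) : A),
      (iso_gm_mem hs g U _).mp (k • y).2⟩ : U)
      = τ k • ⟨g⁻¹ • (y : A), (iso_gm_mem hs g U y).mp y.2⟩ := by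
    apply Subtype.ext
    exact hτ k y
  show g • ((f ⟨g⁻¹ • ((k • y : (gm g U : Submodule K A)) : A), _⟩ : V) : A)
    = k • (g • ((f ⟨g⁻¹ • (y : A), _⟩ : V) : A))
  rw [e, map_smul, ← hτ']
  rfl

/-- the transported linear map. -/
noncomputable def iso_gm_lin (hs : ∀ g : G, Semi K (ac g : A ≃+ A)) (g : G) (U V : Submodule K A)
    (f : U →ₗ[K] V) : (gm g U : Submodule K A) →ₗ[K] (gm g V : Submodule K A) where
  toFun := iso_gm_fun hs g U V f
  map_add' := iso_gm_fun_add hs g U V f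
  map_smul' := iso_gm_fun_smul hs g U V f

theorem iso_gm_inv (hs : ∀ g : G, Semi K (ac g : A ≃+ A)) (g : G) (U V : Submodule K A)
    (f : U →ₗ[K] V) (f' : V →ₗ[K] U) (h : ∀ x, f' (f x) = x) (y : (gm g U : Submodule K A)) :
    iso_gm_fun hs g V U f' (iso_gm_fun hs g U V f y) = y := by
  apply Subtype.ext
  show g • ((f' ⟨g⁻¹ • (g • ((f ⟨g⁻¹ • (y : A), _⟩ : V) : A)), _⟩ : U) : A) = y
  have e : (⟨g⁻¹ • (g • ((f ⟨g⁻¹ • (y : A), (iso_gm_mem hs g U y).mp y.2⟩ : V) : A)), by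
      rw [inv_smul_smul]
      exact (f _).2⟩ : V)
      = f ⟨g⁻¹ • (y : A), (iso_gm_mem hs g U y).mp y.2⟩ := by
    apply Subtype.ext
    exact inv_smul_smul _ _
  rw [e, h]
  exact smul_inv_smul _ _

theorem iso_gm_iso (hs : ∀ g : G, Semi K (ac g : A ≃+ A)) (N : Subgroup G) (hN : N.Normal)
    (g : G) (U V : Submodule K A) (h : IsoN N U V) : IsoN N (gm g U) (gm g V) := by
  obtain ⟨f, hf⟩ := h
  refine ⟨LinearEquiv.ofLinear (iso_gm_lin hs g U V f.toLinearMap)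
    (iso_gm_lin hs g V U f.symm.toLinearMap) ?_ ?_, ?_⟩
  · apply LinearMap.ext
    intro y
    exact iso_gm_inv hs g V U f.symm.toLinearMap f.toLinearMap (fun x => f.apply_symm_apply x) y
  · apply LinearMap.ext
    intro y
    exact iso_gm_inv hs g U V f.toLinearMap f.symm.toLinearMap (fun x => f.symm_apply_apply x) y
  · intro n hn x y hxy
    have hn' : g⁻¹ * n * g ∈ N := by
      have := hN.conj_mem n hn g⁻¹
      rwa [inv_inv] at this
    have h1 := hf (g⁻¹ * n * g) hn' ⟨g⁻¹ • (x : A), (iso_gm_mem hs g U x).mp x.2⟩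
      ⟨g⁻¹ • (y : A), (iso_gm_mem hs g U y).mp y.2⟩ (by
        show g⁻¹ • (y : A) = (g⁻¹ * n * g) • (g⁻¹ • (x : A))
        rw [hxy, mul_smul, mul_smul, smul_inv_smul])
    show g • ((f ⟨g⁻¹ • (y : A), _⟩ : V) : A) = n • (g • ((f ⟨g⁻¹ • (x : A), _⟩ : V) : A))
    rw [h1, mul_smul, mul_smul, smul_inv_smul]

theorem iso_gm_St (hs : ∀ g : G, Semi K (ac g : A ≃+ A)) (N : Subgroup G) (hN : N.Normal)
    (g : G) (U : Submodule K A) (h : St N U) : St N (gm g U : Submodule K A) := by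
  intro n hn y hy
  rw [iso_gm_mem hs] at hy ⊢
  have hn' : g⁻¹ * n * g ∈ N := by
    have := hN.conj_mem n hn g⁻¹
    rwa [inv_inv] at this
  have := h _ hn' _ hy
  rwa [mul_smul, mul_smul, smul_inv_smul] at this

theorem iso_gm_min (hs : ∀ g : G, Semi K (ac g : A ≃+ A)) (N : Subgroup G) (hN : N.Normal)
    (g : G) (U : Submodule K A) (hU : U ≠ ⊥) (hSt : St N U)
    (hmin : ∀ V ≤ U, St N V → V = ⊥ ∨ V = U) :
    (gm g U : Submodule K A) ≠ ⊥ ∧ St N (gm g U : Submodule K A) ∧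
      ∀ V ≤ (gm g U : Submodule K A), St N V → V = ⊥ ∨ V = gm g U := by
  have hVV : ∀ V : Submodule K A, V = gm g (gm g⁻¹ V) := by
    intro V
    rw [← iso_gm_mul hs, mul_inv_cancel, iso_gm_one hs]
  have hbot : ∀ h : G, (gm h (⊥ : Submodule K A) : Submodule K A) = ⊥ := by
    intro h
    rw [eq_bot_iff]
    intro y hy
    rw [iso_gm_mem hs, Submodule.mem_bot] at hy
    rw [Submodule.mem_bot]
    rw [← smul_inv_smul h y, hy, smul_zero]
  refine ⟨?_, iso_gm_St hs N hN g U hSt, ?_⟩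
  · intro h
    apply hU
    have h2 : (gm g⁻¹ (gm g U) : Submodule K A) = gm g⁻¹ ⊥ := by rw [h]
    rw [← iso_gm_mul hs, inv_mul_cancel, iso_gm_one hs, hbot] at h2
    exact h2
  · intro V hV hVS
    have hle : (gm g⁻¹ V : Submodule K A) ≤ U := by
      intro y hy
      rw [iso_gm_mem hs, inv_inv] at hy
      have := (iso_gm_mem hs g U _).mp (hV hy)
      rwa [inv_smul_smul] at this
    rcases hmin _ hle (iso_gm_St hs N hN g⁻¹ V hVS) with h | h
    · left
      rw [hVV V, h, hbot]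
    · right
      rw [hVV V, h]

/-- the semilinear bijection. -/
noncomputable def iso_gm_add (hs : ∀ g : G, Semi K (ac g : A ≃+ A)) (g : G) (U : Submodule K A) :
    U ≃+ (gm g U : Submodule K A) where
  toFun x := ⟨g • (x : A), by
    rw [iso_gm_mem hs, inv_smul_smul]
    exact x.2⟩
  invFun y := ⟨g⁻¹ • (y : A), (iso_gm_mem hs g U y).mp y.2⟩
  left_inv x := Subtype.ext (inv_smul_smul g (x : A))
  right_inv y := Subtype.ext (smul_inv_smul g (y : A))
  map_add' x y := Subtype.ext (smul_add g (x : A) (y : A))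

theorem iso_gm_rank (hs : ∀ g : G, Semi K (ac g : A ≃+ A)) (g : G) (U : Submodule K A) :
    Module.rank K U = Module.rank K (gm g U : Submodule K A) := by
  obtain ⟨σ, hσ⟩ := iso_gm_semi hs g
  refine rank_eq_of_equiv_equiv σ (iso_gm_add hs g U) σ.bijective ?_
  intro r m
  exact Subtype.ext (hσ r m)

end isogm

theorem iso_gm {K G A : Type} [DivisionRing K] [Group G] [AddCommGroup A] [Module K A]
    [DistribMulAction G A] (hs : ∀ g : G, Semi K (ac g : A ≃+ A)) (N : Subgroup G) (hN : N.Normal) :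
    (∀ U : Submodule K A, IsoN N U U) ∧
    (∀ U V : Submodule K A, St N U → IsoN N U V → IsoN N V U) ∧
    (∀ U V W : Submodule K A, IsoN N U V → IsoN N V W → IsoN N U W) ∧
    (∀ (g : G) (U V : Submodule K A), IsoN N U V → IsoN N (gm g U) (gm g V)) ∧
    (∀ (g h : G) (U : Submodule K A), (gm (g * h) U : Submodule K A) = gm g (gm h U)) ∧
    (∀ U : Submodule K A, (gm (1 : G) U : Submodule K A) = U) ∧
    (∀ (g : G) (U : Submodule K A), U ≠ ⊥ → St N U → (∀ V ≤ U, St N V → V = ⊥ ∨ V = U) →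
      (gm g U : Submodule K A) ≠ ⊥ ∧ St N (gm g U : Submodule K A) ∧
        ∀ V ≤ (gm g U : Submodule K A), St N V → V = ⊥ ∨ V = gm g U) ∧
    (∀ (g : G) (U : Submodule K A), FiniteDimensional K U →
      FiniteDimensional K (gm g U : Submodule K A) ∧
        finrank K (gm g U : Submodule K A) = finrank K U) := by
  refine ⟨fun U => ⟨LinearEquiv.refl K U, fun n hn x y hxy => hxy⟩, iso_gm_symm N, iso_gm_trans N,
    iso_gm_iso hs N hN, iso_gm_mul hs, iso_gm_one hs, iso_gm_min hs N hN, ?_⟩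
  intro g U hU
  have hr := iso_gm_rank hs g U
  refine ⟨?_, ?_⟩
  · have h1 : Module.rank K U < Cardinal.aleph0 := Module.rank_lt_aleph0 K U
    rw [hr] at h1
    exact Module.rank_lt_aleph0_iff.mp h1
  · unfold Module.finrank
    rw [hr]

end Pool.Agent.Helper294.HallG
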