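import Pool.Agent.Helper294.HallG.Defs
import Pool.Agent.Helper294.HallM.OpSub
import Pool.Agent.Helper294.HallM.OpNorm
import Pool.Agent.Helper294.HallM.OpComp
import Pool.Agent.Helper294.HallM.ClifL
import Pool.Agent.Helper294.HallM.FgOfNoe
import Pool.Agent.Helper294.HallM.GmStable
import Pool.Agent.Helper294.HallG.Cliff2
import Pool.Agent.Helper294.HallG.FreFi

set_option autoImplicit false

namespace Pool.Agent.Helper294.HallG

open Module Pool.Agent.Helper946.HC Pool.Agent.Helper946.S4 Pool.Agent.Helper294.HallM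


theorem t2_cl_op {K G A : Type} [DivisionRing K] [Group G] [AddCommGroup A] [Module K A]
    [DistribMulAction G A] (N : Subgroup G) (V U : Submodule K A) (hV : St N V)
    (f : V ≃ₗ[K] U)
    (hf : ∀ n ∈ N, ∀ x y : V, (y : A) = n • (x : A) → (f y : A) = n • (f x : A))
    (s : AddMonoid.End A) (hs : s ∈ opR K (A := A) N) :
    ∀ x : V, ∃ h : s (x : A) ∈ V, (f ⟨s (x : A), h⟩ : A) = s (f x : A) := by
  unfold opR at hs
  induction hs using Subring.closure_induction with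
  | mem s hs =>
    intro x
    rcases hs with ⟨k, hk⟩ | ⟨n, hn, hk⟩
    · have h : s (x : A) ∈ V := by
        rw [hk]
        exact V.smul_mem k x.2
      refine ⟨h, ?_⟩
      have e : (⟨s (x : A), h⟩ : V) = k • x := Subtype.ext (hk _)
      rw [e, map_smul, hk]
      rfl
    · have h : s (x : A) ∈ V := by
        rw [hk]
        exact hV n hn _ x.2
      refine ⟨h, ?_⟩
      rw [hk (f x : A)]
      exact hf n hn x ⟨s (x : A), h⟩ (hk _)
  | zero =>
    intro x
    have h : (0 : AddMonoid.End A) (x : A) ∈ V := V.zero_mem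
    refine ⟨h, ?_⟩
    have e : (⟨(0 : AddMonoid.End A) (x : A), h⟩ : V) = 0 := Subtype.ext rfl
    rw [e, map_zero]
    rfl
  | one =>
    intro x
    have h : (1 : AddMonoid.End A) (x : A) ∈ V := x.2
    exact ⟨h, rfl⟩
  | add s t _ _ ihs iht =>
    intro x
    obtain ⟨h1, h1'⟩ := ihs x
    obtain ⟨h2, h2'⟩ := iht x
    have h : (s + t) (x : A) ∈ V := V.add_mem h1 h2
    refine ⟨h, ?_⟩
    have e : (⟨(s + t) (x : A), h⟩ : V) = ⟨s (x : A), h1⟩ + ⟨t (x : A), h2⟩ := Subtype.ext rfl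
    rw [e, map_add]
    show (f ⟨s (x : A), h1⟩ : A) + (f ⟨t (x : A), h2⟩ : A) = s (f x : A) + t (f x : A)
    rw [h1', h2']
  | neg s _ ihs =>
    intro x
    obtain ⟨h1, h1'⟩ := ihs x
    have h : (-s) (x : A) ∈ V := V.neg_mem h1
    refine ⟨h, ?_⟩
    have e : (⟨(-s) (x : A), h⟩ : V) = -⟨s (x : A), h1⟩ := Subtype.ext rfl
    rw [e, map_neg]
    show -(f ⟨s (x : A), h1⟩ : A) = -(s (f x : A))
    rw [h1']
  | mul s t _ _ ihs iht =>
    intro x
    obtain ⟨h2, h2'⟩ := iht x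
    obtain ⟨h1, h1'⟩ := ihs ⟨t (x : A), h2⟩
    refine ⟨h1, ?_⟩
    show (f ⟨s (t (x : A)), h1⟩ : A) = s (t (f x : A))
    rw [← h2']
    exact h1'

theorem t2_cl_gmst {K G A : Type} [DivisionRing K] [Group G] [AddCommGroup A] [Module K A]
    [DistribMulAction G A] (hs : ∀ g : G, Semi K (ac g : A ≃+ A)) (N : Subgroup G)
    (hN : N.Normal) (U : Submodule K A) (hU : St N U) (g : G) :
    St N (gm g U : Submodule K A) := by
  intro n hn x hx
  rw [(gm_stable hs U).1] at hx ⊢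
  have h1 : g⁻¹ * n * g⁻¹⁻¹ ∈ N := hN.conj_mem n hn g⁻¹
  have h2 := hU _ h1 _ hx
  rw [smul_smul] at h2 ⊢
  convert h2 using 2
  group

/-- the twisted automorphism -/
theorem t2_cl_alpha {K G A : Type} [DivisionRing K] [Group G] [AddCommGroup A] [Module K A]
    [DistribMulAction G A] (hs : ∀ g : G, Semi K (ac g : A ≃+ A)) (N : Subgroup G)
    (hN : N.Normal) (U : Submodule K A) (hU : St N U) (L : Subgroup G) (g : ↥L)
    (hg : IsoN N (gm (g : G) U) U)
    (U' : Submodule ↥(opR K (A := A) N) A) (hU' : ∀ x, x ∈ U' ↔ x ∈ U) :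
    ∃ α : ↥U' ≃+ ↥U', Cpt U' g α := by
  obtain ⟨f, hf⟩ := hg
  have hgm := (gm_stable hs U).1 (g : G)
  let e1 : ↥U' ≃+ ↥(gm (g : G) U : Submodule K A) :=
    { toFun := fun u => ⟨(g : G) • (u : A), (hgm _).2 (by
        rw [inv_smul_smul]; exact (hU' _).1 u.2)⟩
      invFun := fun x => ⟨(g : G)⁻¹ • (x : A), (hU' _).2 ((hgm _).1 x.2)⟩
      left_inv := fun u => Subtype.ext (inv_smul_smul _ _)
      right_inv := fun x => Subtype.ext (smul_inv_smul _ _)
      map_add' := fun u v => Subtype.ext (smul_add _ _ _) }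
  let e2 : ↥U ≃+ ↥U' :=
    { toFun := fun u => ⟨(u : A), (hU' _).2 u.2⟩
      invFun := fun x => ⟨(x : A), (hU' _).1 x.2⟩
      left_inv := fun u => rfl
      right_inv := fun x => rfl
      map_add' := fun u v => rfl }
  refine ⟨(e1.trans f.toAddEquiv).trans e2, ?_⟩
  intro r r' hrr x
  apply Subtype.ext
  obtain ⟨h1, h2⟩ := t2_cl_op N (gm (g : G) U : Submodule K A) U
    (t2_cl_gmst hs N hN U hU g) f hf (r' : AddMonoid.End A) r'.2 (e1 x)
  show (f (e1 (r • x)) : A) = (r' : AddMonoid.End A) (f (e1 x) : A)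
  rw [← h2]
  congr 2
  apply Subtype.ext
  exact hrr (x : A)

theorem t2_cl {K G A Q' : Type} [DivisionRing K] [Group G] [AddCommGroup A] [Module K A]
    [DistribMulAction G A] [Group Q'] (hs : ∀ g : G, Semi K (ac g : A ≃+ A)) (ρ' : G →* Q')
    (hsurj : Function.Surjective ρ') (hF : Fre K G A) (U : Submodule K A) (h0 : U ≠ ⊥)
    (hfd : FiniteDimensional K U)
    (hU : St ρ'.ker U) (hmin : ∀ V ≤ U, St ρ'.ker V → V = ⊥ ∨ V = U) (L : Subgroup G)
    (hNL : ρ'.ker ≤ L) (hL : ∀ g, g ∈ L ↔ IsoN ρ'.ker (gm g U) U) (hLi : L.index ≠ 0)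
    (hst : St L (isoM ρ'.ker U : Submodule K A))
    (hN : NoethFor (L : Set G) (isoM ρ'.ker U : Submodule K A)) :
    ∃ T : Set Q', WBadSet Q' T ∧ ∀ g ∈ L, ∀ W ≤ (isoM ρ'.ker U : Submodule K A), W ≠ ⊥ →
      FiniteDimensional K W → St ρ'.ker W → Stable (ac g : A ≃+ A) W → ρ' g ∈ T := by
  have hNn : (ρ'.ker).Normal := inferInstance
  obtain ⟨hsub1, hsub2, ⟨κ, hκ⟩, hnact⟩ := op_sub (K := K) (A := A) ρ'.ker
  obtain ⟨U', hU'⟩ := hsub1 U hU
  have hsimple : IsSimpleModule ↥(opR K (A := A) ρ'.ker) ↥U' := by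
    rw [isSimpleModule_iff_isAtom]
    refine ⟨?_, ?_⟩
    · intro hbot
      apply h0
      rw [eq_bot_iff]
      intro x hx
      have h1 := (hU' x).2 hx
      rw [hbot] at h1
      exact h1
    · intro V' hV'
      obtain ⟨V, hVst, hV⟩ := hsub2 V'
      have hVU : V ≤ U := fun x hx => (hU' x).1 (hV'.le ((hV x).1 hx))
      rcases hmin V hVU hVst with h | h
      · rw [eq_bot_iff]
        intro x hx
        have h1 := (hV x).2 hx
        rw [h] at h1
        exact h1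
      · exfalso
        apply hV'.not_ge
        intro x hx
        exact (hV x).1 (h ▸ (hU' x).1 hx)
  obtain ⟨S, hS1, hS2⟩ := fg_of_noe hs L (isoM ρ'.ker U) hst hN
  have hcomp : ∀ x, x ∈ isotypicComponent ↥(opR K (A := A) ρ'.ker) A ↥U' ↔
      x ∈ (isoM ρ'.ker U : Submodule K A) := fun x => op_comp ρ'.ker U hU U' hU' x
  obtain ⟨T, hT, hTg⟩ := cliff2 (K := K) (R := ↥(opR K (A := A) ρ'.ker)) (G := ↥L) (A := A)
    (Q' := Q') (fun g => hs g.1) κ hκ (fun g r => op_norm hs ρ'.ker hNn g.1 r) U' hsimple U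
    (fun x => (hU' x).symm) hfd
    (fun g => t2_cl_alpha hs ρ'.ker hNn U hU L g ((hL g.1).1 g.2) U' hU')
    (ρ'.comp L.subtype) (by
      rw [MonoidHom.range_comp, Subgroup.range_subtype]
      intro h
      have h1 := Subgroup.index_map_dvd L hsurj
      rw [h, zero_dvd_iff] at h1
      exact hLi h1)
    (fun g hg => hnact g.1 hg) S (fun s hs' => (hcomp s).2 (hS1 s hs')) (by
      intro x hx
      have h1 := (hcomp x).1 hx
      rw [hS2] at h1
      refine Submodule.span_mono ?_ h1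
      rintro y ⟨g, hg, s, hs', rfl⟩
      exact ⟨⟨g, hg⟩, s, hs', rfl⟩)
    (fun W _ hWfd hWst => fre_fi hs L hLi hF W hWfd hWst)
  refine ⟨T, hT, fun g hg W hW hW0 hWfd hWst hWs => ?_⟩
  obtain ⟨W', hW'⟩ := hsub1 W hWst
  exact hTg ⟨g, hg⟩ W (fun x hx => (hcomp x).2 (hW hx)) hWfd hWs hW0
    (fun r x hx => (hW' _).1 (W'.smul_mem r ((hW' x).2 hx)))

end Pool.Agent.Helper294.HallG
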