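import Pool.Agent.Helper294.HallG.Defs

set_option autoImplicit false

namespace Pool.Agent.Helper294.HallG

open Module Pool.Agent.Helper946.HC Pool.Agent.Helper946.S4 Pool.Agent.Helper294.HallM


theorem t2_simple {R M : Type} [Ring R] [AddCommGroup M] [Module R M] (𝒮 : Set (Submodule R M))
    (h𝒮 : ∀ S ∈ 𝒮, IsSimpleModule R ↥S) (P : Submodule R M) (hP : IsSimpleModule R ↥P)
    (hle : P ≤ sSup 𝒮) : ∃ S ∈ 𝒮, Nonempty (↥P ≃ₗ[R] ↥S) := by
  haveI : ∀ m : 𝒮, IsSimpleModule R m := fun m => h𝒮 m.1 m.2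
  haveI := hP
  obtain ⟨S, hS, he⟩ := Submodule.linearEquiv_of_le_sSup P 𝒮 hle
  exact ⟨S, hS, he⟩

end Pool.Agent.Helper294.HallG
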