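import Pool.Agent.Helper294.HallG.Defs
import Pool.Agent.Helper294.HallM.OpSub
import Pool.Agent.Helper294.HallM.OpIso
import Pool.Agent.Helper294.HallG.T2Simple

set_option autoImplicit false

namespace Pool.Agent.Helper294.HallG

open Module Pool.Agent.Helper946.HC Pool.Agent.Helper946.S4 Pool.Agent.Helper294.HallM



theorem t2_simpleN_atom {K G A : Type} [DivisionRing K] [Group G] [AddCommGroup A] [Module K A]
    [DistribMulAction G A] (N : Subgroup G) (S : Submodule K A)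
    (hS : S ≠ ⊥) (hmin : ∀ V ≤ S, St N V → V = ⊥ ∨ V = S)
    (S' : Submodule ↥(opR K (A := A) N) A) (hS' : ∀ x, x ∈ S' ↔ x ∈ S) :
    IsSimpleModule ↥(opR K (A := A) N) ↥S' := by
  obtain ⟨_, o2, _, _⟩ := op_sub (K := K) (A := A) N
  rw [isSimpleModule_iff_isAtom]
  constructor
  · intro h
    apply hS
    rw [Submodule.eq_bot_iff]
    intro x hx
    have h1 := (hS' x).2 hx
    rw [h] at h1
    exact (Submodule.mem_bot _).1 h1
  · intro V' hV'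
    obtain ⟨V, hV, hVV⟩ := o2 V'
    have hle : V ≤ S := fun x hx => (hS' x).1 (hV'.le ((hVV x).1 hx))
    rcases hmin V hle hV with h | h
    · rw [Submodule.eq_bot_iff]
      intro x hx
      have h1 := (hVV x).2 hx
      rw [h] at h1
      exact (Submodule.mem_bot _).1 h1
    · exfalso
      apply hV'.ne
      ext x
      rw [hS', ← hVV, h]

theorem t2_simpleN {K G A : Type} [DivisionRing K] [Group G] [AddCommGroup A] [Module K A]
    [DistribMulAction G A] (N : Subgroup G) (𝒮 : Set (Submodule K A))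
    (h𝒮 : ∀ S ∈ 𝒮, S ≠ ⊥ ∧ St N S ∧ ∀ V ≤ S, St N V → V = ⊥ ∨ V = S) (P : Submodule K A)
    (h0 : P ≠ ⊥) (hP : St N P) (hmin : ∀ V ≤ P, St N V → V = ⊥ ∨ V = P) (hle : P ≤ sSup 𝒮) :
    ∃ S ∈ 𝒮, IsoN N P S := by
  obtain ⟨o1, o2, _, _⟩ := op_sub (K := K) (A := A) N
  obtain ⟨P', hP'⟩ := o1 P hP
  have hPs := t2_simpleN_atom N P h0 hmin P' hP'
  let 𝒮' : Set (Submodule ↥(opR K (A := A) N) A) := {S' | ∃ S ∈ 𝒮, ∀ x, x ∈ S' ↔ x ∈ S}
  have h𝒮' : ∀ S' ∈ 𝒮', IsSimpleModule ↥(opR K (A := A) N) ↥S' := by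
    rintro S' ⟨S, hS, hSS⟩
    obtain ⟨h1, _, h3⟩ := h𝒮 S hS
    exact t2_simpleN_atom N S h1 h3 S' hSS
  have hle' : P' ≤ sSup 𝒮' := by
    obtain ⟨W, _, hWW⟩ := o2 (sSup 𝒮')
    have h1 : sSup 𝒮 ≤ W := by
      refine sSup_le fun S hS => ?_
      obtain ⟨S', hS'⟩ := o1 S (h𝒮 S hS).2.1
      have h2 : S' ≤ sSup 𝒮' := le_sSup ⟨S, hS, hS'⟩
      intro x hx
      exact (hWW x).2 (h2 ((hS' x).2 hx))
    intro x hx
    exact (hWW x).1 (h1 (hle ((hP' x).1 hx)))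
  obtain ⟨S', ⟨S, hS, hSS⟩, hiso⟩ := t2_simple 𝒮' h𝒮' P' hPs hle'
  exact ⟨S, hS, (op_iso N P S hP (h𝒮 S hS).2.1 P' S' hP' hSS).2 hiso⟩

end Pool.Agent.Helper294.HallG
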