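import Pool.Agent.Helper294.HallG.Defs
import Pool.Agent.Helper294.HX.HCNoeth
import Pool.Agent.Helper294.HallM.ClifMin
import Pool.Agent.Helper294.HallG.IsoGm
import Pool.Agent.Helper294.HallG.T2SimpleN

set_option autoImplicit false

namespace Pool.Agent.Helper294.HallG

open Module Pool.Agent.Helper946.HC Pool.Agent.Helper946.S4 Pool.Agent.Helper294.HallM


theorem t2_rec_chain {K A : Type} [DivisionRing K] [AddCommGroup A] [Module K A]
    (W : Submodule K A) (hfd : FiniteDimensional K W) (V : ℕ → Submodule K A)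
    (hle : ∀ k, V k ≤ W) (hlt : ∀ k, V k < V (k + 1)) : False := by
  have hVfd : ∀ k, FiniteDimensional K (V k) := fun k =>
    Submodule.finiteDimensional_of_le (hle k)
  have h1 : ∀ k, k ≤ finrank K (V k) := by
    intro k
    induction k with
    | zero => exact Nat.zero_le _
    | succ k ih =>
      have := hVfd (k + 1)
      have := Submodule.finrank_lt_finrank_of_lt (hlt k)
      omega
  have h2 := Submodule.finrank_mono (hle (finrank K W + 1))
  have h3 := h1 (finrank K W + 1)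
  omega

theorem t2_rec {K G A : Type} [DivisionRing K] [Group G] [AddCommGroup A] [Module K A]
    [DistribMulAction G A] (hs : ∀ g : G, Semi K (ac g : A ≃+ A)) (N : Subgroup G) (hNn : N.Normal)
    (g : G) (W : Submodule K A) (h0 : W ≠ ⊥) (hfd : FiniteDimensional K W) (hst : St N W)
    (hgW : Stable (ac g : A ≃+ A) W) :
    ∃ n : ℕ, 0 < n ∧ ∃ P ≤ W, P ≠ ⊥ ∧ St N P ∧ (∀ V ≤ P, St N V → V = ⊥ ∨ V = P) ∧
      IsoN N (gm (g ^ n) P) P := by
  obtain ⟨P, hPW, hP0, hPfd, hPst, hPmin⟩ := clif_min N W h0 hfd hst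
  obtain ⟨-, -, -, hmap, hmul, hone, hmin, -⟩ := iso_gm (K := K) (A := A) hs N hNn
  have hpow : ∀ (i : ℕ) (x : A), x ∈ W → g ^ i • x ∈ W := by
    intro i
    induction i with
    | zero => intro x hx; rwa [pow_zero, one_smul]
    | succ i ih =>
      intro x hx
      rw [pow_succ, mul_smul]
      exact ih _ ((hgW x).2 hx)
  have hle : ∀ i : ℕ, (gm (g ^ i) P : Submodule K A) ≤ W := by
    intro i y hy
    rw [mem_gm hs] at hy
    obtain ⟨x, hx, rfl⟩ := hy
    exact hpow i x (hPW hx)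
  have hex : ∃ i j : ℕ, i < j ∧ IsoN N (gm (g ^ j) P : Submodule K A) (gm (g ^ i) P) := by
    by_contra hcon
    push Not at hcon
    refine t2_rec_chain W hfd
      (fun k => sSup {S | ∃ i : ℕ, i < k ∧ S = (gm (g ^ i) P : Submodule K A)}) ?_ ?_
    · intro k
      apply sSup_le
      rintro S ⟨i, -, rfl⟩
      exact hle i
    · intro k
      refine lt_of_le_of_ne (sSup_le_sSup ?_) ?_
      · rintro S ⟨i, hi, rfl⟩
        exact ⟨i, by omega, rfl⟩
      · intro heq
        have h1 : (gm (g ^ k) P : Submodule K A) ≤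
            sSup {S | ∃ i : ℕ, i < k ∧ S = (gm (g ^ i) P : Submodule K A)} := by
          rw [heq]
          exact le_sSup ⟨k, by omega, rfl⟩
        obtain ⟨h2, h3, h4⟩ := hmin (g ^ k) P hP0 hPst hPmin
        obtain ⟨S, ⟨i, hi, rfl⟩, hiso⟩ := t2_simpleN N
          {S | ∃ i : ℕ, i < k ∧ S = (gm (g ^ i) P : Submodule K A)} (by
            rintro S ⟨i, -, rfl⟩
            exact hmin (g ^ i) P hP0 hPst hPmin) _ h2 h3 h4 h1
        exact hcon i k hi hiso
  obtain ⟨i, j, hij, hiso⟩ := hex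
  refine ⟨j - i, by omega, P, hPW, hP0, hPst, hPmin, ?_⟩
  have h5 := hmap (g ^ i)⁻¹ _ _ hiso
  rw [← hmul, ← hmul, inv_mul_cancel, hone] at h5
  have h6 : (g ^ i)⁻¹ * g ^ j = g ^ (j - i) := by
    rw [inv_mul_eq_iff_eq_mul, ← pow_add]
    congr 1
    omega
  rwa [h6] at h5

end Pool.Agent.Helper294.HallG
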