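import Pool.Agent.Helper294.HallG.Defs
import Pool.Agent.Helper294.HX.HCNoeth
import Pool.Agent.Helper294.HallM.SysNoe
import Pool.Agent.Helper294.HallM.ClifMin
import Pool.Agent.Helper294.HallM.ClifL
import Pool.Agent.Helper294.HallM.ClifInd
import Pool.Agent.Helper294.HallM.IndNoe
import Pool.Agent.Helper294.HallM.GmStable
import Pool.Agent.Helper294.HallG.GenPerm
import Pool.Agent.Helper294.HallG.IsoGm
import Pool.Agent.Helper294.HallG.T2Cl
import Pool.Agent.Helper294.HallG.T2Fin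
import Pool.Agent.Helper294.HallG.T2Rec

set_option autoImplicit false

namespace Pool.Agent.Helper294.HallG

open Module Pool.Agent.Helper946.HC Pool.Agent.Helper946.S4 Pool.Agent.Helper294.HallM


theorem t2_wb {Q' : Type} [Group Q'] {S : Set Q'} (hS : WBadSet Q' S) (y q : Q') (n : ℕ)
    (hn : 0 < n) (h : q⁻¹ * y ^ n * q ∈ S) : y ∈ S := by
  obtain ⟨K, G, A, i1, i2, i3, i4, i5, ρ, _, _, _, rfl⟩ := hS
  obtain ⟨m, hm, q', g', hg', hbad⟩ := h
  refine ⟨n * m, Nat.mul_pos hn hm, q * q', g', ?_, hbad⟩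
  rw [hg']
  have h1 : (q⁻¹ * y ^ n * q) ^ m = q⁻¹ * y ^ (n * m) * q := by
    have h2 := conj_pow (a := q⁻¹) (b := y ^ n) (i := m)
    rw [inv_inv] at h2
    rw [h2, pow_mul]
  rw [h1]
  group

section t2aux

variable {K G A : Type} [DivisionRing K] [Group G] [AddCommGroup A] [Module K A]
    [DistribMulAction G A]

theorem t2_span (hs : ∀ g : G, Semi K (ac g : A ≃+ A)) (s : Set A) (a : G)
    (h : ∀ y ∈ s, a • y ∈ Submodule.span K s) (x : A) (hx : x ∈ Submodule.span K s) :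
    a • x ∈ Submodule.span K s := by
  obtain ⟨σ, hσ⟩ := hs a
  induction hx using Submodule.span_induction with
  | mem y hy => exact h y hy
  | zero => rw [smul_zero]; exact Submodule.zero_mem _
  | add y z _ _ hy hz => rw [smul_add]; exact Submodule.add_mem _ hy hz
  | smul c y _ hy =>
    have h1 : a • (c • y) = σ c • (a • y) := hσ c y
    rw [h1]
    exact Submodule.smul_mem _ _ hy

theorem t2_finset (N : Subgroup G)
    (hII : ∀ a : A, ∃ W : Submodule K A, FiniteDimensional K W ∧ St N W ∧ a ∈ W)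
    (s : Finset A) : ∃ V : Submodule K A, FiniteDimensional K V ∧ St N V ∧ (s : Set A) ⊆ V := by
  classical
  induction s using Finset.induction_on with
  | empty =>
    refine ⟨⊥, inferInstance, ?_, by simp⟩
    intro g _ x hx
    rw [Submodule.mem_bot] at hx ⊢
    rw [hx, smul_zero]
  | insert a s _ ih =>
    obtain ⟨V, hV, hV2, hV3⟩ := ih
    obtain ⟨W, hW, hW2, hW3⟩ := hII a
    refine ⟨V ⊔ W, inferInstance, ?_, ?_⟩
    · intro g hg x hx
      obtain ⟨y, hy, z, hz, rfl⟩ := Submodule.mem_sup.mp hx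
      rw [smul_add]
      exact Submodule.add_mem _ (Submodule.mem_sup_left (hV2 g hg y hy))
        (Submodule.mem_sup_right (hW2 g hg z hz))
    · intro x hx
      rw [Finset.coe_insert] at hx
      rcases hx with rfl | hx
      · exact Submodule.mem_sup_right hW3
      · exact Submodule.mem_sup_left (hV3 hx)

theorem t2_hull (hs : ∀ g : G, Semi K (ac g : A ≃+ A)) (N : Subgroup G) (hNn : N.Normal)
    (hII : ∀ a : A, ∃ W : Submodule K A, FiniteDimensional K W ∧ St N W ∧ a ∈ W)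
    (g : G) (W : Submodule K A) (h0 : W ≠ ⊥) (hfd : FiniteDimensional K W)
    (hgW : Stable (ac g : A ≃+ A) W) :
    ∃ W' : Submodule K A, W' ≠ ⊥ ∧ FiniteDimensional K W' ∧ St N W' ∧
      Stable (ac g : A ≃+ A) W' := by
  have hgW' : ∀ x, g • x ∈ W ↔ x ∈ W := hgW
  set s : Set A := {y | ∃ n ∈ N, ∃ w ∈ W, y = n • w} with hs'
  have hWs : W ≤ Submodule.span K s := by
    intro w hw
    exact Submodule.subset_span ⟨1, N.one_mem, w, hw, (one_smul _ _).symm⟩
  have hst : St N (Submodule.span K s) := by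
    intro m hm x hx
    refine t2_span hs s m ?_ x hx
    rintro _ ⟨n, hn, w, hw, rfl⟩
    exact Submodule.subset_span ⟨m * n, N.mul_mem hm hn, w, hw, (mul_smul _ _ _).symm⟩
  have hconj : ∀ a : G, (∀ w ∈ W, a • w ∈ W) → ∀ x ∈ Submodule.span K s,
      a • x ∈ Submodule.span K s := by
    intro a ha x hx
    refine t2_span hs s a ?_ x hx
    rintro _ ⟨n, hn, w, hw, rfl⟩
    refine Submodule.subset_span ⟨a * n * a⁻¹, hNn.conj_mem n hn a, a • w, ha w hw, ?_⟩
    rw [← mul_smul, ← mul_smul]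
    congr 1
    group
  refine ⟨Submodule.span K s, ?_, ?_, hst, ?_⟩
  · intro h
    apply h0
    rw [h] at hWs
    exact le_bot_iff.mp hWs
  · obtain ⟨t, ht⟩ := (Module.Finite.iff_fg.mp hfd : W.FG)
    obtain ⟨V, hV, hV2, hV3⟩ := t2_finset N hII t
    have hWV : W ≤ V := by
      rw [← ht]
      exact Submodule.span_le.mpr hV3
    have hle : Submodule.span K s ≤ V := by
      refine Submodule.span_le.mpr ?_
      rintro _ ⟨n, hn, w, hw, rfl⟩
      exact hV2 n hn w (hWV hw)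
    exact Submodule.finiteDimensional_of_le hle
  · intro x
    change g • x ∈ Submodule.span K s ↔ x ∈ Submodule.span K s
    constructor
    · intro h
      have h1 := hconj g⁻¹ (fun w hw => by
        rw [← hgW', smul_inv_smul]
        exact hw) _ h
      rwa [inv_smul_smul] at h1
    · exact hconj g (fun w hw => (hgW' w).mpr hw) x

theorem t2_pow (g : G) (W : Submodule K A) (hgW : Stable (ac g : A ≃+ A) W) (n : ℕ) (x : A) :
    (g ^ n) • x ∈ W ↔ x ∈ W := by
  have hgW' : ∀ x, g • x ∈ W ↔ x ∈ W := hgW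
  induction n with
  | zero => simp
  | succ n ih =>
    rw [pow_succ', mul_smul, hgW']
    exact ih

end t2aux

theorem t2 {K G A Q : Type} [DivisionRing K] [Group G] [AddCommGroup A] [Module K A]
    [DistribMulAction G A] [Group Q] {ρ : G →* Q} (hQ : PC Q) (hρ : Function.Surjective ρ) (hS : Sys K G A Q ρ)
    (hF : Fre K G A) (E : Subgroup Q) [E.Normal]
    (hII : ∀ a : A, ∃ W : Submodule K A, FiniteDimensional K W ∧ St (E.comap ρ) W ∧ a ∈ W) :
    ∃ F : Set (Set (Q ⧸ E)), F.Finite ∧ (∀ S ∈ F, WBadSet (Q ⧸ E) S) ∧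
      ∀ g : G, BadEl K A g → ∃ S ∈ F, (QuotientGroup.mk (ρ g) : Q ⧸ E) ∈ S := by
  classical
  have hs := hS.semi
  have hNo := sys_noe hQ hρ hS
  set ρ' : G →* Q ⧸ E := (QuotientGroup.mk' E).comp ρ with hρ'
  have hsurj : Function.Surjective ρ' := (QuotientGroup.mk'_surjective E).comp hρ
  have hker : E.comap ρ = ρ'.ker := by
    ext g
    rw [Subgroup.mem_comap, MonoidHom.mem_ker, hρ', MonoidHom.comp_apply, QuotientGroup.mk'_apply,
      QuotientGroup.eq_one_iff]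
  rw [hker] at hII
  have hNn : (ρ'.ker).Normal := inferInstance
  obtain ⟨F0, hF0, hF1, hF2⟩ := t2_fin hs hNo ρ'.ker hNn
  obtain ⟨j1, j2, j3, j4, j5, j6, j7, j8⟩ := iso_gm hs ρ'.ker hNn
  -- the bad set belonging to `U`
  have hSU : ∀ U : Submodule K A, ∃ S : Set (Q ⧸ E), U ∈ F0 → WBadSet (Q ⧸ E) S ∧
      ∀ γ : G, IsoN ρ'.ker (gm γ U) U →
        (∃ W ≤ (isoM ρ'.ker U : Submodule K A), W ≠ ⊥ ∧ FiniteDimensional K W ∧ St ρ'.ker W ∧
          Stable (ac γ : A ≃+ A) W) → ρ' γ ∈ S := by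
    intro U
    by_cases hU : U ∈ F0
    swap
    · exact ⟨∅, fun h => absurd h hU⟩
    obtain ⟨hU0, hUfd, hUst, hUmin⟩ := hF1 U hU
    obtain ⟨L, hNL, hL, hLst, hUle⟩ := clif_L hs ρ'.ker hNn U hUst
    by_cases hi : L.index = 0
    · have hi' : (L.map ρ').index = 0 := by
        rw [← Subgroup.index_comap_of_surjective (L.map ρ') hsurj, Subgroup.comap_map_eq,
          sup_eq_left.mpr hNL]
        exact hi
      obtain ⟨S, hSb, hS2⟩ := gen_perm (L.map ρ') hi'
      refine ⟨S, fun _ => ⟨hSb, fun γ hγ _ => ?_⟩⟩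
      refine hS2 (ρ' γ) ⟨1, one_pos, 1, ?_⟩
      rw [inv_one, one_mul, pow_one, mul_one]
      exact Subgroup.mem_map_of_mem ρ' ((hL γ).mpr hγ)
    · have hind := clif_ind hs ρ'.ker hNn U hU0 hUst hUmin L hL
      have hnoe := ind_noe hs L (isoM ρ'.ker U) hLst hind hNo
      obtain ⟨T, hT, hT2⟩ := t2_cl hs ρ' hsurj hF U hU0 hUfd hUst hUmin L hNL hL hi hLst hnoe
      refine ⟨T, fun _ => ⟨hT, fun γ hγ hW => ?_⟩⟩
      obtain ⟨W, hW1, hW2, hW3, hW4, hW5⟩ := hW
      exact hT2 γ ((hL γ).mpr hγ) W hW1 hW2 hW3 hW4 hW5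
  choose S hS' using hSU
  refine ⟨S '' F0, hF0.image S, ?_, ?_⟩
  · rintro _ ⟨U, hU, rfl⟩
    exact (hS' U hU).1
  intro g hbad
  obtain ⟨W, hW0, hWfd, hWg⟩ := hbad
  obtain ⟨W', hW'0, hW'fd, hW'st, hW'g⟩ := t2_hull hs ρ'.ker hNn hII g W hW0 hWfd hWg
  obtain ⟨n, hn, P, hPW, hP0, hPst, hPmin, hPiso⟩ :=
    t2_rec hs ρ'.ker hNn g W' hW'0 hW'fd hW'st hW'g
  have hPfd : FiniteDimensional K P := Submodule.finiteDimensional_of_le hPW
  obtain ⟨U, hU, h, hiso⟩ := hF2 P hP0 hPfd hPst hPmin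
  obtain ⟨hU0, hUfd, hUst, hUmin⟩ := hF1 U hU
  refine ⟨S U, ⟨U, hU, rfl⟩, ?_⟩
  have hgoal : ρ' g ∈ S U := by
    obtain ⟨hSb, hSp⟩ := hS' U hU
    apply t2_wb hSb (ρ' g) (ρ' h) n hn
    have e1 : (ρ' h)⁻¹ * ρ' g ^ n * ρ' h = ρ' (h⁻¹ * (g ^ n * h)) := by
      rw [map_mul, map_mul, map_inv, map_pow, mul_assoc]
    rw [e1]
    have hhU : IsoN ρ'.ker (gm h U) P := j2 P (gm h U) hPst hiso
    have hback : (gm h⁻¹ (gm h U) : Submodule K A) = U := by
      rw [← j5, inv_mul_cancel, j6]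
    have hγ : IsoN ρ'.ker (gm (h⁻¹ * (g ^ n * h)) U) U := by
      rw [j5, j5]
      have a1 : IsoN ρ'.ker (gm (g ^ n) (gm h U)) (gm h U) :=
        j3 _ _ _ (j3 _ _ _ (j4 (g ^ n) _ _ hhU) hPiso) hiso
      have a2 := j4 h⁻¹ _ _ a1
      rw [hback] at a2
      exact a2
    refine hSp _ hγ ?_
    obtain ⟨L, hNL, hL, hLst, hUle⟩ := clif_L hs ρ'.ker hNn U hUst
    have hgmm : ∀ (a : G) (V : Submodule K A) (x : A), x ∈ (gm a V : Submodule K A) ↔
        a⁻¹ • x ∈ V := fun a V x => (gm_stable hs V).1 a x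
    have hP' := j7 h⁻¹ P hP0 hPst hPmin
    have hPU : IsoN ρ'.ker (gm h⁻¹ P) U := by
      have a2 := j4 h⁻¹ _ _ hiso
      rw [hback] at a2
      exact a2
    have hPle : (gm h⁻¹ P : Submodule K A) ≤ isoM ρ'.ker U := le_sSup ⟨hP'.2.1, hPU⟩
    have hPW' : (gm h⁻¹ P : Submodule K A) ≤ gm h⁻¹ W' := by
      intro x hx
      rw [hgmm] at hx ⊢
      exact hPW hx
    refine ⟨gm h⁻¹ W' ⊓ isoM ρ'.ker U, inf_le_right, ?_, ?_, ?_, ?_⟩
    · intro hb
      apply hP'.1
      rw [← le_bot_iff, ← hb]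
      exact le_inf hPW' hPle
    · have hfd' := (j8 h⁻¹ W' hW'fd).1
      exact Submodule.finiteDimensional_of_le (inf_le_left : gm h⁻¹ W' ⊓ isoM ρ'.ker U ≤ gm h⁻¹ W')
    · intro m hm x hx
      obtain ⟨hx1, hx2⟩ := Submodule.mem_inf.mp hx
      refine Submodule.mem_inf.mpr ⟨?_, hLst m (hNL hm) x hx2⟩
      rw [hgmm, inv_inv] at hx1 ⊢
      have e2 : h • m • x = (h * m * h⁻¹) • (h • x) := by
        rw [← mul_smul, ← mul_smul]
        congr 1
        group
      rw [e2]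
      exact hW'st _ (hNn.conj_mem m hm h) _ hx1
    · intro x
      change (h⁻¹ * (g ^ n * h)) • x ∈ gm h⁻¹ W' ⊓ isoM ρ'.ker U ↔ x ∈ gm h⁻¹ W' ⊓ isoM ρ'.ker U
      rw [Submodule.mem_inf, Submodule.mem_inf]
      have hγL : h⁻¹ * (g ^ n * h) ∈ L := (hL _).mpr hγ
      refine and_congr ?_ ?_
      · rw [hgmm, hgmm, inv_inv, ← mul_smul, mul_inv_cancel_left, mul_smul]
        exact t2_pow g W' hW'g n (h • x)
      · constructor
        · intro hx
          have h3 := hLst _ (L.inv_mem hγL) _ hx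
          rwa [inv_smul_smul] at h3
        · intro hx
          exact hLst _ hγL x hx
  exact hgoal


end Pool.Agent.Helper294.HallG

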