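import Pool.Agent.Helper294.HallG.Defs
import Pool.Agent.Helper294.HX.HCNoeth
import Pool.Agent.Helper294.HallM.SysNoe
import Pool.Agent.Helper294.HallM.FgOfNoe

set_option autoImplicit false

namespace Pool.Agent.Helper294.HallG

open Module Pool.Agent.Helper946.HC Pool.Agent.Helper946.S4 Pool.Agent.Helper294.HallM


@[reducible] def typ2_quot_act {K G A : Type} [DivisionRing K] [Group G] [AddCommGroup A] [Module K A]
    [DistribMulAction G A] (N : Subgroup G) (C : Submodule K A) (hC : St N C) :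
    DistribMulAction ↥N ↥C where
  smul n x := ⟨(n : G) • (x : A), hC n n.2 x x.2⟩
  one_smul x := Subtype.ext (one_smul G (x : A))
  mul_smul m n x := Subtype.ext (mul_smul (m : G) (n : G) (x : A))
  smul_zero n := Subtype.ext (smul_zero (n : G))
  smul_add n x y := Subtype.ext (smul_add (n : G) (x : A) (y : A))

theorem typ2_quot_stC {K G A : Type} [DivisionRing K] [Group G] [AddCommGroup A] [Module K A]
    [DistribMulAction G A] (hs : ∀ g : G, Semi K (ac g : A ≃+ A)) (N : Subgroup G) (a : A) :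
    St N (Submodule.span K {x : A | ∃ n ∈ N, x = n • a}) := by
  intro g hg x hx
  induction hx using Submodule.span_induction with
  | mem x hx =>
    obtain ⟨n, hn, rfl⟩ := hx
    rw [← mul_smul]
    exact Submodule.subset_span ⟨g * n, N.mul_mem hg hn, rfl⟩
  | zero => rw [smul_zero]; exact Submodule.zero_mem _
  | add x y _ _ hx hy => rw [smul_add]; exact Submodule.add_mem _ hx hy
  | smul k x _ hx =>
    obtain ⟨σ, hσ⟩ := hs g
    have : g • (k • x) = σ k • (g • x) := hσ k x
    rw [this]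
    exact Submodule.smul_mem _ _ hx

theorem typ2_quot_top {K G A : Type} [DivisionRing K] [Group G] [AddCommGroup A] [Module K A]
    [DistribMulAction G A] (C : Submodule K A) (N : Subgroup G) (a : A) (hst : St N C)
    (haC : a ∈ C) (hC : C = Submodule.span K {x : A | ∃ n ∈ N, x = n • a})
    (T : Submodule K ↥C) (hT : ∀ (n : G) (hn : n ∈ N), (⟨n • a, hst n hn a haC⟩ : ↥C) ∈ T) :
    T = ⊤ := by
  rw [eq_top_iff]
  rintro ⟨x, hx⟩ -
  have h1 : Submodule.span K {x : A | ∃ n ∈ N, x = n • a} ≤ T.map C.subtype := by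
    rw [Submodule.span_le]
    rintro y ⟨n, hn, rfl⟩
    exact ⟨⟨n • a, hst n hn a haC⟩, hT n hn, rfl⟩
  have h2 : x ∈ T.map C.subtype := h1 (hC ▸ hx)
  obtain ⟨y, hy, hyx⟩ := h2
  have : (⟨x, hx⟩ : ↥C) = y := Subtype.ext hyx.symm
  rw [this]
  exact hy

theorem typ2_quot_noe {K G A Q : Type} [DivisionRing K] [Group G] [AddCommGroup A] [Module K A]
    [DistribMulAction G A] [Group Q]
    {ρ : G →* Q} (hρ : Function.Surjective ρ)
    (hs : ∀ g : G, Semi K (ac g : A ≃+ A))
    (hsc : ∀ g : G, ρ g = 1 → ∃ c : K, ∀ a : A, g • a = c • a) (E : Subgroup Q) (hE : PC ↥E)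
    (a : A) (B : Submodule K A) :
    NoethFor ((E.comap ρ : Subgroup G) : Set G)
      (Submodule.span K {x : A | ∃ n ∈ E.comap ρ, x = n • a} ⊓ B) := by
  set N : Subgroup G := E.comap ρ with hN
  set C : Submodule K A := Submodule.span K {x : A | ∃ n ∈ N, x = n • a} with hC
  have hst : St N C := typ2_quot_stC hs N a
  have haC : a ∈ C := Submodule.subset_span ⟨1, N.one_mem, (one_smul G a).symm⟩
  letI inst : DistribMulAction ↥N ↥C := typ2_quot_act N C hst
  have hsmul : ∀ (n : ↥N) (x : ↥C), ((n • x : ↥C) : A) = (n : G) • (x : A) := fun _ _ => rfl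
  let ρN : ↥N →* ↥E := ρ.subgroupComap E
  have hρN : Function.Surjective ρN := by
    rintro ⟨q, hq⟩
    obtain ⟨g, rfl⟩ := hρ q
    exact ⟨⟨g, hq⟩, rfl⟩
  have hS : Sys K ↥N ↥C ↥E ρN := by
    refine ⟨?_, ?_, ?_⟩
    · intro g
      obtain ⟨σ, hσ⟩ := hs (g : G)
      exact ⟨σ, fun k x => Subtype.ext (hσ k x)⟩
    · intro g hg
      have h1 : ρ (g : G) = 1 := congrArg Subtype.val hg
      obtain ⟨c, hc⟩ := hsc g h1
      exact ⟨c, fun x => Subtype.ext (hc x)⟩
    · refine ⟨{⟨a, haC⟩}, ?_⟩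
      have hT : ∀ (n : G) (hn : n ∈ N), (⟨n • a, hst n hn a haC⟩ : ↥C) ∈
          Submodule.span K {x : ↥C | ∃ g : ↥N, ∃ s ∈ ({⟨a, haC⟩} : Finset ↥C), x = g • s} := by
        intro n hn
        apply Submodule.subset_span
        refine ⟨⟨n, hn⟩, ⟨a, haC⟩, Finset.mem_singleton_self _, ?_⟩
        apply Subtype.ext
        rw [hsmul]
      exact typ2_quot_top C N a hst haC hC _ hT
  have hnoe := sys_noe hE hρN hS
  intro f hf hf2
  obtain ⟨n, hn⟩ := hnoe (fun n => (f n).comap C.subtype)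
    (fun i j hij x hx => hf hij hx)
    (fun n => ⟨le_top, fun g _ x hx => (hf2 n).2 (g : G) g.2 (x : A) hx⟩)
  refine ⟨n, fun m hm => ?_⟩
  have h1 := hn m hm
  have key : ∀ i, f i = ((f i).comap C.subtype).map C.subtype := by
    intro i
    rw [Submodule.map_comap_subtype]
    exact (inf_eq_right.2 (((hf2 i).1).trans inf_le_left)).symm
  rw [key m, key n]
  exact congrArg (fun X => Submodule.map C.subtype X) h1

theorem typ2_quot {K G A Q : Type} [DivisionRing K] [Group G] [AddCommGroup A] [Module K A]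
    [DistribMulAction G A] [Group Q] {A₂ : Type} [AddCommGroup A₂] [Module K A₂] [DistribMulAction G A₂]
    {ρ : G →* Q} (hρ : Function.Surjective ρ)
    (hs : ∀ g : G, Semi K (ac g : A ≃+ A))
    (hsc : ∀ g : G, ρ g = 1 → ∃ c : K, ∀ a : A, g • a = c • a) (E : Subgroup Q) (hE : PC ↥E)
    (B : Submodule K A)
    (hB : ∀ a, a ∈ B ↔ ∃ W : Submodule K A, FiniteDimensional K W ∧ St (E.comap ρ) W ∧ a ∈ W)
    (π : A →ₗ[K] A₂) (hsurj : Function.Surjective π) (hπ : LinearMap.ker π = B)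
    (heq : ∀ (g : G) (a : A), π (g • a) = g • π a) :
    ∀ W : Submodule K A₂, FiniteDimensional K W → St (E.comap ρ) W → W = ⊥ := by
  classical
  intro W hWfd hW
  rw [eq_bot_iff]
  intro w hw
  obtain ⟨a, rfl⟩ := hsurj w
  set N : Subgroup G := E.comap ρ with hN
  set C : Submodule K A := Submodule.span K {x : A | ∃ n ∈ N, x = n • a} with hC
  have hst : St N C := typ2_quot_stC hs N a
  have haC : a ∈ C := Submodule.subset_span ⟨1, N.one_mem, (one_smul G a).symm⟩
  have hstB : St N (C ⊓ B) := by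
    intro g hg x hx
    refine ⟨hst g hg x hx.1, ?_⟩
    obtain ⟨V, hV1, hV2, hV3⟩ := (hB x).1 hx.2
    exact (hB _).2 ⟨V, hV1, hV2, hV2 g hg x hV3⟩
  obtain ⟨S, hS1, hS2⟩ := fg_of_noe hs N (C ⊓ B) hstB (typ2_quot_noe hρ hs hsc E hE a B)
  have hV : ∀ s : A, ∃ V : Submodule K A, s ∈ S → V.FG ∧ St N V ∧ s ∈ V := by
    intro s
    by_cases hs' : s ∈ S
    · obtain ⟨V, hV1, hV2, hV3⟩ := (hB s).1 (hS1 s hs').2
      exact ⟨V, fun _ => ⟨(Submodule.fg_iff_finiteDimensional V).2 hV1, hV2, hV3⟩⟩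
    · exact ⟨⊥, fun h => absurd h hs'⟩
  choose V hV using hV
  have hfgsup : (S.sup V).FG := by
    apply Submodule.fg_finset_sup
    intro s hs'
    exact (hV s hs').1
  have hle : C ⊓ B ≤ S.sup V := by
    rw [hS2, Submodule.span_le]
    rintro x ⟨g, hg, s, hs', rfl⟩
    have h1 : g • s ∈ V s := (hV s hs').2.1 g hg s (hV s hs').2.2
    exact (Finset.le_sup (f := V) hs') h1
  have hfd1 : (C ⊓ B).FG := by
    haveI : FiniteDimensional K ↥(S.sup V) := (Submodule.fg_iff_finiteDimensional _).1 hfgsup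
    exact (Submodule.fg_iff_finiteDimensional _).2 (Submodule.finiteDimensional_of_le hle)
  have hfd2 : (C.map π).FG := by
    have hle2 : C.map π ≤ W := by
      rw [Submodule.map_le_iff_le_comap, hC, Submodule.span_le]
      rintro x ⟨g, hg, rfl⟩
      show π (g • a) ∈ W
      rw [heq]
      exact hW g hg _ hw
    exact (Submodule.fg_iff_finiteDimensional _).2 (Submodule.finiteDimensional_of_le hle2)
  have hCfg : C.FG := by
    apply Submodule.fg_of_fg_map_of_fg_inf_ker π hfd2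
    rw [hπ]
    exact hfd1
  have haB : a ∈ B := (hB a).2 ⟨C, (Submodule.fg_iff_finiteDimensional _).1 hCfg, hst, haC⟩
  rw [← hπ] at haB
  exact haB

end Pool.Agent.Helper294.HallG
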