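import Pool.Agent.Helper294.HallG.Defs
import Pool.Agent.Helper294.HX.HCNoeth

set_option autoImplicit false

namespace Pool.Agent.Helper294.HallG

open Module Pool.Agent.Helper946.HC Pool.Agent.Helper946.S4 Pool.Agent.Helper294.HallM


theorem typ2_sub_fd {K G A : Type} [DivisionRing K] [Group G] [AddCommGroup A] [Module K A]
    [DistribMulAction G A] (hs : ∀ g : G, Semi K (ac g : A ≃+ A)) (g : G) (W : Submodule K A)
    (hW : FiniteDimensional K W) : FiniteDimensional K (gm g W : Submodule K A) := by
  classical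
  have h1 : W.FG := Submodule.fg_iff_finiteDimensional W |>.2 hW
  obtain ⟨S, hS⟩ := h1
  obtain ⟨σ, hσ⟩ := hs g
  have key : ∀ x ∈ Submodule.span K (S : Set A),
      g • x ∈ Submodule.span K ((S.image (fun x => g • x) : Finset A) : Set A) := by
    intro x hx
    induction hx using Submodule.span_induction with
    | mem x hx =>
      apply Submodule.subset_span
      simp only [Finset.coe_image, Set.mem_image]
      exact ⟨x, hx, rfl⟩
    | zero => rw [smul_zero]; exact Submodule.zero_mem _
    | add x y _ _ h1 h2 => rw [smul_add]; exact Submodule.add_mem _ h1 h2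
    | smul k x _ h1 =>
      have h2 : g • (k • x) = σ k • (g • x) := hσ k x
      rw [h2]
      exact Submodule.smul_mem _ _ h1
  have h2 : (gm g W : Submodule K A) =
      Submodule.span K ((S.image (fun x => g • x) : Finset A) : Set A) := by
    apply le_antisymm
    · unfold gm
      rw [Submodule.span_le]
      rintro y ⟨x, hx, rfl⟩
      rw [← hS] at hx
      exact key x hx
    · rw [Submodule.span_le]
      intro y hy
      simp only [Finset.coe_image, Set.mem_image] at hy
      obtain ⟨x, hx, rfl⟩ := hy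
      apply Submodule.subset_span
      refine ⟨x, ?_, rfl⟩
      rw [← hS]
      exact Submodule.subset_span hx
  have h3 : (gm g W : Submodule K A).FG := ⟨_, h2.symm⟩
  exact Submodule.fg_iff_finiteDimensional _ |>.1 h3

theorem typ2_sub_st {K G A : Type} [DivisionRing K] [Group G] [AddCommGroup A] [Module K A]
    [DistribMulAction G A] (hs : ∀ g : G, Semi K (ac g : A ≃+ A)) (N : Subgroup G) (hN : N.Normal)
    (g : G) (W : Submodule K A) (hW : St N W) : St N (gm g W : Submodule K A) := by
  intro n hn y hy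
  rw [mem_gm hs] at hy ⊢
  obtain ⟨x, hx, rfl⟩ := hy
  refine ⟨(g⁻¹ * n * g) • x, hW _ ?_ x hx, ?_⟩
  · have := hN.conj_mem n hn g⁻¹
    rwa [inv_inv] at this
  · rw [smul_smul, smul_smul]
    congr 1
    group

theorem typ2_sub {K G A : Type} [DivisionRing K] [Group G] [AddCommGroup A] [Module K A]
    [DistribMulAction G A] (hs : ∀ g : G, Semi K (ac g : A ≃+ A)) (N : Subgroup G) (hN : N.Normal) :
    ∃ B : Submodule K A,
      (∀ a, a ∈ B ↔ ∃ W : Submodule K A, FiniteDimensional K W ∧ St N W ∧ a ∈ W) ∧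
      St (⊤ : Subgroup G) B := by
  refine ⟨{ carrier := {a | ∃ W : Submodule K A, FiniteDimensional K W ∧ St N W ∧ a ∈ W}
            zero_mem' := ⟨⊥, inferInstance, ?_, Submodule.zero_mem _⟩
            add_mem' := ?_
            smul_mem' := ?_ }, fun a => Iff.rfl, ?_⟩
  · rintro a b ⟨W, h1, h2, h3⟩ ⟨W', h1', h2', h3'⟩
    refine ⟨W ⊔ W', inferInstance, ?_, Submodule.add_mem _ (Submodule.mem_sup_left h3)
      (Submodule.mem_sup_right h3')⟩
    intro g hg x hx
    rw [Submodule.mem_sup] at hx
    obtain ⟨y, hy, z, hz, rfl⟩ := hx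
    rw [smul_add]
    exact Submodule.add_mem _ (Submodule.mem_sup_left (h2 g hg y hy))
      (Submodule.mem_sup_right (h2' g hg z hz))
  · intro g hg x hx
    rw [Submodule.mem_bot] at hx ⊢
    rw [hx, smul_zero]
  · rintro k a ⟨W, h1, h2, h3⟩
    exact ⟨W, h1, h2, Submodule.smul_mem _ _ h3⟩
  · rintro g - x ⟨W, h1, h2, h3⟩
    refine ⟨gm g W, typ2_sub_fd hs g W h1, typ2_sub_st hs N hN g W h2, ?_⟩
    rw [mem_gm hs]
    exact ⟨x, h3, rfl⟩


end Pool.Agent.Helper294.HallG
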