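import Pool.Agent.Helper294.HallG.Defs
import Pool.Agent.Helper294.HallG.BadSplit

set_option autoImplicit false

namespace Pool.Agent.Helper294.HallG

open Module Pool.Agent.Helper946.HC Pool.Agent.Helper946.S4 Pool.Agent.Helper294.HallM


theorem ub_ext {K G A Q : Type} [DivisionRing K] [Group G] [AddCommGroup A] [Module K A]
    [DistribMulAction G A] [Group Q] {A₂ : Type} [AddCommGroup A₂] [Module K A₂] [DistribMulAction G A₂]
    {ρ : G →* Q} (B : Submodule K A) [DistribMulAction G ↥B]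
    (hc : ∀ (g : G) (x : ↥B), ((g • x : ↥B) : A) = g • (x : A))
    (hs₂ : ∀ g : G, Semi K (ac g : A₂ ≃+ A₂))
    (π : A →ₗ[K] A₂) (hπ : LinearMap.ker π = B) (heq : ∀ (g : G) (a : A), π (g • a) = g • π a)
    {r : ℕ} (ε : Multiplicative (Fin r → ℤ) →* Q) (F₁ F₂ : Set (Set (Q ⧸ ε.range)))
    (d₁ d₂ : ℕ) (h1 : UB K ↥B ρ ε F₁ d₁) (h2 : UB K A₂ ρ ε F₂ d₂) :
    UB K A ρ ε (F₁ ∪ F₂) (d₁ + d₂) := by
  classical
  intro y hy s hs hb
  set s₁ := s.filter (fun v => ∃ g : G, ρ g = ε (Multiplicative.ofAdd v) * y ∧ BadEl K ↥B g) with hs1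
  set s₂ := s.filter (fun v => ∃ g : G, ρ g = ε (Multiplicative.ofAdd v) * y ∧ BadEl K A₂ g) with hs2'
  have hsub : s ⊆ s₁ ∪ s₂ := by
    intro v hv
    obtain ⟨g, hg, hbg⟩ := hb v hv
    rw [Finset.mem_union]
    rcases bad_split B hc hs₂ π hπ heq g hbg with h | h
    · left
      rw [hs1, Finset.mem_filter]
      exact ⟨hv, g, hg, h⟩
    · right
      rw [hs2', Finset.mem_filter]
      exact ⟨hv, g, hg, h⟩
  have hc1 : s₁.card ≤ d₁ := by
    refine h1 y (fun S hS => hy S (Or.inl hS)) s₁ ?_ ?_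
    · intro v hv w hw hvw
      exact hs v (Finset.mem_of_mem_filter v hv) w (Finset.mem_of_mem_filter w hw) hvw
    · intro v hv
      exact (Finset.mem_filter.mp hv).2
  have hc2 : s₂.card ≤ d₂ := by
    refine h2 y (fun S hS => hy S (Or.inr hS)) s₂ ?_ ?_
    · intro v hv w hw hvw
      exact hs v (Finset.mem_of_mem_filter v hv) w (Finset.mem_of_mem_filter w hw) hvw
    · intro v hv
      exact (Finset.mem_filter.mp hv).2
  calc s.card ≤ (s₁ ∪ s₂).card := Finset.card_le_card hsub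
    _ ≤ s₁.card + s₂.card := Finset.card_union_le _ _
    _ ≤ d₁ + d₂ := Nat.add_le_add hc1 hc2

end Pool.Agent.Helper294.HallG
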