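import Pool.Agent.Helper294.HallG.Defs

set_option autoImplicit false

namespace Pool.Agent.Helper294.HallG

open Module Pool.Agent.Helper946.HC Pool.Agent.Helper946.S4 Pool.Agent.Helper294.HallM


theorem ub_zero {K G A Q : Type} [DivisionRing K] [Group G] [AddCommGroup A] [Module K A]
    [DistribMulAction G A] [Group Q] {ρ : G →* Q} {r : ℕ} (ε : Multiplicative (Fin r → ℤ) →* Q)
    [hn : ε.range.Normal] (F : Set (Set (Q ⧸ ε.range)))
    (h : ∀ g : G, BadEl K A g → ∃ S ∈ F, (QuotientGroup.mk (ρ g) : Q ⧸ ε.range) ∈ S) :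
    UB K A ρ ε F 0 := by
  intro y hy s _ hs
  rw [Nat.le_zero, Finset.card_eq_zero, Finset.eq_empty_iff_forall_notMem]
  intro v hv
  obtain ⟨g, hg, hbad⟩ := hs v hv
  obtain ⟨S, hS, hmem⟩ := h g hbad
  apply hy S hS
  have e : (QuotientGroup.mk (ρ g) : Q ⧸ ε.range) = QuotientGroup.mk y := by
    rw [hg, QuotientGroup.eq]
    have h1 : (ε (Multiplicative.ofAdd v) * y)⁻¹ * y =
        y⁻¹ * (ε (Multiplicative.ofAdd v))⁻¹ * (y⁻¹)⁻¹ := by group
    rw [h1]
    exact hn.conj_mem _ (inv_mem ⟨_, rfl⟩) _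
  rw [← e]
  exact hmem

end Pool.Agent.Helper294.HallG
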