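import Pool.Agent.Helper294.HallG.Defs
import Pool.Agent.Helper294.HX.HCPoly
import Pool.Agent.Helper294.HallM.SysNoe
import Pool.Agent.Helper294.HallM.SubSys
import Pool.Agent.Helper294.HallM.QuotSys
import Pool.Agent.Helper294.HallM.TorsSub
import Pool.Agent.Helper294.HallM.TorsRestrict
import Pool.Agent.Helper294.HallG.FreSub
import Pool.Agent.Helper294.HallG.T0
import Pool.Agent.Helper294.HallG.T1
import Pool.Agent.Helper294.HallG.T2
import Pool.Agent.Helper294.HallG.TorsQuot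
import Pool.Agent.Helper294.HallG.Typ2Quot
import Pool.Agent.Helper294.HallG.Typ2Sub
import Pool.Agent.Helper294.HallG.UbExt
import Pool.Agent.Helper294.HallG.UbZero

set_option autoImplicit false

namespace Pool.Agent.Helper294.HallG

open Module Pool.Agent.Helper946.HC Pool.Agent.Helper946.S4 Pool.Agent.Helper294.HallM


theorem piece {K G A Q : Type} [DivisionRing K] [Group G] [AddCommGroup A] [Module K A]
    [DistribMulAction G A] [Group Q] {ρ : G →* Q} (hQ : PC Q) (hρ : Function.Surjective ρ)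
    (hS : Sys K G A Q ρ) {r : ℕ} {ε : Multiplicative (Fin r → ℤ) →* Q} (hP : Plinth Q r ε)
    [hn : ε.range.Normal] (hPE : PE ε) (hF : Fre K G A) :
    ∃ (F : Set (Set (Q ⧸ ε.range))) (d : ℕ), F.Finite ∧ (∀ S ∈ F, WBadSet (Q ⧸ ε.range) S) ∧
      UB K A ρ ε F d := by
  classical
  have hN := sys_noe hQ hρ hS
  have hNn : (ε.range.comap ρ).Normal := inferInstance
  obtain ⟨B, hB, hBs⟩ := typ2_sub (K := K) (A := A) hS.semi (ε.range.comap ρ) hNn
  obtain ⟨actB, hcB, hSB⟩ := sub_sys hN hS B hBs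
  have hFB : Fre K G ↥B := fre_sub hF B hcB
  have hII : ∀ b : ↥B, ∃ W : Submodule K ↥B, FiniteDimensional K W ∧
      St (ε.range.comap ρ) W ∧ b ∈ W := by
    intro b
    obtain ⟨W, hWf, hWs, hbW⟩ := (hB b).1 b.2
    refine ⟨W.comap B.subtype, ?_, ?_, hbW⟩
    · let f : ↥(W.comap B.subtype) →ₗ[K] ↥W :=
        (B.subtype.comp (W.comap B.subtype).subtype).codRestrict W (fun x => x.2)
      have hf : Function.Injective f := by
        intro x y hxy
        apply Subtype.ext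
        apply Subtype.ext
        have h2 := congrArg (Subtype.val : ↥W → A) hxy
        exact h2
      exact FiniteDimensional.of_injective f hf
    · intro g hg x hx
      show ((g • x : ↥B) : A) ∈ W
      rw [hcB]
      exact hWs g hg _ hx
  obtain ⟨F₁, hF₁f, hF₁b, hF₁⟩ := t2 hQ hρ hSB hFB ε.range hII
  have hU₁ : UB K ↥B ρ ε F₁ 0 := ub_zero ε F₁ hF₁
  obtain ⟨A₂, i1, i2, i3, π, hπs, hπk, hπe, hS₂⟩ := quot_sys hS B hBs
  have hno₂ := typ2_quot hρ hS.semi hS.scal ε.range (pc_sub hQ _) B hB π hπs hπk hπe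
  obtain ⟨T, hT, hTs⟩ := tors_sub hρ hS₂.semi hS₂.scal hP.pos ε hP.inj hP.normal
  have hN₂ := sys_noe hQ hρ hS₂
  obtain ⟨actT, hcT, hST⟩ := sub_sys hN₂ hS₂ T hTs
  have htorsT : ∀ w : ↥T, Tors (K := K) ρ ε w :=
    fun w => tors_restrict ρ ε T hcT w ((hT w).1 w.2)
  have hnoT : ∀ W : Submodule K ↥T, FiniteDimensional K W → St (ε.range.comap ρ) W → W = ⊥ := by
    intro W hWf hWs
    have h1 : W.map T.subtype = ⊥ := by
      refine hno₂ (W.map T.subtype) inferInstance ?_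
      rintro g hg _ ⟨x, hx, rfl⟩
      exact ⟨g • x, hWs g hg x hx, hcT g x⟩
    apply Submodule.map_injective_of_injective T.injective_subtype
    rw [h1, Submodule.map_bot]
  obtain ⟨F₂, hF₂f, hF₂b, hF₂⟩ := t1 hQ hρ hST hP htorsT hnoT
  have hU₂ : UB K ↥T ρ ε F₂ 0 := ub_zero ε F₂ hF₂
  obtain ⟨A₃, j1, j2, j3, π₃, hπ₃s, hπ₃k, hπ₃e, hS₃⟩ := quot_sys hS₂ T hTs
  have htq : ∀ a : A₃, Tors (K := K) ρ ε a → a = 0 :=
    tors_quot hρ hS₂.semi hS₂.scal hS₃.semi ε T hT π₃ hπ₃s hπ₃k hπ₃e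
  have h3 : ∃ (F₃ : Set (Set (Q ⧸ ε.range))) (d : ℕ), F₃.Finite ∧
      (∀ S ∈ F₃, WBadSet (Q ⧸ ε.range) S) ∧ UB K A₃ ρ ε F₃ d := by
    rcases subsingleton_or_nontrivial A₃ with h | h
    · refine ⟨∅, 0, Set.finite_empty, fun S hS => absurd hS (Set.notMem_empty S),
        ub_zero ε ∅ ?_⟩
      rintro g ⟨W, hW, -⟩
      exact absurd (Subsingleton.elim W ⊥) hW
    · exact t0 hQ hρ hS₃ hP.pos hP.inj hPE (fun a ha ht => ha (htq a ht)) h
  obtain ⟨F₃, d, hF₃f, hF₃b, hU₃⟩ := h3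
  have hU₂₃ := ub_ext T hcT hS₃.semi π₃ hπ₃k hπ₃e ε F₂ F₃ 0 d hU₂ hU₃
  have hU := ub_ext B hcB hS₂.semi π hπk hπe ε F₁ (F₂ ∪ F₃) 0 (0 + d) hU₁ hU₂₃
  refine ⟨_, _, hF₁f.union (hF₂f.union hF₃f), ?_, hU⟩
  rintro S (h | h | h)
  · exact hF₁b S h
  · exact hF₂b S h
  · exact hF₃b S h


end Pool.Agent.Helper294.HallG
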