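import Pool.Agent.Helper294.HallG.Defs

set_option autoImplicit false

namespace Pool.Agent.Helper294.HallG

open Module Pool.Agent.Helper946.HC Pool.Agent.Helper946.S4 Pool.Agent.Helper294.HallM


theorem wb_pow {Q : Type} [Group Q] {S : Set Q} (hS : WBadSet Q S) (y : Q) (n : ℕ) (hn : 0 < n)
    (h : y ^ n ∈ S) : y ∈ S := by
  obtain ⟨K, G, A, _, _, _, _, _, ρ, hsys, hidx, hfre, rfl⟩ := hS
  obtain ⟨m, hm, q, g, hg, hb⟩ := h
  exact ⟨n * m, Nat.mul_pos hn hm, q, g, by rw [hg, pow_mul], hb⟩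

end Pool.Agent.Helper294.HallG
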