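import Pool.Agent.Helper294.HallG.Defs
import Pool.Agent.Helper294.HX.HCPoly
import Pool.Agent.Helper294.HallG.Piece
import Pool.Agent.Helper294.HallG.WbPow

set_option autoImplicit false

namespace Pool.Agent.Helper294.HallG

open Module Pool.Agent.Helper946.HC Pool.Agent.Helper946.S4 Pool.Agent.Helper294.HallM


theorem gen_plinth_pow {r : ℕ} (M : (Fin r → ℤ) ≃+ (Fin r → ℤ)) (D : ℕ) (hD : 0 < D) :
    ∃ m : ℕ, 0 < m ∧ ∀ v, ∃ u : Fin r → ℤ, M^[m] v - v = D • u := by
  haveI : NeZero D := ⟨hD.ne'⟩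
  let c : (Fin r → ℤ) →+ (Fin r → ZMod D) := (Int.castAddHom (ZMod D)).compLeft (Fin r)
  let f : ℕ → (Fin r → Fin r → ZMod D) := fun n j => c (M^[n] (Pi.single j 1))
  have hadd : ∀ n : ℕ, ∃ P : (Fin r → ℤ) →+ (Fin r → ℤ), ∀ v, P v = M^[n] v := by
    intro n
    induction n with
    | zero => exact ⟨AddMonoidHom.id _, fun v => rfl⟩
    | succ n ih =>
      obtain ⟨P, hP⟩ := ih
      refine ⟨M.toAddMonoidHom.comp P, fun v => ?_⟩
      rw [Function.iterate_succ_apply', ← hP v]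
      rfl
  have key : ∀ a b : ℕ, a < b → f a = f b →
      ∃ m : ℕ, 0 < m ∧ ∀ v, ∃ u : Fin r → ℤ, M^[m] v - v = D • u := by
    intro a b hab hf
    have h1 : ∀ v, c (M^[a] v) = c (M^[b] v) := by
      obtain ⟨Pa, hPa⟩ := hadd a
      obtain ⟨Pb, hPb⟩ := hadd b
      have h2 : c.comp Pa = c.comp Pb := by
        apply AddMonoidHom.functions_ext
        intro i x
        have h3 : (Pi.single i x : Fin r → ℤ) = x • Pi.single i 1 := by
          rw [← Pi.single_smul, smul_eq_mul, mul_one]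
        rw [h3, map_zsmul, map_zsmul]
        congr 1
        show c (Pa _) = c (Pb _)
        rw [hPa, hPb]
        exact congrFun hf i
      intro v
      have h4 := DFunLike.congr_fun h2 v
      have h5 : c (Pa v) = c (Pb v) := h4
      rw [hPa, hPb] at h5
      exact h5
    refine ⟨b - a, by omega, fun v => ?_⟩
    have h2 : M^[a] (M.symm^[a] v) = v := by
      have : Function.LeftInverse M^[a] M.symm^[a] := by
        apply Function.LeftInverse.iterate
        intro x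
        exact M.apply_symm_apply x
      exact this v
    have h3 : M^[b] (M.symm^[a] v) = M^[b - a] v := by
      have h4 : b = (b - a) + a := by omega
      conv_lhs => rw [h4]
      rw [Function.iterate_add_apply, h2]
    have h5 := h1 (M.symm^[a] v)
    rw [h2, h3] at h5
    have h6 : ∀ i, ∃ t : ℤ, (M^[b - a] v - v) i = D * t := by
      intro i
      have h7 : ((v i : ℤ) : ZMod D) = ((M^[b - a] v i : ℤ) : ZMod D) := congrFun h5 i
      rw [ZMod.intCast_eq_intCast_iff_dvd_sub] at h7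
      obtain ⟨t, ht⟩ := h7
      exact ⟨t, ht⟩
    choose u hu using h6
    refine ⟨u, ?_⟩
    funext i
    rw [hu i, Pi.smul_apply, nsmul_eq_mul]
  obtain ⟨a, b, hab, hf⟩ := Finite.exists_ne_map_eq_of_infinite f
  rcases lt_or_gt_of_ne hab with h | h
  · exact key a b h hf
  · exact key b a h hf.symm

theorem gen_plinth_conj {Q : Type} [Group Q] {r : ℕ} (ε : Multiplicative (Fin r → ℤ) →* Q)
    (g : Q) (M : (Fin r → ℤ) ≃+ (Fin r → ℤ)) (hM : ∀ v,
      g * ε (Multiplicative.ofAdd v) * g⁻¹ = ε (Multiplicative.ofAdd (M v))) (m : ℕ) (v : Fin r → ℤ) :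
    g ^ m * ε (Multiplicative.ofAdd v) * (g ^ m)⁻¹ = ε (Multiplicative.ofAdd (M^[m] v)) := by
  induction m with
  | zero => simp
  | succ m ih =>
    rw [Function.iterate_succ_apply', ← hM, ← ih, pow_succ']
    group

theorem gen_plinth {Q : Type} [Group Q] (hQ : PC Q) {r : ℕ}
    {ε : Multiplicative (Fin r → ℤ) →* Q} (hP : Plinth Q r ε) (hPE : PE ε)
    [hn : ε.range.Normal] (hW : GenW (Q ⧸ ε.range)) : GenFor Q := by
  classical
  intro F hF hFS
  have h1 : ∀ S ∈ F, ∃ (FS : Set (Set (Q ⧸ ε.range))) (dS : ℕ), FS.Finite ∧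
      (∀ T ∈ FS, WBadSet (Q ⧸ ε.range) T) ∧
      ∀ y : Q, (∀ T ∈ FS, (QuotientGroup.mk y : Q ⧸ ε.range) ∉ T) → ∀ s : Finset (Fin r → ℤ),
        (∀ v ∈ s, ∀ w ∈ s, v ≠ w → ¬ Cg ε y v w) →
        (∀ v ∈ s, ε (Multiplicative.ofAdd v) * y ∈ S) → s.card ≤ dS := by
    intro S hS
    obtain ⟨K, G, A, i1, i2, i3, i4, i5, ρ, hSys, hsurj, hFre, hSe⟩ := hFS S hS
    obtain ⟨F', d, h1, h2, h3⟩ := piece hQ hsurj hSys hP hPE hFre
    refine ⟨F', d, h1, h2, fun y hy s hs hv => h3 y hy s hs (fun v hv' => ?_)⟩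
    have h4 := hv v hv'
    rw [hSe] at h4
    exact h4
  choose! FS dS hFSf hFSw hFSu using h1
  obtain ⟨z, hz⟩ := hW (⋃ S ∈ F, FS S) (hF.biUnion (fun S hS => hFSf S hS)) (by
    intro T hT
    simp only [Set.mem_iUnion] at hT
    obtain ⟨S, hS, hT⟩ := hT
    exact hFSw S hS T hT)
  obtain ⟨y₁, rfl⟩ := QuotientGroup.mk_surjective z
  obtain ⟨M, hM⟩ := conj_mat ε hP.inj hn y₁
  set D : ℕ := 1 + ∑ S ∈ hF.toFinset, dS S with hDdef
  obtain ⟨m, hm, hMm⟩ := gen_plinth_pow M D (by omega)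
  have hc := gen_plinth_conj ε y₁ M hM m
  have hmk : ∀ S ∈ F, ∀ T ∈ FS S, (QuotientGroup.mk (y₁ ^ m) : Q ⧸ ε.range) ∉ T := by
    intro S hS T hT hmem
    have h2 : (QuotientGroup.mk y₁ : Q ⧸ ε.range) ^ m ∈ T := by
      rw [← QuotientGroup.mk_pow]
      exact hmem
    have h3 := wb_pow (hFSw S hS T hT) _ m hm h2
    refine hz T ?_ h3
    simp only [Set.mem_iUnion]
    exact ⟨S, hS, hT⟩
  set e : ℕ → (Fin r → ℤ) := fun j => Pi.single (⟨0, hP.pos⟩ : Fin r) (j : ℤ) with hedef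
  have he0 : ∀ j, e j ⟨0, hP.pos⟩ = (j : ℤ) := by
    intro j
    simp [hedef]
  have heinj : Function.Injective e := by
    intro i j hij
    have := congrFun hij ⟨0, hP.pos⟩
    rw [he0, he0] at this
    exact_mod_cast this
  set s : Finset (Fin r → ℤ) := (Finset.range D).image e with hsdef
  have hscard : s.card = D := by
    rw [hsdef, Finset.card_image_of_injective _ heinj, Finset.card_range]
  have hinc : ∀ v ∈ s, ∀ w ∈ s, v ≠ w → ¬ Cg ε (y₁ ^ m) v w := by
    intro v hv w hw hvw hcg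
    obtain ⟨p, hp⟩ := hcg
    rw [hc, ← map_inv, ← map_mul] at hp
    have hp2 := hP.inj hp
    rw [← ofAdd_neg, ← ofAdd_add] at hp2
    have hp3 : v - w = M^[m] p + -p := hp2
    obtain ⟨u, hu⟩ := hMm p
    rw [← sub_eq_add_neg, hu] at hp3
    rw [hsdef, Finset.mem_image] at hv hw
    obtain ⟨i, hi, rfl⟩ := hv
    obtain ⟨j, hj, rfl⟩ := hw
    rw [Finset.mem_range] at hi hj
    have h5 := congrFun hp3 ⟨0, hP.pos⟩
    rw [Pi.sub_apply, he0, he0, Pi.smul_apply, nsmul_eq_mul] at h5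
    have h6 : (i : ℤ) - j = 0 := by
      apply Int.eq_zero_of_abs_lt_dvd (m := (D : ℤ)) ⟨_, h5⟩
      rw [abs_lt]
      constructor <;> omega
    apply hvw
    congr 1
    omega
  by_contra hcon
  push Not at hcon
  have hcov : s ⊆ hF.toFinset.biUnion
      (fun S => s.filter (fun v => ε (Multiplicative.ofAdd v) * y₁ ^ m ∈ S)) := by
    intro v hv
    obtain ⟨S, hS, hyS⟩ := hcon (ε (Multiplicative.ofAdd v) * y₁ ^ m)
    rw [Finset.mem_biUnion]
    exact ⟨S, hF.mem_toFinset.2 hS, Finset.mem_filter.2 ⟨hv, hyS⟩⟩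
  have h7 : s.card ≤ ∑ S ∈ hF.toFinset, dS S := by
    refine (Finset.card_le_card hcov).trans (Finset.card_biUnion_le.trans ?_)
    refine Finset.sum_le_sum fun S hS => ?_
    rw [hF.mem_toFinset] at hS
    refine hFSu S hS (y₁ ^ m) (hmk S hS) _ ?_ ?_
    · intro v hv w hw hvw
      exact hinc v (Finset.mem_filter.1 hv).1 w (Finset.mem_filter.1 hw).1 hvw
    · intro v hv
      exact (Finset.mem_filter.1 hv).2
  omega

end Pool.Agent.Helper294.HallG
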