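import Pool.Agent.Helper294.HallG.Defs
import Pool.Agent.Helper294.HallG.FreFi
import Pool.Agent.Helper294.HallG.SysFi

set_option autoImplicit false

namespace Pool.Agent.Helper294.HallG

open Module Pool.Agent.Helper946.HC Pool.Agent.Helper946.S4 Pool.Agent.Helper294.HallM


theorem gen_up_aux {Q : Type} [Group Q] (Q₁ : Subgroup Q) (h1 : Q₁.index ≠ 0) (S : Set Q)
    (hS : SBadSet Q S) : ∃ S' : Set ↥Q₁, SBadSet ↥Q₁ S' ∧ ∀ y : ↥Q₁, (y : Q) ∈ S → y ∈ S' := by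
  obtain ⟨K, G, A, i1, i2, i3, i4, i5, ρ, hSys, hsurj, hFre, hSeq⟩ := hS
  have hfi : (Q₁.comap ρ).index ≠ 0 := by
    rw [Subgroup.index_comap_of_surjective _ hsurj]; exact h1
  refine ⟨{y : ↥Q₁ | ∃ g : ↥(Q₁.comap ρ), ρ.subgroupComap Q₁ g = y ∧ BadEl K A g},
    ⟨K, ↥(Q₁.comap ρ), A, i1, inferInstance, i3, i4, inferInstance, ρ.subgroupComap Q₁,
      sys_fi hSys (Q₁.comap ρ) hfi ↥Q₁ (ρ.subgroupComap Q₁) ?_,
      MonoidHom.subgroupComap_surjective_of_surjective ρ Q₁ hsurj,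
      fre_fi hSys.semi (Q₁.comap ρ) hfi hFre, rfl⟩, ?_⟩
  · intro g hg
    exact congrArg Subtype.val hg
  · intro y hy
    rw [hSeq] at hy
    obtain ⟨g, hg, hbad⟩ := hy
    have hmem : g ∈ Q₁.comap ρ := by
      rw [Subgroup.mem_comap, hg]; exact y.2
    exact ⟨⟨g, hmem⟩, Subtype.ext hg, hbad⟩

theorem gen_up {Q : Type} [Group Q] (Q₁ : Subgroup Q) (h1 : Q₁.index ≠ 0)
    (h : GenFor ↥Q₁) : GenFor Q := by
  intro F hF hS
  choose S' hS' hy' using fun S : F => gen_up_aux Q₁ h1 S.1 (hS S.1 S.2)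
  haveI : Finite F := hF
  obtain ⟨y, hy⟩ := h (Set.range S') (Set.finite_range S') (by
    rintro _ ⟨S, rfl⟩
    exact hS' S)
  refine ⟨(y : Q), fun S hSF hyS => ?_⟩
  exact hy (S' ⟨S, hSF⟩) ⟨⟨S, hSF⟩, rfl⟩ (hy' ⟨S, hSF⟩ y hyS)

end Pool.Agent.Helper294.HallG
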