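import Pool.Agent.Helper294.HallG.Defs
import Pool.Agent.Helper294.HX.HCPoly
import Pool.Agent.Helper294.HallG.Vce

set_option autoImplicit false

namespace Pool.Agent.Helper294.HallG

open Module Pool.Agent.Helper946.HC Pool.Agent.Helper946.S4 Pool.Agent.Helper294.HallM


theorem plinth_e_M {Q : Type} [Group Q] {r : ℕ} (ε : Multiplicative (Fin r → ℤ) →* Q)
    (hinj : Function.Injective ε) (hn : ε.range.Normal) :
    ∃ M : Q → (Fin r → ℤ) ≃+ (Fin r → ℤ),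
      (∀ g v, g * ε (Multiplicative.ofAdd v) * g⁻¹ = ε (Multiplicative.ofAdd (M g v))) ∧
      (∀ g v w, g * ε (Multiplicative.ofAdd v) * g⁻¹ = ε (Multiplicative.ofAdd w) → M g v = w) ∧
      (∀ v, M 1 v = v) ∧ (∀ g h v, M (g * h) v = M g (M h v)) ∧
      (∀ g v, M g⁻¹ (M g v) = v) ∧ (∀ g v, M g (M g⁻¹ v) = v) ∧
      (∀ u v, M (ε u) v = v) := by
  choose M hM using fun g => conj_mat ε hinj hn g
  have hu : ∀ g v w, g * ε (Multiplicative.ofAdd v) * g⁻¹ = ε (Multiplicative.ofAdd w) →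
      M g v = w := by
    intro g v w h
    rw [hM g v] at h
    exact Multiplicative.ofAdd.injective (hinj h)
  have h1 : ∀ v, M 1 v = v := fun v => hu 1 v v (by simp)
  have hmul : ∀ g h v, M (g * h) v = M g (M h v) := fun g h v => hu _ _ _ (by
    rw [← hM g, ← hM h]; group)
  refine ⟨M, hM, hu, h1, hmul, ?_, ?_, ?_⟩
  · intro g v; rw [← hmul, inv_mul_cancel, h1]
  · intro g v; rw [← hmul, mul_inv_cancel, h1]
  · intro u v
    refine hu _ _ _ ?_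
    rw [← map_mul, ← map_inv, ← map_mul, mul_comm u, mul_inv_cancel_right]

/-- the representation on functionals -/
noncomputable def plinth_e_rho {Γ : Type} [Group Γ] {r : ℕ}
    (M : Γ → (Fin r → ℤ) ≃+ (Fin r → ℤ)) (h1 : ∀ v, M 1 v = v)
    (hmul : ∀ g h v, M (g * h) v = M g (M h v)) :
    Γ →* Module.End ℂ ((Fin r → ℤ) →+ ℂ) where
  toFun q := { toFun := fun π => π.comp (M q⁻¹).toAddMonoidHom
               map_add' := fun _ _ => rfl
               map_smul' := fun _ _ => rfl }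
  map_one' := by
    refine LinearMap.ext fun π => AddMonoidHom.ext fun v => ?_
    show π (M 1⁻¹ v) = π v
    rw [inv_one, h1]
  map_mul' := by
    intro q q'
    refine LinearMap.ext fun π => AddMonoidHom.ext fun v => ?_
    show π (M (q * q')⁻¹ v) = π (M q'⁻¹ (M q⁻¹ v))
    rw [mul_inv_rev, hmul]

theorem plinth_e_sum {r : ℕ} (v : Fin r → ℤ) : v = ∑ i, v i • Pi.single i (1 : ℤ) := by
  conv_lhs => rw [← Finset.univ_sum_single v]
  refine Finset.sum_congr rfl fun i _ => ?_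
  rw [← Pi.single_smul]
  simp

theorem plinth_e_fd (r : ℕ) : FiniteDimensional ℂ ((Fin r → ℤ) →+ ℂ) := by
  let f : ((Fin r → ℤ) →+ ℂ) →ₗ[ℂ] (Fin r → ℂ) :=
    { toFun := fun π i => π (Pi.single i 1)
      map_add' := fun _ _ => rfl
      map_smul' := fun _ _ => rfl }
  refine FiniteDimensional.of_injective f ?_
  intro π π' h
  refine AddMonoidHom.ext fun v => ?_
  rw [plinth_e_sum v, map_sum, map_sum]
  refine Finset.sum_congr rfl fun i _ => ?_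
  rw [map_zsmul, map_zsmul]
  exact congrArg _ (congrFun h i)

theorem plinth_e_exS {Γ : Type} [Group Γ] {r : ℕ}
    (M : Γ → (Fin r → ℤ) ≃+ (Fin r → ℤ)) (h1 : ∀ v, M 1 v = v)
    (hmul : ∀ g h v, M (g * h) v = M g (M h v)) (π : (Fin r → ℤ) →+ ℂ) :
    ∃ S : Subgroup Γ, ∀ q, q ∈ S ↔ ((∃ c : ℂ, c ≠ 0 ∧ ∀ v, π (M q v) = c * π v) ∧
      ∀ v, ∃ w, M q v = v + 3 • w) := by
  refine ⟨{ carrier := {q | (∃ c : ℂ, c ≠ 0 ∧ ∀ v, π (M q v) = c * π v) ∧
      ∀ v, ∃ w, M q v = v + 3 • w}, mul_mem' := ?_, one_mem' := ?_, inv_mem' := ?_ },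
      fun q => Iff.rfl⟩
  · rintro q q' ⟨⟨c, hc, hc'⟩, h2⟩ ⟨⟨b, hb, hb'⟩, h3⟩
    refine ⟨⟨c * b, mul_ne_zero hc hb, fun v => ?_⟩, fun v => ?_⟩
    · rw [hmul, hc', hb', mul_assoc]
    · obtain ⟨w, hw⟩ := h3 v
      obtain ⟨w', hw'⟩ := h2 v
      refine ⟨w' + M q w, ?_⟩
      rw [hmul, hw, map_add, map_nsmul, hw', smul_add, add_assoc]
  · refine ⟨⟨1, one_ne_zero, fun v => ?_⟩, fun v => ⟨0, ?_⟩⟩
    · rw [h1, one_mul]
    · rw [h1, smul_zero, add_zero]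
  · rintro q ⟨⟨c, hc, hc'⟩, h2⟩
    have hinv : ∀ v, M q (M q⁻¹ v) = v := fun v => by rw [← hmul, mul_inv_cancel, h1]
    refine ⟨⟨c⁻¹, inv_ne_zero hc, fun v => ?_⟩, fun v => ?_⟩
    · have h3 := hc' (M q⁻¹ v)
      rw [hinv] at h3
      rw [h3, inv_mul_cancel_left₀ hc]
    · obtain ⟨w, hw⟩ := h2 (M q⁻¹ v)
      rw [hinv] at hw
      refine ⟨-w, ?_⟩
      have h4 : M q⁻¹ v = v - 3 • w := by
        rw [eq_sub_iff_add_eq]
        exact hw.symm
      rw [h4, smul_neg, sub_eq_add_neg]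

theorem plinth_e_K3 {Γ : Type} [Group Γ] {r : ℕ}
    (M : Γ → (Fin r → ℤ) ≃+ (Fin r → ℤ)) (h1 : ∀ v, M 1 v = v)
    (hmul : ∀ g h v, M (g * h) v = M g (M h v)) (S : Subgroup Γ)
    (hS : ∀ q, (∀ v, ∃ w, M q v = v + 3 • w) → q ∈ S) : S.index ≠ 0 := by
  have : Finite (Γ ⧸ S) := by
    refine Finite.of_injective (β := Fin r → Fin r → ZMod 3)
      (fun x j i => ((M (Quotient.out x) (Pi.single j 1) i : ℤ) : ZMod 3)) ?_
    intro x y hxy
    rw [← Quotient.out_eq x, ← Quotient.out_eq y]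
    refine QuotientGroup.eq.2 (hS _ fun v => ?_)
    obtain ⟨a, ha⟩ : ∃ a, a = Quotient.out x := ⟨_, rfl⟩
    obtain ⟨b, hb⟩ : ∃ b, b = Quotient.out y := ⟨_, rfl⟩
    have hab : ∀ j i, (3 : ℤ) ∣ M b (Pi.single j 1) i - M a (Pi.single j 1) i := by
      intro j i
      have h2 := congrFun (congrFun hxy j) i
      simp only [← ha, ← hb] at h2
      exact (ZMod.intCast_eq_intCast_iff_dvd_sub _ _ 3).1 h2
    have h3 : ∀ v i, (3 : ℤ) ∣ M b v i - M a v i := by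
      intro v i
      have hb1 : M b v i = ∑ j, v j * M b (Pi.single j 1) i := by
        conv_lhs => rw [plinth_e_sum v, map_sum, Finset.sum_apply]
        refine Finset.sum_congr rfl fun j _ => ?_
        rw [map_zsmul]; rfl
      have ha1 : M a v i = ∑ j, v j * M a (Pi.single j 1) i := by
        conv_lhs => rw [plinth_e_sum v, map_sum, Finset.sum_apply]
        refine Finset.sum_congr rfl fun j _ => ?_
        rw [map_zsmul]; rfl
      rw [hb1, ha1, ← Finset.sum_sub_distrib]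
      refine Finset.dvd_sum fun j _ => ?_
      rw [← mul_sub]
      exact (hab j i).mul_left _
    choose w hw using fun i => h3 v i
    have h4 : M b v = M a v + 3 • w := by
      funext i
      have := hw i
      show M b v i = M a v i + 3 • w i
      rw [nsmul_eq_mul]
      push_cast
      linarith
    refine ⟨M a⁻¹ w, ?_⟩
    have h5 : ∀ v, M a⁻¹ (M a v) = v := fun v => by rw [← hmul, inv_mul_cancel, h1]
    show M ((Quotient.out x)⁻¹ * Quotient.out y) v = v + 3 • M a⁻¹ w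
    rw [← ha, ← hb, hmul, h4, map_add, map_nsmul, h5]
  exact Subgroup.index_ne_zero_of_finite

theorem plinth_e {Q : Type} [Group Q] (h : PC Q) (hinf : Infinite Q) :
    ∃ Q₁ : Subgroup Q, Q₁.index ≠ 0 ∧ ∃ (r : ℕ) (ε : Multiplicative (Fin r → ℤ) →* Q₁),
      Plinth Q₁ r ε ∧ PE ε := by
  obtain ⟨Q₁, hQ₁, r, ε, hP⟩ := exists_plinth h hinf
  obtain ⟨M, hM, hu, h1, hmul, hi1, hi2, hε⟩ := plinth_e_M ε hP.inj hP.normal
  have hfd : FiniteDimensional ℂ ((Fin r → ℤ) →+ ℂ) := plinth_e_fd r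
  have hnt : Nontrivial ((Fin r → ℤ) →+ ℂ) := by
    refine ⟨⟨(Int.castAddHom ℂ).comp (Pi.evalAddMonoidHom (fun _ => ℤ) (⟨0, hP.pos⟩ : Fin r)), 0,
      fun h0 => ?_⟩⟩
    have h2 := DFunLike.congr_fun h0 (Pi.single (⟨0, hP.pos⟩ : Fin r) 1)
    simp at h2
  obtain ⟨H, hH, π, hπ0, hπ⟩ := vce (pc_sub h Q₁) (plinth_e_rho M h1 hmul)
  have hπM : ∀ q ∈ H, ∃ c : ℂ, c ≠ 0 ∧ ∀ v, π (M q v) = c * π v := by
    intro q hq
    obtain ⟨c, hc⟩ := hπ q⁻¹ (H.inv_mem hq)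
    have hc' : ∀ v, π (M q v) = c * π v := by
      intro v
      have h2 := DFunLike.congr_fun hc v
      have h3 : (plinth_e_rho M h1 hmul q⁻¹ π) v = π (M q⁻¹⁻¹ v) := rfl
      rw [h3, inv_inv] at h2
      exact h2
    refine ⟨c, ?_, hc'⟩
    rintro rfl
    refine hπ0 (AddMonoidHom.ext fun v => ?_)
    have h2 := hc' (M q⁻¹ v)
    rw [hi2, zero_mul] at h2
    exact h2
  obtain ⟨S, hS⟩ := plinth_e_exS M h1 hmul π
  obtain ⟨K3, hK3⟩ := plinth_e_exS M h1 hmul 0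
  have hK3i : K3.index ≠ 0 := plinth_e_K3 M h1 hmul K3 fun q hq => (hK3 q).2
    ⟨⟨1, one_ne_zero, fun v => by simp⟩, hq⟩
  have hSi : S.index ≠ 0 := by
    have hle : H ⊓ K3 ≤ S := by
      intro q hq
      exact (hS q).2 ⟨hπM q hq.1, ((hK3 q).1 hq.2).2⟩
    exact ne_zero_of_dvd_ne_zero (Subgroup.index_inf_ne_zero hH hK3i)
      (Subgroup.index_dvd_of_le hle)
  have hεS : ∀ u, ε u ∈ S := by
    intro u
    refine (hS _).2 ⟨⟨1, one_ne_zero, fun v => ?_⟩, fun v => ⟨0, ?_⟩⟩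
    · rw [hε, one_mul]
    · rw [hε, smul_zero, add_zero]
  have hπinj : Function.Injective π := by
    by_contra hcon
    have hker : π.ker ≠ ⊥ := fun h2 => hcon ((AddMonoidHom.ker_eq_bot_iff π).1 h2)
    have h3 := hP.irr S hSi π.ker hker (by
      intro g hg v hv
      obtain ⟨⟨c, -, hc⟩, -⟩ := (hS g).1 hg
      refine ⟨M g v, ?_, hM g v⟩
      rw [AddMonoidHom.mem_ker] at hv ⊢
      rw [hc, hv, mul_zero])
    refine hπ0 (AddMonoidHom.ext fun v => ?_)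
    obtain ⟨n, hn, hnv⟩ := h3 v
    rw [AddMonoidHom.mem_ker, map_nsmul] at hnv
    rcases smul_eq_zero.1 hnv with h4 | h4
    · omega
    · exact h4
  obtain ⟨Q₃, hQ₃⟩ : ∃ Q₃ : Subgroup Q, Q₃ = S.map Q₁.subtype := ⟨_, rfl⟩
  have hQ₃i : Q₃.index ≠ 0 := by
    rw [hQ₃, Subgroup.index_map_subtype]
    exact mul_ne_zero hSi hQ₁
  have hmem : ∀ q : Q₃, ∃ q' : Q₁, q' ∈ S ∧ (q' : Q) = (q : Q) := by
    rintro ⟨q, hq⟩
    rw [hQ₃] at hq
    obtain ⟨q', hq', rfl⟩ := hq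
    exact ⟨q', hq', rfl⟩
  have hεQ : ∀ v, ((ε v : Q₁) : Q) ∈ Q₃ := by
    intro v
    rw [hQ₃]
    exact ⟨ε v, hεS v, rfl⟩
  obtain ⟨ε', hε'⟩ : ∃ ε' : Multiplicative (Fin r → ℤ) →* Q₃,
      ∀ v, ((ε' v : Q₃) : Q) = ((ε v : Q₁) : Q) :=
    ⟨(Q₁.subtype.comp ε).codRestrict Q₃ hεQ, fun v => rfl⟩
  have htrans : ∀ (q : Q₃) (q' : Q₁), (q' : Q) = (q : Q) → ∀ v w : Fin r → ℤ,
      (q * ε' (Multiplicative.ofAdd v) * q⁻¹ = ε' (Multiplicative.ofAdd w) ↔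
        q' * ε (Multiplicative.ofAdd v) * q'⁻¹ = ε (Multiplicative.ofAdd w)) := by
    intro q q' hqq v w
    rw [← Subtype.coe_inj, ← Subtype.coe_inj (a := q' * ε (Multiplicative.ofAdd v) * q'⁻¹)]
    simp only [Subgroup.coe_mul, Subgroup.coe_inv, hε', hqq]
  refine ⟨Q₃, hQ₃i, r, ε', ⟨hP.pos, ?_, ⟨?_⟩, ?_⟩, ⟨π, hπinj, ?_⟩, ?_⟩
  · intro v w hvw
    refine hP.inj (Subtype.ext ?_)
    rw [← hε', ← hε', hvw]
  · rintro _ ⟨v, rfl⟩ q
    obtain ⟨q', hq', hqq⟩ := hmem q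
    refine ⟨Multiplicative.ofAdd (M q' (Multiplicative.toAdd v)), ?_⟩
    exact ((htrans q q' hqq _ _).2 (hM q' (Multiplicative.toAdd v))).symm
  · intro H' hH' F hF hst
    have hH'' : ((H'.map Q₃.subtype).subgroupOf Q₁).index ≠ 0 := by
      have h2 : (H'.map Q₃.subtype).index ≠ 0 := by
        rw [Subgroup.index_map_subtype]
        exact mul_ne_zero hH' hQ₃i
      have h3 : (H'.map Q₃.subtype).FiniteIndex := ⟨h2⟩
      exact Subgroup.FiniteIndex.index_ne_zero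
    refine hP.irr _ hH'' F hF ?_
    intro g hg v hv
    rw [Subgroup.mem_subgroupOf] at hg
    obtain ⟨g', hg', hgg⟩ := hg
    obtain ⟨w, hw, hgw⟩ := hst g' hg' v hv
    exact ⟨w, hw, (htrans g' g hgg.symm v w).1 hgw⟩
  · intro q
    obtain ⟨q', hq', hqq⟩ := hmem q
    obtain ⟨⟨c, -, hc⟩, -⟩ := (hS q').1 hq'
    refine ⟨c, fun v w hvw => ?_⟩
    have h2 := hu _ _ _ ((htrans q q' hqq v w).1 hvw)
    rw [← h2, hc]
  · intro q v w hvw
    obtain ⟨q', hq', hqq⟩ := hmem q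
    obtain ⟨-, h3⟩ := (hS q').1 hq'
    have h2 := hu _ _ _ ((htrans q q' hqq v w).1 hvw)
    obtain ⟨u, hu'⟩ := h3 v
    exact ⟨u, by rw [← h2, hu']⟩

end Pool.Agent.Helper294.HallG
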