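import Pool.Agent.Helper294.HallG.Defs
import Pool.Agent.Helper294.HX.HCPoly
import Pool.Agent.Helper294.HallG.GenBase
import Pool.Agent.Helper294.HallG.GenFi
import Pool.Agent.Helper294.HallG.GenPlinth
import Pool.Agent.Helper294.HallG.GenUp
import Pool.Agent.Helper294.HallG.PlinthE

set_option autoImplicit false

namespace Pool.Agent.Helper294.HallG

open Module Pool.Agent.Helper946.HC Pool.Agent.Helper946.S4 Pool.Agent.Helper294.HallM


theorem gen_ind (n : ℕ) : ∀ (Q : Type) [Group Q], PC Q → HL Q n → GenFor Q := by
  induction n using Nat.strong_induction_on with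
  | _ n ih =>
    intro Q _ hPC hHL
    rcases finite_or_infinite Q with hfin | hinf
    · exact gen_base
    · obtain ⟨Q₁, hQ₁, r, ε, hP, hPE⟩ := plinth_e hPC hinf
      apply gen_up Q₁ hQ₁
      have hPC1 : PC ↥Q₁ := pc_sub hPC Q₁
      have hHL1 : HL ↥Q₁ n := hl_sub hHL Q₁
      haveI := hP.normal
      have hinfE : Infinite ε.range := by
        haveI : Nonempty (Fin r) := ⟨⟨0, hP.pos⟩⟩
        haveI : Infinite (Fin r → ℤ) := Function.infinite_of_right
        haveI : Infinite (Multiplicative (Fin r → ℤ)) := inferInstance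
        refine Infinite.of_injective ε.rangeRestrict ?_
        intro a b hab
        apply hP.inj
        exact congrArg Subtype.val hab
      obtain ⟨m, hm, hHLm⟩ := hl_quot hHL1 ε.range hinfE
      apply gen_plinth hPC1 hP hPE
      apply gen_fi
      intro Q₀ _
      exact ih m hm _ (pc_sub (pc_surj hPC1 (QuotientGroup.mk' ε.range)
        (QuotientGroup.mk'_surjective _)) Q₀) (hl_sub hHLm Q₀)

end Pool.Agent.Helper294.HallG
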