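import Pool.Agent.Helper294.HallG.Defs
import Pool.Agent.Helper294.HX.HCPoly
import Pool.Agent.Helper294.HallG.GenFi
import Pool.Agent.Helper294.HallG.GenInd

set_option autoImplicit false

namespace Pool.Agent.Helper294.HallG

open Module Pool.Agent.Helper946.HC Pool.Agent.Helper946.S4 Pool.Agent.Helper294.HallM


theorem gen_w {Q : Type} [Group Q] (h : PC Q) : GenW Q := by
  obtain ⟨n, hn⟩ := hl_exists h
  exact gen_fi fun Q₀ _ => gen_ind n ↥Q₀ (pc_sub h Q₀) (hl_sub hn Q₀)

end Pool.Agent.Helper294.HallG
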