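import Pool.Agent.Helper294.HallG.Defs
import Pool.Agent.Helper294.HallG.EDefs
import Pool.Agent.Helper294.HallG.EfAll
import Pool.Agent.Helper294.HallG.GenW
import Pool.Agent.Helper294.HallG.WbPow

set_option autoImplicit false

namespace Pool.Agent.Helper294.HallG

open Module Pool.Agent.Helper946.HC Pool.Agent.Helper946.S4 Pool.Agent.Helper294.HallM
open Pool.Agent.Helper294.HallC (del FGM Stb Noe NoeOn ConjAct')


theorem gen_om {Γ A : Type} [Group Γ] [AddCommGroup A] [DistribMulAction Γ A] (hΓ : PC Γ)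
    (hA : FGM Γ A) : ∃ y : Γ, OmFG y (⊤ : AddSubgroup A) := by
  obtain ⟨F, Γ₀, hF, hS, hi, h⟩ := ef_all hΓ hA
  obtain ⟨y₁, hy⟩ := gen_w hΓ F hF hS
  obtain ⟨k, hk, _, hk'⟩ := Subgroup.exists_pow_mem_of_index_ne_zero hi y₁
  exact ⟨y₁ ^ k, h _ hk' (fun S hSF hmem => hy S hSF (wb_pow (hS S hSF) y₁ k hk hmem))⟩

end Pool.Agent.Helper294.HallG
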