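import Pool.Agent.Helper294.HallG.EDefs

set_option autoImplicit false

namespace Pool.Agent.Helper294.HallG

open Module Pool.Agent.Helper946.HC Pool.Agent.Helper946.S4 Pool.Agent.Helper294.HallM
open Pool.Agent.Helper294.HallC (del FGM Stb Noe NoeOn ConjAct')

theorem red_comm {G : Type} [Group G] (H : Subgroup G) (hn : Group.IsNilpotent ↥H) :
    ∃ c : ℕ, ∀ y ∈ H, ∀ x ∈ H, (fun z => y * z * y⁻¹ * z⁻¹)^[c] x = 1 := by
  obtain ⟨c, hc⟩ := (Subgroup.isNilpotent_iff_lowerCentralSeries H).mp hn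
  refine ⟨c, fun y hy x hx => ?_⟩
  have key : ∀ k, (fun z => y * z * y⁻¹ * z⁻¹)^[k] x ∈ H.lowerCentralSeries k := by
    intro k
    induction k with
    | zero => exact hx
    | succ k ih =>
      rw [Function.iterate_succ_apply']
      have h1 := Subgroup.commutator_mem_commutator ih hy
      have h2 := inv_mem h1
      rwa [commutatorElement_inv, commutatorElement_def] at h2
  have h1 := key c
  rw [hc, Subgroup.mem_bot] at h1
  exact h1

theorem red_zp {G : Type} [Group G] (y : G) : Group.IsNilpotent ↥(Subgroup.zpowers y) := by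
  rw [Subgroup.isNilpotent_iff_lowerCentralSeries]
  refine ⟨1, ?_⟩
  rw [Subgroup.lowerCentralSeries_succ, Subgroup.lowerCentralSeries_zero,
    Subgroup.commutator_eq_bot_iff_le_centralizer]
  rintro _ ⟨k, rfl⟩
  rw [Subgroup.mem_centralizer_iff]
  rintro _ ⟨l, rfl⟩
  exact (Commute.refl y).zpow_zpow l k

theorem red {G Q A : Type} [Group G] [Group Q] [AddCommGroup A] [DistribMulAction Q A]
    (f : G →* Q) (hf : Function.Surjective f) (ι : Multiplicative A →* G)
    (h : ConjAct' f A ι) (hQ : PC Q) (y : Q) (hy : OmFG y (⊤ : AddSubgroup A))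
    (hasc : ∀ H : Subgroup G, H ≠ ⊤ → H.FG → Group.IsNilpotent H →
      ∃ K : Subgroup G, H < K ∧ K.FG ∧ Group.IsNilpotent K) : Group.IsNilpotent G := by
  classical
  by_contra hG
  obtain ⟨yy, hyy⟩ := hf y
  -- iterated commutators
  have hdel : ∀ a : A, yy * ι (Multiplicative.ofAdd a) * yy⁻¹ * (ι (Multiplicative.ofAdd a))⁻¹ =
      ι (Multiplicative.ofAdd (del y a)) := by
    intro a
    rw [h.act, hyy, ← map_inv, ← map_mul]
    congr 1
    show Multiplicative.ofAdd (y • a) * (Multiplicative.ofAdd a)⁻¹ =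
      Multiplicative.ofAdd (y • a - a)
    rw [ofAdd_sub, div_eq_mul_inv]
  have hiter : ∀ (k : ℕ) (a : A), (fun z => yy * z * yy⁻¹ * z⁻¹)^[k] (ι (Multiplicative.ofAdd a)) =
      ι (Multiplicative.ofAdd ((del y)^[k] a)) := by
    intro k
    induction k with
    | zero => intro a; rfl
    | succ k ih =>
      intro a
      rw [Function.iterate_succ_apply, Function.iterate_succ_apply]
      show (fun z => yy * z * yy⁻¹ * z⁻¹)^[k]
        (yy * ι (Multiplicative.ofAdd a) * yy⁻¹ * (ι (Multiplicative.ofAdd a))⁻¹) = _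
      rw [hdel, ih]
  let Om : AddSubgroup A :=
    AddSubgroup.closure {a : A | a ∈ (⊤ : AddSubgroup A) ∧ ∃ n : ℕ, (del y)^[n] a = 0}
  have hOm : Om.FG := hy
  have hmem : ∀ (H : Subgroup G), Group.IsNilpotent ↥H → yy ∈ H → ∀ a : A,
      ι (Multiplicative.ofAdd a) ∈ H → a ∈ Om := by
    intro H hn hyH a ha
    obtain ⟨c, hc⟩ := red_comm H hn
    have h1 := hc yy hyH _ ha
    rw [hiter] at h1
    have h2 : Multiplicative.ofAdd ((del y)^[c] a) = 1 := h.inj (by rw [h1, map_one])
    have h3 : (del y)^[c] a = 0 := h2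
    exact AddSubgroup.subset_closure ⟨AddSubgroup.mem_top _, c, h3⟩
  -- the sequence
  let P := {H : Subgroup G // H.FG ∧ Group.IsNilpotent ↥H ∧ yy ∈ H}
  have hstep : ∀ H : P, ∃ K : P, H.1 < K.1 := by
    rintro ⟨H, h1, h2, h3⟩
    have hne : H ≠ ⊤ := by
      rintro rfl
      apply hG
      exact (Group.isNilpotent_congr Subgroup.topEquiv).1 h2
    obtain ⟨K, hlt, hfg, hnil⟩ := hasc H hne h1 h2
    exact ⟨⟨K, hfg, hnil, hlt.le h3⟩, hlt⟩
  choose next hnext using hstep
  have h0 : (Subgroup.zpowers yy).FG ∧ Group.IsNilpotent ↥(Subgroup.zpowers yy) ∧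
      yy ∈ Subgroup.zpowers yy := by
    refine ⟨?_, ?_, Subgroup.mem_zpowers yy⟩
    · exact ⟨{yy}, by rw [Finset.coe_singleton, Subgroup.zpowers_eq_closure]⟩
    · exact red_zp yy
  let s : ℕ → P := fun n => next^[n] ⟨Subgroup.zpowers yy, h0⟩
  have hs : ∀ n, (s n).1 < (s (n + 1)).1 := by
    intro n
    have : s (n + 1) = next (s n) := Function.iterate_succ_apply' _ _ _
    rw [this]
    exact hnext (s n)
  have hmono : Monotone (fun n => (s n).1) := monotone_nat_of_le_succ fun n => (hs n).le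
  -- images in Q
  obtain ⟨N, hN⟩ : ∃ N, ∀ m, N ≤ m → (s m).1.map f = (s N).1.map f := by
    have hmf : Monotone (fun n => (s n).1.map f) := fun i j hij => Subgroup.map_mono (hmono hij)
    obtain ⟨T, hT⟩ := hQ.2 (⨆ n, (s n).1.map f)
    have hex : ∀ t ∈ T, ∃ i, t ∈ (s i).1.map f := by
      intro t ht
      have h1 : t ∈ ⨆ n, (s n).1.map f := by rw [← hT]; exact Subgroup.subset_closure ht
      exact (Subgroup.mem_iSup_of_directed (hmf.directed_le)).1 h1
    choose! i hi using hex
    refine ⟨T.sup i, fun m hm => ?_⟩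
    apply le_antisymm
    · refine le_trans (le_iSup (fun n => (s n).1.map f) m) ?_
      rw [← hT, Subgroup.closure_le]
      intro t ht
      exact hmf (Finset.le_sup ht) (hi t ht)
    · exact hmf hm
  -- intersections with the kernel
  let D : ℕ → AddSubgroup A := fun n =>
    { carrier := {a | ι (Multiplicative.ofAdd a) ∈ (s n).1}
      zero_mem' := by
        show ι (Multiplicative.ofAdd 0) ∈ (s n).1
        rw [ofAdd_zero, map_one]
        exact one_mem _
      add_mem' := by
        intro a b ha hb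
        show ι (Multiplicative.ofAdd (a + b)) ∈ (s n).1
        rw [ofAdd_add, map_mul]
        exact mul_mem ha hb
      neg_mem' := by
        intro a ha
        show ι (Multiplicative.ofAdd (-a)) ∈ (s n).1
        rw [ofAdd_neg, map_inv]
        exact inv_mem ha }
  have hDmem : ∀ n a, a ∈ D n ↔ ι (Multiplicative.ofAdd a) ∈ (s n).1 := fun n a => Iff.rfl
  have hDmono : ∀ i j, i ≤ j → ∀ a, a ∈ D i → a ∈ D j := fun i j hij a ha => hmono hij ha
  have hDle : ∀ n a, a ∈ D n → a ∈ Om := fun n a ha => hmem _ (s n).2.2.1 (s n).2.2.2 a ha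
  obtain ⟨N', hN'⟩ : ∃ N', ∀ m, N' ≤ m → ∀ a, a ∈ D m → a ∈ D N' := by
    let Om' : Submodule ℤ A := AddSubgroup.toIntSubmodule Om
    have hfg : Om'.FG := by
      obtain ⟨T, hT⟩ := hOm
      refine ⟨T, ?_⟩
      apply le_antisymm
      · rw [Submodule.span_le]
        intro t ht
        show t ∈ Om
        rw [← hT]
        exact AddSubgroup.subset_closure ht
      · intro a ha
        have h1 : a ∈ AddSubgroup.closure (T : Set A) := by rw [hT]; exact ha
        have h2 : AddSubgroup.closure (T : Set A) ≤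
            (Submodule.span ℤ (T : Set A)).toAddSubgroup := by
          rw [AddSubgroup.closure_le]
          intro x hx
          exact Submodule.subset_span hx
        exact h2 h1
    haveI : IsNoetherian ℤ ↥Om' := isNoetherian_of_fg_of_noetherian _ hfg
    let D' : ℕ →o Submodule ℤ ↥Om' :=
      ⟨fun n => (AddSubgroup.toIntSubmodule (D n)).comap Om'.subtype, fun i j hij x hx =>
        hDmono i j hij _ hx⟩
    obtain ⟨N', hN'⟩ := monotone_stabilizes_iff_noetherian.2 this D'
    refine ⟨N', fun m hm a ha => ?_⟩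
    have h1 : (⟨a, hDle m a ha⟩ : ↥Om') ∈ D' m := ha
    rw [← hN' m hm] at h1
    exact h1
  -- conclusion
  have hlt := hs (max N N')
  refine absurd ?_ (not_le_of_gt hlt)
  intro x hx
  have h1 : f x ∈ (s (max N N')).1.map f := by
    rw [hN _ (le_max_left _ _), ← hN (max N N' + 1) (le_trans (le_max_left _ _) (Nat.le_succ _))]
    exact ⟨x, hx, rfl⟩
  obtain ⟨z, hz, hzx⟩ := h1
  have h2 : x * z⁻¹ ∈ f.ker := by
    rw [MonoidHom.mem_ker, map_mul, map_inv, hzx, mul_inv_cancel]
  rw [← h.range] at h2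
  obtain ⟨a, ha⟩ := h2
  have h3 : a.toAdd ∈ D (max N N' + 1) := by
    rw [hDmem]
    show ι a ∈ _
    rw [ha]
    exact mul_mem hx (inv_mem (hlt.le hz))
  have h4 := hDmono _ _ (le_max_right N N') _ (hN' _ (le_trans (le_max_right N N') (Nat.le_succ _)) _ h3)
  rw [hDmem] at h4
  have h5 : x * z⁻¹ ∈ (s (max N N')).1 := by rw [← ha]; exact h4
  have h6 := mul_mem h5 hz
  rwa [inv_mul_cancel_right] at h6

end Pool.Agent.Helper294.HallG
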