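import Pool.Agent.Helper294.HallG.EDefs
import Pool.Agent.Helper294.HallG.GenOm
import Pool.Agent.Helper294.HallG.Red
import Pool.Agent.Helper294.HallC.ConjModel
import Pool.Agent.Helper294.HallC.ConjFgm
import Pool.Agent.Helper294.HallC.FngOfFp
import Pool.Agent.Helper294.HallC.PcFp

set_option autoImplicit false

namespace Pool.Agent.Helper294.HallG

open Module Pool.Agent.Helper946.HC Pool.Agent.Helper946.S4 Pool.Agent.Helper294.HallM
open Pool.Agent.Helper294.HallC (del FGM Stb Noe NoeOn ConjAct')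

theorem fin_499 :
    ∀ (G : Type) [Group G], Group.FG G →
      (∃ A : Subgroup G, A.Normal ∧ (∀ a ∈ A, ∀ b ∈ A, a * b = b * a) ∧
        (∃ n : ℕ, derivedSeries G n ≤ A) ∧
        (∀ H : Subgroup G, A ≤ H →
          ∃ S : Finset G, H = Subgroup.closure (S : Set G) ⊔ A)) →
      (∀ H : Subgroup G, H ≠ ⊤ → H.FG → Group.IsNilpotent H →
        ∃ K : Subgroup G, H < K ∧ K.FG ∧ Group.IsNilpotent K) →
      Group.IsNilpotent G := by
  classical
  intro G _ hG ⟨A, hA, hab, ⟨n, hn⟩, hfg⟩ hasc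
  haveI := hA
  have hsurj : Function.Surjective (QuotientGroup.mk' A) := QuotientGroup.mk'_surjective A
  have hPC : Pool.Agent.Helper294.HallC.PC (G ⧸ A) := by
    refine ⟨⟨n, ?_⟩, ?_⟩
    · rw [← map_derivedSeries_eq hsurj, eq_bot_iff]
      have h1 := Subgroup.map_mono (f := QuotientGroup.mk' A) hn
      rw [QuotientGroup.map_mk'_self] at h1
      exact h1
    · intro H
      obtain ⟨S, hS⟩ := hfg (H.comap (QuotientGroup.mk' A)) (by
        intro a ha
        rw [Subgroup.mem_comap]
        have : QuotientGroup.mk' A a = 1 := (QuotientGroup.eq_one_iff a).2 ha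
        rw [this]; exact H.one_mem)
      have h2 : H = (H.comap (QuotientGroup.mk' A)).map (QuotientGroup.mk' A) :=
        (Subgroup.map_comap_eq_self_of_surjective hsurj H).symm
      rw [h2, hS, Subgroup.map_sup, QuotientGroup.map_mk'_self, sup_bot_eq, MonoidHom.map_closure]
      exact ⟨S.image (QuotientGroup.mk' A), by rw [Finset.coe_image]⟩
  have hker : ∀ x ∈ (QuotientGroup.mk' A).ker, ∀ y ∈ (QuotientGroup.mk' A).ker, x * y = y * x := by
    intro x hx y hy
    rw [QuotientGroup.ker_mk'] at hx hy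
    exact hab x hx y hy
  obtain ⟨M, _, _, ι, hι⟩ := Pool.Agent.Helper294.HallC.conj_model (QuotientGroup.mk' A) hsurj hker
  have hfgm := Pool.Agent.Helper294.HallC.conj_fgm (QuotientGroup.mk' A) hsurj ι hι
    (Pool.Agent.Helper294.HallC.fng_of_fp hG (Pool.Agent.Helper294.HallC.pc_fp hPC) _ hsurj)
  obtain ⟨y, hy⟩ := gen_om (Γ := G ⧸ A) (A := M) hPC hfgm
  exact red (QuotientGroup.mk' A) hsurj ι hι hPC y hy hasc

end Pool.Agent.Helper294.HallG
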