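import Pool.Agent.Helper294.HallG.Defs
import Pool.Agent.Helper294.HX.HCNoeth
import Pool.Agent.Helper294.HallM.GmStable
import Pool.Agent.Helper294.HallG.IsoGm
import Pool.Agent.Helper294.HallG.T2SimpleN

set_option autoImplicit false

namespace Pool.Agent.Helper294.HallG

open Module Pool.Agent.Helper946.HC Pool.Agent.Helper946.S4 Pool.Agent.Helper294.HallM


theorem t2_fin {K G A : Type} [DivisionRing K] [Group G] [AddCommGroup A] [Module K A]
    [DistribMulAction G A] (hs : ∀ g : G, Semi K (ac g : A ≃+ A))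
    (hN : NoethFor (Set.univ : Set G) (⊤ : Submodule K A)) (N : Subgroup G) (hNn : N.Normal) :
    ∃ F : Set (Submodule K A), F.Finite ∧
      (∀ U ∈ F, U ≠ ⊥ ∧ FiniteDimensional K U ∧ St N U ∧ ∀ V ≤ U, St N V → V = ⊥ ∨ V = U) ∧
      ∀ P : Submodule K A, P ≠ ⊥ → FiniteDimensional K P → St N P →
        (∀ V ≤ P, St N V → V = ⊥ ∨ V = P) → ∃ U ∈ F, ∃ g : G, IsoN N P (gm g U) := by
  classical
  obtain ⟨i1, i2, i3, i4, i5, i6, i7, i8⟩ := iso_gm hs N hNn
  by_contra hcon
  let Good : Submodule K A → Prop := fun U =>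
    U ≠ ⊥ ∧ FiniteDimensional K U ∧ St N U ∧ ∀ V ≤ U, St N V → V = ⊥ ∨ V = U
  have hstep : ∀ F : {F : Set (Submodule K A) // F.Finite ∧ ∀ U ∈ F, Good U},
      ∃ P : Submodule K A, Good P ∧ ∀ U ∈ F.1, ∀ g : G, ¬ IsoN N P (gm g U) := by
    rintro ⟨F, hF1, hF2⟩
    by_contra hno
    refine hcon ⟨F, hF1, hF2, fun P h1 h2 h3 h4 => ?_⟩
    by_contra hno2
    refine hno ⟨P, ⟨h1, h2, h3, h4⟩, fun U hU g hiso => hno2 ⟨U, hU, g, hiso⟩⟩
  choose nx hnx1 hnx2 using hstep
  let step : {F : Set (Submodule K A) // F.Finite ∧ ∀ U ∈ F, Good U} →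
      {F : Set (Submodule K A) // F.Finite ∧ ∀ U ∈ F, Good U} := fun F =>
    ⟨insert (nx F) F.1, F.2.1.insert _, by
      rintro U (rfl | hU)
      · exact hnx1 F
      · exact F.2.2 U hU⟩
  let Fn : ℕ → {F : Set (Submodule K A) // F.Finite ∧ ∀ U ∈ F, Good U} := fun n =>
    step^[n] ⟨∅, Set.finite_empty, fun U hU => absurd hU (Set.notMem_empty U)⟩
  have hFs : ∀ n, (Fn (n + 1)).1 = insert (nx (Fn n)) (Fn n).1 := by
    intro n
    show (step^[n + 1] _).1 = _
    rw [Function.iterate_succ_apply']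
  let SS : ℕ → Set (Submodule K A) := fun n => {S | ∃ U ∈ (Fn n).1, ∃ g : G, S = gm g U}
  let V : ℕ → Submodule K A := fun n => sSup (SS n)
  have hVm : Monotone V := by
    refine monotone_nat_of_le_succ fun n => sSup_le_sSup ?_
    rintro S ⟨U, hU, g, rfl⟩
    refine ⟨U, ?_, g, rfl⟩
    rw [hFs]
    exact Set.mem_insert_of_mem _ hU
  have hVst : ∀ n, ∀ h : G, ∀ x ∈ V n, h • x ∈ V n := by
    intro n h x hx
    obtain ⟨σ, hσ⟩ := hs h
    let W : Submodule K A :=
      { carrier := {x | h • x ∈ V n}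
        zero_mem' := by show h • (0 : A) ∈ V n; rw [smul_zero]; exact (V n).zero_mem
        add_mem' := by
          intro a b ha hb
          show h • (a + b) ∈ V n
          rw [smul_add]
          exact (V n).add_mem ha hb
        smul_mem' := by
          intro k a ha
          show h • (k • a) ∈ V n
          have h1 : h • (k • a) = σ k • (h • a) := hσ k a
          rw [h1]
          exact (V n).smul_mem _ ha }
    have hle : V n ≤ W := by
      refine sSup_le ?_
      rintro S ⟨U, hU, g, rfl⟩ y hy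
      show h • y ∈ V n
      have h1 : h • y ∈ (gm (h * g) U : Submodule K A) := by
        rw [i5]
        exact Submodule.subset_span ⟨y, hy, rfl⟩
      have h2 : (gm (h * g) U : Submodule K A) ≤ V n := le_sSup ⟨U, hU, h * g, rfl⟩
      exact h2 h1
    exact hle hx
  obtain ⟨n, hn⟩ := hN V hVm (fun n => ⟨le_top, fun g _ x hx => hVst n g x hx⟩)
  have hn1 : V (n + 1) = V n := hn (n + 1) (Nat.le_succ n)
  have hgood := hnx1 (Fn n)
  have hle : nx (Fn n) ≤ sSup (SS n) := by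
    have h1 : nx (Fn n) ≤ V (n + 1) := by
      refine le_sSup ⟨nx (Fn n), ?_, 1, (i6 _).symm⟩
      rw [hFs]
      exact Set.mem_insert _ _
    rw [hn1] at h1
    exact h1
  obtain ⟨S, ⟨U, hU, g, rfl⟩, hiso⟩ := t2_simpleN N (SS n) (by
    rintro S ⟨U, hU, g, rfl⟩
    have hg := (Fn n).2.2 U hU
    exact i7 g U hg.1 hg.2.2.1 hg.2.2.2) (nx (Fn n)) hgood.1 hgood.2.2.1 hgood.2.2.2 hle
  exact hnx2 (Fn n) U hU g hiso

end Pool.Agent.Helper294.HallG
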