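import Pool.Agent.Helper294.HallG.Defs
import Pool.Agent.Helper294.HX.HCTr
import Pool.Agent.Helper294.HallM.OpIndep

set_option autoImplicit false

namespace Pool.Agent.Helper294.HallG

open Module Pool.Agent.Helper946.HC Pool.Agent.Helper946.S4 Pool.Agent.Helper294.HallM


theorem tors_quot_rel {K G A Q : Type} [DivisionRing K] [Group G] [AddCommGroup A] [Module K A]
    [DistribMulAction G A] [Group Q] {ρ : G →* Q}
    (hs : ∀ g : G, Semi K (ac g : A ≃+ A))
    (hsc : ∀ g : G, ρ g = 1 → ∃ c : K, ∀ a : A, g • a = c • a) {r : ℕ}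
    (ε : Multiplicative (Fin r → ℤ) →* Q) {y : (Fin r → ℤ) → G}
    (hy : ∀ v, ρ (y v) = ε (Multiplicative.ofAdd v)) (w : A) (hw : Tors (K := K) ρ ε w) :
    ∃ k : (Fin r → ℤ) →₀ K, k ≠ 0 ∧ (k.sum fun v c => c • (y v • w)) = 0 := by
  classical
  obtain ⟨F, v0, hv0, g, hg, hmem⟩ := hw
  have hn : ρ (g⁻¹ * y v0) = 1 := by
    rw [map_mul, map_inv, hg, hy]
    simp
  obtain ⟨c, hc⟩ := hsc _ hn
  obtain ⟨σ, hσ⟩ := hs g
  have e1 : y v0 • w = σ c • (g • w) := by
    have h1 : y v0 • w = g • ((g⁻¹ * y v0) • w) := by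
      rw [← mul_smul, mul_inv_cancel_left]
    rw [h1, hc w]
    exact hσ c w
  have h2 : y v0 • w ∈ Submodule.span K ((fun v => y v • w) '' (F : Set (Fin r → ℤ))) := by
    rw [← tr_eq hs hsc hy (F : Set (Fin r → ℤ)) w, e1]
    exact Submodule.smul_mem _ _ hmem
  rw [Finsupp.mem_span_image_iff_linearCombination] at h2
  obtain ⟨l, hl, hl2⟩ := h2
  have hlv : l v0 = 0 := by
    by_contra hne
    have h3 : v0 ∈ (F : Set (Fin r → ℤ)) := (Finsupp.mem_supported K l).1 hl
      (Finsupp.mem_support_iff.2 hne)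
    exact hv0 h3
  refine ⟨Finsupp.single v0 1 - l, ?_, ?_⟩
  · intro h0
    have h4 := DFunLike.congr_fun h0 v0
    rw [Finsupp.sub_apply, Finsupp.single_eq_same, hlv, sub_zero, Finsupp.zero_apply] at h4
    exact one_ne_zero h4
  · have h5 : ((Finsupp.single v0 1 - l).sum fun v c => c • (y v • w)) =
        Finsupp.linearCombination K (fun v => y v • w) (Finsupp.single v0 1 - l) :=
      (Finsupp.linearCombination_apply K _).symm
    rw [h5, map_sub, Finsupp.linearCombination_single, hl2, one_smul, sub_self]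

theorem tors_quot_act {K G A : Type} [DivisionRing K] [Group G] [AddCommGroup A] [Module K A]
    [DistribMulAction G A] (g : G) (σ : K ≃+* K) (hσ : ∀ (k : K) (x : A), g • (k • x) = σ k • (g • x))
    {r : ℕ} (k : (Fin r → ℤ) →₀ K) (z : (Fin r → ℤ) → A) :
    g • (k.sum fun v c => c • z v) = k.sum fun v c => σ c • (g • z v) := by
  rw [Finsupp.sum, Finsupp.sum, Finset.smul_sum]
  apply Finset.sum_congr rfl
  intro v _
  exact hσ _ _

theorem tors_quot {K G A Q : Type} [DivisionRing K] [Group G] [AddCommGroup A] [Module K A]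
    [DistribMulAction G A] [Group Q] {A₂ : Type} [AddCommGroup A₂] [Module K A₂] [DistribMulAction G A₂]
    {ρ : G →* Q} (hρ : Function.Surjective ρ)
    (hs : ∀ g : G, Semi K (ac g : A ≃+ A))
    (hsc : ∀ g : G, ρ g = 1 → ∃ c : K, ∀ a : A, g • a = c • a)
    (hs₂ : ∀ g : G, Semi K (ac g : A₂ ≃+ A₂)) {r : ℕ}
    (ε : Multiplicative (Fin r → ℤ) →* Q)
    (T : Submodule K A) (hT : ∀ a, a ∈ T ↔ Tors (K := K) ρ ε a)
    (π : A →ₗ[K] A₂) (hsurj : Function.Surjective π) (hπ : LinearMap.ker π = T)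
    (heq : ∀ (g : G) (a : A), π (g • a) = g • π a) (a : A₂) (ha : Tors (K := K) ρ ε a) :
    a = 0 := by
  classical
  by_contra hane
  obtain ⟨a', rfl⟩ := hsurj a
  have hsc₂ : ∀ g : G, ρ g = 1 → ∃ c : K, ∀ a : A₂, g • a = c • a := by
    intro g hg
    obtain ⟨c, hc⟩ := hsc g hg
    refine ⟨c, fun b => ?_⟩
    obtain ⟨b', rfl⟩ := hsurj b
    rw [← heq, hc, map_smul]
  have ha' : ¬ Tors (K := K) ρ ε a' := by
    intro h
    apply hane
    rw [← hT, ← hπ, LinearMap.mem_ker] at h
    exact h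
  have ha0 : a' ≠ 0 := by
    intro h
    rw [h, map_zero] at hane
    exact hane rfl
  choose y hy using fun v : Fin r → ℤ => hρ (ε (Multiplicative.ofAdd v))
  obtain ⟨k, hk0, hk⟩ := tors_quot_rel hs₂ hsc₂ ε hy (π a') ha
  obtain ⟨b, hb⟩ : ∃ b : A, b = k.sum fun v c => c • (y v • a') := ⟨_, rfl⟩
  have hbT : Tors (K := K) ρ ε b := by
    rw [← hT, ← hπ, LinearMap.mem_ker, hb, Finsupp.sum, map_sum]
    rw [Finsupp.sum] at hk
    rw [← hk]
    apply Finset.sum_congr rfl
    intro v _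
    rw [map_smul, heq]
  obtain ⟨l, hl0, hl⟩ := tors_quot_rel hs hsc ε hy b hbT
  choose σ hσ using fun u : Fin r → ℤ => hs (y u)
  -- the scalars
  have hc : ∀ u v : Fin r → ℤ, ∃ c : K, c ≠ 0 ∧ ∀ x : A,
      y u • (y v • x) = c • (y (u + v) • x) := by
    intro u v
    have hn : ρ (y u * y v * (y (u + v))⁻¹) = 1 := by
      rw [map_mul, map_mul, map_inv, hy, hy, hy, ofAdd_add, map_mul]
      simp
    obtain ⟨c, hc⟩ := hsc _ hn
    refine ⟨c, ?_, ?_⟩
    · intro hc0
      have h1 := hc a'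
      rw [hc0, zero_smul] at h1
      exact ha0 ((smul_eq_zero_iff_eq _).1 h1)
    · intro x
      rw [← hc, ← mul_smul, ← mul_smul, inv_mul_cancel_right]
  choose c hcne hc using hc
  -- the double sum
  obtain ⟨f, hf⟩ : ∃ f : (Fin r → ℤ) →₀ K, f = ∑ u ∈ l.support, ∑ v ∈ k.support,
      Finsupp.single (u + v) (l u * (σ u (k v) * c u v)) := ⟨_, rfl⟩
  have hf0 : f = 0 := by
    apply op_indep ε y hy a' ha'
    have h5 : (f.sum fun v c => c • (y v • a')) =
        Finsupp.linearCombination K (fun v => y v • a') f :=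
      (Finsupp.linearCombination_apply K _).symm
    rw [h5, hf, map_sum]
    rw [← hl, Finsupp.sum]
    apply Finset.sum_congr rfl
    intro u _
    rw [map_sum]
    have h6 : y u • b = ∑ v ∈ k.support, (σ u (k v) * c u v) • (y (u + v) • a') := by
      rw [hb, tors_quot_act (y u) (σ u) (fun k x => hσ u k x) k (fun v => y v • a')]
      rw [Finsupp.sum]
      apply Finset.sum_congr rfl
      intro v _
      rw [hc u v a', mul_smul]
    rw [h6, Finset.smul_sum]
    apply Finset.sum_congr rfl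
    intro v _
    rw [Finsupp.linearCombination_single, mul_smul]
  have hls : l.support.Nonempty := Finsupp.support_nonempty_iff.2 hl0
  have hks : k.support.Nonempty := Finsupp.support_nonempty_iff.2 hk0
  obtain ⟨u0, hu0, v1, hv1, huniq⟩ := UniqueSums.uniqueAdd_of_nonempty hls hks
  have h7 : f (u0 + v1) = l u0 * (σ u0 (k v1) * c u0 v1) := by
    rw [hf, Finsupp.finsetSum_apply]
    rw [Finset.sum_eq_single u0]
    · rw [Finsupp.finsetSum_apply, Finset.sum_eq_single v1]
      · rw [Finsupp.single_eq_same]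
      · intro v hv hne
        apply Finsupp.single_eq_of_ne
        intro he
        exact hne (huniq hu0 hv he.symm).2
      · intro h; exact absurd hv1 h
    · intro u hu hne
      rw [Finsupp.finsetSum_apply]
      apply Finset.sum_eq_zero
      intro v hv
      apply Finsupp.single_eq_of_ne
      intro he
      exact hne (huniq hu hv he.symm).1
    · intro h; exact absurd hu0 h
  rw [hf0, Finsupp.zero_apply] at h7
  have h8 : l u0 ≠ 0 := Finsupp.mem_support_iff.1 hu0
  have h9 : k v1 ≠ 0 := Finsupp.mem_support_iff.1 hv1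
  have h10 : σ u0 (k v1) ≠ 0 := by
    intro h
    exact h9 ((map_eq_zero_iff (σ u0) (σ u0).injective).1 h)
  exact (mul_ne_zero h8 (mul_ne_zero h10 (hcne u0 v1))) h7.symm

end Pool.Agent.Helper294.HallG
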